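import Pool.Agent.MP4d0966.Core

set_option autoImplicit false

namespace Pool.Agent.MP4d0966.R4

open Module

variable {M : Type*} [AddCommGroup M]

theorem exists_gen (φ : M →ₗ[ℤ] ℤ) : ∃ z, ∀ x, φ z ∣ φ x := by
  obtain ⟨z, hz⟩ := Submodule.IsPrincipal.generator_mem (LinearMap.range φ)
  refine ⟨z, fun x => ?_⟩
  have h1 : φ x ∈ LinearMap.range φ := ⟨x, rfl⟩
  rw [Submodule.IsPrincipal.mem_iff_eq_smul_generator (LinearMap.range φ)] at h1
  obtain ⟨a, ha⟩ := h1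
  rw [hz, ha]
  exact ⟨a, by rw [smul_eq_mul]; ring⟩

/-- every nonzero vector is a multiple of one on which a functional takes the value `1` -/
theorem exists_primitive [Module.Free ℤ M] [Module.Finite ℤ M] (w : M) (hw : w ≠ 0) :
    ∃ (g : ℤ) (w' : M) (ψ : M →ₗ[ℤ] ℤ), w = g • w' ∧ ψ w' = 1 := by
  obtain ⟨ψ, hψ⟩ := exists_gen ((Module.Dual.eval ℤ M) w)
  set b := Module.Free.chooseBasis ℤ M with hb
  have h1 : ∀ i, ∃ c, b.repr w i = ψ w * c := by
    intro i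
    have h2 := hψ (b.coord i)
    simp only [Module.Dual.eval_apply] at h2
    exact h2
  choose c hc using h1
  set w' := ∑ i, c i • b i with hw'
  have h2 : w = ψ w • w' := by
    rw [hw', Finset.smul_sum]
    conv_lhs => rw [← b.sum_repr w]
    refine Finset.sum_congr rfl fun i _ => ?_
    rw [hc, mul_smul]
  have h3 : ψ w ≠ 0 := by
    intro h
    apply hw
    rw [h2, h, zero_smul]
  refine ⟨ψ w, w', ψ, h2, ?_⟩
  have h4 : ψ w = ψ w * ψ w' := by
    conv_lhs => rw [h2]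
    rw [map_smul, smul_eq_mul]
  have h5 : ψ w * (ψ w' - 1) = 0 := by linear_combination -h4
  have h6 := (mul_eq_zero.mp h5).resolve_left h3
  linarith

theorem split_basis (φ : M →ₗ[ℤ] ℤ) (z : M) (hz : φ z ≠ 0) (hdvd : ∀ x, φ z ∣ φ x) {k : ℕ}
    (c : Basis (Fin k) ℤ (LinearMap.ker φ)) :
    ∃ b : Basis (Fin (k + 1)) ℤ M, b 0 = z ∧ ∀ i, b (Fin.succ i) = (c i : M) := by
  refine ⟨Basis.mkFinCons z c ?_ ?_, ?_, ?_⟩
  · intro a x hx h
    have h1 : φ (a • z + x) = 0 := by rw [h, map_zero]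
    rw [map_add, map_smul, LinearMap.mem_ker.mp hx, add_zero, smul_eq_mul] at h1
    exact (mul_eq_zero.mp h1).resolve_right hz
  · intro x
    obtain ⟨a, ha⟩ := hdvd x
    refine ⟨-a, ?_⟩
    rw [LinearMap.mem_ker, map_add, map_smul, ha, smul_eq_mul]
    ring
  · rw [Basis.coe_mkFinCons]
    rfl
  · intro i
    rw [Basis.coe_mkFinCons]
    rfl

theorem split_finrank [Module.Free ℤ M] [Module.Finite ℤ M] {n : ℕ}
    (hM : Module.finrank ℤ M = n + 1) (φ : M →ₗ[ℤ] ℤ) (z : M) (hz : φ z ≠ 0)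
    (hdvd : ∀ x, φ z ∣ φ x) : Module.finrank ℤ (LinearMap.ker φ) = n := by
  obtain ⟨b, -, -⟩ := split_basis φ z hz hdvd (Module.finBasis ℤ (LinearMap.ker φ))
  have h1 := Module.finrank_eq_card_basis b
  rw [Fintype.card_fin, hM] at h1
  omega

/-- an adapted basis -/
theorem exists_basis [Module.Free ℤ M] [Module.Finite ℤ M] (hM : Module.finrank ℤ M = 4)
    (L : EvenForm M) (hnd : ∀ x, (∀ y, L.B x y = 0) → x = 0) {l1 w0 : M} (hl : L.q l1 = 1)
    (hw0 : w0 ≠ 0) (hw : L.q w0 = 0) (hlw : L.B l1 w0 = 0) :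
    ∃ (b : Basis (Fin 4) ℤ M) (n0 j : ℤ), n0 ≠ 0 ∧ L.q (b 1) = 0 ∧ L.B (b 0) (b 1) = n0 ∧
      L.B (b 2) (b 1) = 0 ∧ L.B (b 3) (b 1) = 0 ∧ l1 = b 2 + j • b 1 ∧ L.q (b 2) = 1 ∧
      (∃ g : ℤ, g ≠ 0 ∧ w0 = g • b 1) := by
  obtain ⟨g, w', ψ, hgw, hψ⟩ := exists_primitive w0 hw0
  have hg : g ≠ 0 := by
    rintro rfl
    exact hw0 (by rw [hgw, zero_smul])
  have hqw' : L.q w' = 0 := by
    have h1 : L.q w0 = g ^ 2 * L.q w' := by rw [hgw, L.q_smul]
    rw [hw] at h1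
    exact (mul_eq_zero.mp h1.symm).resolve_left (pow_ne_zero 2 hg)
  have hw'l : L.B w' l1 = 0 := by
    have h1 : L.B l1 w0 = g * L.B l1 w' := by rw [hgw, map_smul, smul_eq_mul]
    rw [hlw] at h1
    rw [L.symm]
    exact (mul_eq_zero.mp h1.symm).resolve_left hg
  have hw'w' : L.B w' w' = 0 := by rw [L.hq, hqw', mul_zero]
  have hw'0 : w' ≠ 0 := by
    rintro rfl
    rw [map_zero] at hψ
    exact zero_ne_one hψ
  -- the first splitting
  obtain ⟨z0, hz0⟩ := exists_gen (L.B w')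
  have hz0' : L.B w' z0 ≠ 0 := by
    intro h
    apply hw'0
    apply hnd
    intro y
    have h1 := hz0 y
    rw [h, zero_dvd_iff] at h1
    exact h1
  set K := LinearMap.ker (L.B w') with hK
  have hKrank : Module.finrank ℤ K = 3 := split_finrank hM (L.B w') z0 hz0' hz0
  -- the second splitting
  let w'K : K := ⟨w', LinearMap.mem_ker.mpr hw'w'⟩
  let ψK : K →ₗ[ℤ] ℤ := ψ.comp K.subtype
  have hψK : ψK w'K = 1 := hψ
  have hψKd : ∀ x, ψK w'K ∣ ψK x := fun x => by rw [hψK]; exact one_dvd _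
  have hψK0 : ψK w'K ≠ 0 := by rw [hψK]; exact one_ne_zero
  set K' := LinearMap.ker ψK with hK'
  have hK'rank : Module.finrank ℤ K' = 2 := split_finrank hKrank ψK w'K hψK0 hψKd
  let l1K : K := ⟨l1, LinearMap.mem_ker.mpr hw'l⟩
  let l1K' : K' := ⟨l1K - ψ l1 • w'K, by
    rw [LinearMap.mem_ker, map_sub, map_smul, hψK]
    show ψ l1 - ψ l1 • (1 : ℤ) = 0
    rw [smul_eq_mul]
    ring⟩
  have hl1K' : ((l1K' : K) : M) = l1 - ψ l1 • w' := rfl
  have hql : L.q (l1 - ψ l1 • w') = 1 := by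
    rw [L.q_sub, L.q_smul, hl, hqw', map_smul, L.symm l1 w', hw'l, smul_zero]
    ring
  have hl1K'0 : l1K' ≠ 0 := by
    intro h
    have h1 : ((l1K' : K) : M) = 0 := by rw [h]; rfl
    rw [hl1K'] at h1
    rw [h1, L.q_zero] at hql
    exact zero_ne_one hql
  obtain ⟨g', m, ψ', hg'm, hψ'⟩ := exists_primitive l1K' hl1K'0
  have hg' : g' ^ 2 = 1 := by
    have h1 : l1 - ψ l1 • w' = g' • ((m : K) : M) := by
      rw [← hl1K', hg'm]
      rfl
    rw [h1, L.q_smul] at hql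
    have h2 : g' ^ 2 ∣ 1 := Dvd.intro _ hql
    have h3 : 0 ≤ g' ^ 2 := sq_nonneg _
    exact Int.eq_one_of_dvd_one h3 h2
  have hψ'1 : (g' • ψ') l1K' = 1 := by
    rw [LinearMap.smul_apply, hg'm, map_smul, hψ', smul_eq_mul, smul_eq_mul]
    linear_combination hg'
  have hψ'd : ∀ x, (g' • ψ') l1K' ∣ (g' • ψ') x := fun x => by rw [hψ'1]; exact one_dvd _
  have hψ'0 : (g' • ψ') l1K' ≠ 0 := by rw [hψ'1]; exact one_ne_zero
  have hK''rank := split_finrank (n := 1) hK'rank (g' • ψ') l1K' hψ'0 hψ'd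
  obtain ⟨c1, hc10, hc1⟩ := split_basis (g' • ψ') l1K' hψ'0 hψ'd
    (Module.finBasisOfFinrankEq ℤ _ hK''rank)
  obtain ⟨c2, hc20, hc2⟩ := split_basis ψK w'K hψK0 hψKd c1
  obtain ⟨c3, hc30, hc3⟩ := split_basis (L.B w') z0 hz0' hz0 c2
  have hb1 : c3 1 = w' := by
    have h1 := hc3 0
    rw [hc20] at h1
    exact h1
  have hb2 : c3 2 = l1 - ψ l1 • w' := by
    have h1 := hc3 1
    have h2 := hc2 0
    rw [hc10] at h2
    rw [show (1 : Fin 3) = Fin.succ 0 from rfl, h2] at h1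
    exact h1
  have hb3 : L.B w' (c3 3) = 0 := by
    have h1 := hc3 2
    have h2 : L.B w' ((c2 2 : K) : M) = 0 := (c2 2).2
    rw [← h1] at h2
    exact h2
  refine ⟨c3, L.B w' z0, ψ l1, hz0', ?_, ?_, ?_, ?_, ?_, ?_, g, hg, ?_⟩
  · rw [hb1, hqw']
  · rw [hb1, hc30, L.symm]
  · rw [hb1, hb2, L.symm, map_sub, map_smul, hw'l, hw'w', smul_zero, sub_zero]
  · rw [hb1, L.symm, hb3]
  · rw [hb1, hb2]
    abel
  · rw [hb2, hql]
  · rw [hb1, hgw]

/-- the discriminant does not depend on the basis -/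
theorem det_gram_eq (B : M →ₗ[ℤ] M →ₗ[ℤ] ℤ) (b c : Basis (Fin 4) ℤ M) :
    (Matrix.of fun i j => B (b i) (b j)).det = (Matrix.of fun i j => B (c i) (c j)).det := by
  have h1 : ∀ b : Basis (Fin 4) ℤ M, (Matrix.of fun i j => B (b i) (b j)) =
      LinearMap.BilinForm.toMatrix b B := by
    intro b
    ext i j
    rw [LinearMap.BilinForm.toMatrix_apply]
    rfl
  rw [h1, h1, ← LinearMap.BilinForm.toMatrix_mul_basis_toMatrix b c B, Matrix.det_mul,
    Matrix.det_mul, Matrix.det_transpose]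
  have h2 : (b.toMatrix c).det * (c.toMatrix b).det = 1 := by
    rw [← Matrix.det_mul, Basis.toMatrix_mul_toMatrix_flip, Matrix.det_one]
  have h3 : (b.toMatrix c).det = 1 ∨ (b.toMatrix c).det = -1 :=
    Int.isUnit_iff.mp (IsUnit.of_mul_eq_one _ h2)
  rcases h3 with h3 | h3 <;> rw [h3] <;> ring

end Pool.Agent.MP4d0966.R4
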