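import Pool.Agent.MP4d0966.Arith

set_option autoImplicit false

namespace Pool.Agent.MP4d0966

/-! The main argument, for an even symmetric bilinear form `B` with quadratic form `q`
(`B x x = 2 * q x`). -/

/-- an even symmetric bilinear form together with its quadratic form -/
structure EvenForm (N : Type*) [AddCommGroup N] where
  B : N →ₗ[ℤ] N →ₗ[ℤ] ℤ
  q : N → ℤ
  symm : ∀ x y, B x y = B y x
  hq : ∀ x, B x x = 2 * q x

namespace EvenForm

variable {N : Type*} [AddCommGroup N] (L : EvenForm N)

theorem q_add (x y : N) : L.q (x + y) = L.q x + L.q y + L.B x y := by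
  have h1 := L.hq (x + y)
  have h2 := L.hq x
  have h3 := L.hq y
  have h4 := L.symm y x
  simp only [map_add, LinearMap.add_apply] at h1
  linarith

theorem q_smul (n : ℤ) (x : N) : L.q (n • x) = n ^ 2 * L.q x := by
  have h1 := L.hq (n • x)
  have h2 := L.hq x
  simp only [map_smul, LinearMap.smul_apply, smul_eq_mul] at h1
  rw [h2] at h1
  have h3 : 2 * L.q (n • x) = 2 * (n ^ 2 * L.q x) := by rw [← h1]; ring
  linarith

theorem q_sub (x y : N) : L.q (x - y) = L.q x + L.q y - L.B x y := by
  have h : x - y = x + (-1 : ℤ) • y := by module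
  rw [h, q_add, q_smul, map_smul, smul_eq_mul]
  ring

theorem q_zero : L.q 0 = 0 := by
  have h := L.q_smul 0 0
  simpa using h

/-- existence of an isotropic vector whose pairing with `l` is prime to `D` -/
theorem exists_good (hnd : ∀ x, (∀ y, L.B x y = 0) → x = 0) {e f l x1 w0 : N}
    (he : L.q e = 0) (hf : L.q f = 0) (hef : L.B e f = 1) (hl : L.q l = 1)
    (hx1 : L.B l x1 = 1) (hw : L.q w0 = 0) (hw0 : w0 ≠ 0) (hlw : L.B l w0 = 0)
    (D : ℤ) (hD : D ≠ 0) :
    ∃ f', L.q f' = 0 ∧ IsCoprime (L.B l f') D ∧ L.B f' w0 ≠ 0 := by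
  classical
  set a := L.B l f with ha
  set b := L.B l e with hb
  have hee : L.B e e = 0 := by rw [L.hq, he, mul_zero]
  have hff : L.B f f = 0 := by rw [L.hq, hf, mul_zero]
  have hfe : L.B f e = 1 := by rw [L.symm, hef]
  have hll : L.B l l = 2 := by rw [L.hq, hl, mul_one]
  let M : Submodule ℤ N := LinearMap.ker (L.B e) ⊓ LinearMap.ker (L.B f)
  have hM : ∀ z : N, z ∈ M ↔ L.B e z = 0 ∧ L.B f z = 0 := fun z => by
    simp only [M, Submodule.mem_inf, LinearMap.mem_ker]
  have hproj : ∀ x : N, x - L.B x f • e - L.B x e • f ∈ M := by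
    intro x
    rw [hM]
    have h1 := L.symm e x
    have h2 := L.symm f x
    simp only [map_sub, map_smul, smul_eq_mul, hee, hff, hef, hfe, h1, h2]
    constructor <;> ring
  -- the values of `l` on the transvected isotropic vectors
  let F : N → ℤ := fun z => a + L.B l z - L.q z * b
  have hFadd : ∀ (z u : N) (n : ℤ), F (z + n • u) =
      F z + n * (L.B l u - b * (n * L.q u + L.B z u)) := by
    intro z u n
    simp only [F, q_add, q_smul, map_add, map_smul, smul_eq_mul]
    ring
  -- the projection of `l`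
  set m := l - a • e - b • f with hm
  have hmM : m ∈ M := hproj l
  have hqm : L.q m = 1 - a * b := by
    simp only [hm, q_sub, q_smul, map_sub, map_smul, LinearMap.sub_apply, LinearMap.smul_apply,
      smul_eq_mul, hl, he, hf, hef, ← ha, ← hb]
    ring
  have hlm : L.B l m = 2 * (1 - a * b) := by
    simp only [hm, map_sub, map_smul, smul_eq_mul, hll, ← ha, ← hb]
    ring
  have hlocal : ∀ p : ℕ, p.Prime → ∃ z : M, ¬ (p : ℤ) ∣ F z := by
    intro p hp
    by_contra hcon
    push Not at hcon
    have h0 : (p : ℤ) ∣ a := by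
      have h := hcon 0
      simpa [F, q_zero] using h
    have h1 : (p : ℤ) ∣ a + 2 * (1 - a * b) - (1 - a * b) * b := by
      have h := hcon ⟨m, hmM⟩
      simpa only [F, hqm, hlm] using h
    have h2 : (p : ℤ) ∣ a - 2 * (1 - a * b) - (1 - a * b) * b := by
      have h := hcon ⟨(-1 : ℤ) • m, M.smul_mem _ hmM⟩
      simp only [F, q_smul, map_smul, smul_eq_mul, hqm, hlm] at h
      convert h using 1
      ring
    obtain ⟨a', ha'⟩ := h0
    have h4 : (p : ℤ) ∣ 4 := by
      have h := dvd_sub h1 h2
      have h5 : (a + 2 * (1 - a * b) - (1 - a * b) * b) -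
          (a - 2 * (1 - a * b) - (1 - a * b) * b) = 4 - p * (4 * a' * b) := by
        rw [ha']
        ring
      rw [h5] at h
      exact (dvd_sub_left (dvd_mul_right _ _)).mp h
    have hp2 : p = 2 := by
      have h5 : p ∣ 2 ^ 2 := by
        have : (p : ℤ) ∣ ((2 ^ 2 : ℕ) : ℤ) := by simpa using h4
        exact_mod_cast this
      exact (Nat.prime_dvd_prime_iff_eq hp Nat.prime_two).mp (hp.dvd_of_dvd_pow h5)
    subst hp2
    have h5 := hcon ⟨_, hproj x1⟩
    simp only [F, map_sub, map_smul, smul_eq_mul, hx1, ← ha, ← hb] at h5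
    have h6 : (2 : ℤ) ∣ b := by
      obtain ⟨c, hc⟩ := h1
      push_cast at ha' hc
      refine ⟨a' + (1 - a * b) + a' * b * b - c, ?_⟩
      rw [ha'] at hc ⊢
      linear_combination (-1 : ℤ) * hc
    obtain ⟨b', hb'⟩ := h6
    obtain ⟨c, hc⟩ := h5
    push_cast at ha' hc
    generalize L.q (x1 - L.B x1 f • e - L.B x1 e • f) = Q at hc
    generalize L.B x1 f = r at hc
    generalize L.B x1 e = s at hc
    have h7 : (1 : ℤ) = 2 * (c - a' + r * b' + s * a' + Q * b') := by
      rw [hb', ha'] at hc
      linear_combination hc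
    omega
  choose! zp hzp using hlocal
  obtain ⟨z0, hz0⟩ := exists_crt (G := M) D.natAbs.primeFactors
    (fun p hp => Nat.prime_of_mem_primeFactors hp) zp
  have hz0cop : IsCoprime (F z0) D := by
    apply isCoprime_of_primes hD
    intro p hp hpD hpF
    have hpS : p ∈ D.natAbs.primeFactors := by
      rw [Nat.mem_primeFactors]
      exact ⟨hp, Int.natCast_dvd.mp hpD, Int.natAbs_ne_zero.mpr hD⟩
    obtain ⟨u, hu⟩ := hz0 p hpS
    have h1 : (z0 : N) = (zp p : N) + (p : ℤ) • (u : N) := by
      rw [hu]
      rfl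
    rw [h1, hFadd] at hpF
    exact hzp p hp ((dvd_add_left (dvd_mul_right _ _)).mp hpF)
  -- nonvanishing
  let G : N → ℤ := fun z => L.B f w0 + L.B z w0 - L.q z * L.B e w0
  have hGadd : ∀ (z u : N) (n : ℤ), G (z + n • u) =
      G z + n * (L.B u w0 - (n * L.q u + L.B z u) * L.B e w0) := by
    intro z u n
    simp only [G, q_add, q_smul, map_add, map_smul, LinearMap.add_apply, LinearMap.smul_apply,
      smul_eq_mul]
    ring
  have hG : ∃ u : M, G ((z0 : N) + D • (u : N)) ≠ 0 := by
    by_contra hcon
    push Not at hcon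
    have hG0 : G (z0 : N) = 0 := by
      have h := hcon 0
      simpa using h
    have hu : ∀ u ∈ M, L.q u * L.B e w0 = 0 ∧ L.B u w0 = L.B (z0 : N) u * L.B e w0 := by
      intro u hu
      have h1 := hcon ⟨u, hu⟩
      have h2 := hcon ⟨(-1 : ℤ) • u, M.smul_mem _ hu⟩
      rw [hGadd, hG0, zero_add] at h1 h2
      have h3 := (mul_eq_zero.mp h1).resolve_left hD
      have h4 := (mul_eq_zero.mp h2).resolve_left hD
      simp only [q_smul, map_smul, LinearMap.smul_apply, smul_eq_mul] at h3 h4
      have h5 : D * (L.q u * L.B e w0) = 0 := by linarith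
      have h6 := (mul_eq_zero.mp h5).resolve_left hD
      refine ⟨h6, ?_⟩
      linear_combination h3 + D * h6
    by_cases hew : L.B e w0 = 0
    · apply hw0
      apply hnd
      intro y
      have h1 : L.B f w0 = 0 := by
        have h2 := (hu z0 z0.2).2
        rw [hew, mul_zero] at h2
        simp only [G, hew, mul_zero, h2] at hG0
        linarith
      have h2 := (hu _ (hproj y)).2
      rw [hew, mul_zero] at h2
      simp only [map_sub, map_smul, LinearMap.sub_apply, LinearMap.smul_apply, smul_eq_mul,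
        hew, h1, mul_zero, sub_zero] at h2
      rw [L.symm, h2]
    · have hqM : ∀ u ∈ M, L.q u = 0 := fun u hu' => (mul_eq_zero.mp (hu u hu').1).resolve_right hew
      have h1 : 1 - a * b = 0 := by rw [← hqm]; exact hqM m hmM
      -- decompose `w0`
      have h2 := hqM _ (hproj w0)
      have h3 : L.B m (w0 - L.B w0 f • e - L.B w0 e • f) = 0 := by
        have h4 := L.q_add m (w0 - L.B w0 f • e - L.B w0 e • f)
        rw [hqM _ (M.add_mem hmM (hproj w0)), hqM m hmM, h2] at h4
        linarith
      have hmM' := (hM m).mp hmM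
      have hme : L.B m e = 0 := by rw [L.symm]; exact hmM'.1
      have hmf : L.B m f = 0 := by rw [L.symm]; exact hmM'.2
      have h5 : L.B m w0 = 0 := by
        simp only [map_sub, map_smul, smul_eq_mul, hme, hmf, mul_zero, sub_zero] at h3
        exact h3
      have h6 : a * L.B e w0 + b * L.B f w0 = 0 := by
        have h7 : l = m + a • e + b • f := by rw [hm]; abel
        have h8 : L.B l w0 = L.B m w0 + a * L.B e w0 + b * L.B f w0 := by
          conv_lhs => rw [h7]
          simp only [map_add, map_smul, LinearMap.add_apply, LinearMap.smul_apply, smul_eq_mul]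
        rw [hlw, h5] at h8
        linarith
      have h7 : L.B w0 f * L.B w0 e = 0 := by
        have h8 : L.q (w0 - L.B w0 f • e - L.B w0 e • f) = - (L.B w0 f * L.B w0 e) := by
          simp only [q_sub, q_smul, map_sub, map_smul, LinearMap.sub_apply,
            LinearMap.smul_apply, smul_eq_mul, hw, he, hf, hef]
          ring
        rw [h8] at h2
        linarith
      rw [L.symm w0 f, L.symm w0 e] at h7
      have h8 : L.B f w0 = 0 := (mul_eq_zero.mp h7).resolve_right hew
      rw [h8, mul_zero, add_zero] at h6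
      have h9 : a = 0 := (mul_eq_zero.mp h6).resolve_right hew
      rw [h9] at h1
      simp at h1
  obtain ⟨u, hu⟩ := hG
  set z : N := (z0 : N) + D • (u : N) with hz
  have hzM : z ∈ M := M.add_mem z0.2 (M.smul_mem _ u.2)
  obtain ⟨hze, hzf⟩ := (hM z).mp hzM
  refine ⟨f + z - L.q z • e, ?_, ?_, ?_⟩
  · have h1 : L.B z e = 0 := by rw [L.symm]; exact hze
    simp only [q_sub, q_add, q_smul, map_add, map_smul, LinearMap.add_apply,
      smul_eq_mul, hf, he, hzf, hfe, h1]
    ring
  · have h1 : L.B l (f + z - L.q z • e) = F z := by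
      simp only [F, map_add, map_sub, map_smul, smul_eq_mul, ← ha, ← hb]
    rw [h1, hz, hFadd]
    have h2 := hz0cop
    rw [mul_comm D]
    exact IsCoprime.add_mul_right_left h2 _
  · have h1 : L.B (f + z - L.q z • e) w0 = G z := by
      simp only [G, map_add, map_sub, map_smul, LinearMap.add_apply, LinearMap.sub_apply,
        LinearMap.smul_apply, smul_eq_mul]
    rw [h1]
    exact hu

end EvenForm

end Pool.Agent.MP4d0966
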