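import Pool.Agent.MP4d0966.R4Char

set_option autoImplicit false

open scoped NumberTheorySymbols

namespace Pool.Agent.MP4d0966.R4

theorem jacobi_eq_one_of_primes {a : ℤ} (d : ℕ) (hd : d ≠ 0)
    (h : ∀ p : ℕ, p.Prime → p ∣ d → J(a | p) = 1) : J(a | d) = 1 := by
  induction d using Nat.recOnMul with
  | zero => exact absurd rfl hd
  | one => exact jacobiSym.one_right a
  | prime p hp => exact h p hp dvd_rfl
  | mul m n hm hn =>
    have hm0 : m ≠ 0 := left_ne_zero_of_mul hd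
    have hn0 : n ≠ 0 := right_ne_zero_of_mul hd
    rw [jacobiSym.mul_right' a hm0 hn0, hm hm0 fun p hp hpm => h p hp (hpm.mul_right n),
      hn hn0 fun p hp hpn => h p hp (hpn.mul_left m), one_mul]

theorem mod_four_of_primes (d : ℕ) (hd : d ≠ 0)
    (h : ∀ p : ℕ, p.Prime → p ∣ d → p % 4 = 1) : d % 4 = 1 := by
  induction d using Nat.recOnMul with
  | zero => exact absurd rfl hd
  | one => rfl
  | prime p hp => exact h p hp dvd_rfl
  | mul m n hm hn =>
    have hm0 : m ≠ 0 := left_ne_zero_of_mul hd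
    have hn0 : n ≠ 0 := right_ne_zero_of_mul hd
    rw [Nat.mul_mod, hm hm0 fun p hp hpm => h p hp (hpm.mul_right n),
      hn hn0 fun p hp hpn => h p hp (hpn.mul_left m)]

theorem jacobi_two {d : ℕ} (h : d % 8 = 1) : J(2 | d) = 1 := by
  have hodd : Odd d := by rw [Nat.odd_iff]; omega
  rw [jacobiSym.at_two hodd]
  have h1 : ((d : ℕ) : ZMod 8) = 1 := by
    have h2 : ((d : ℕ) : ZMod 8) = ((d % 8 : ℕ) : ZMod 8) := by simp
    rw [h2, h]
    rfl
  rw [h1]
  decide

theorem odd_sq_mod {a : ℤ} (h : a % 2 = 1) : ∃ c, a ^ 2 = 8 * c + 1 := by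
  obtain ⟨b, hb⟩ : ∃ b, a = 2 * b + 1 := ⟨a / 2, by omega⟩
  obtain ⟨c, hc⟩ := even_iff_exists_two_mul.mp (Int.even_mul_succ_self b)
  exact ⟨c, by rw [hb]; linear_combination 4 * hc⟩

/-- the reciprocity law for the solutions -/
theorem reciprocity {Q τ D A X y κ f : ℤ} {d : ℕ} (hd4 : d % 4 = 1) (hDf : D = d * f ^ 2)
    (hQτ : D % 2 = 1 → (Q + τ) % 2 = 0) (hκ0 : κ ≠ 0) (hκ : κ ∣ X)
    (h : 4 * X ∣ A ^ 2 + Q * X ^ 2 + 2 * τ * X * y - D * y ^ 2) (hAκ : IsCoprime A κ)
    (hA2 : IsCoprime A 2) : J(κ | d) = 1 := by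
  have hdodd : Odd d := by rw [Nat.odd_iff]; omega
  have hneg : J(-1 | d) = 1 := by
    rw [jacobiSym.at_neg_one hdodd, ZMod.χ₄_nat_one_mod_four hd4]
  obtain ⟨k, m, hm, hkm⟩ := Nat.exists_eq_two_pow_mul_odd (Int.natAbs_ne_zero.mpr hκ0)
  have hmκ : (m : ℤ) ∣ κ := by
    have h1 : m ∣ κ.natAbs := Dvd.intro_left _ hkm.symm
    exact Int.natCast_dvd.mpr h1
  have hm1 : J((m : ℤ) | d) = 1 := by
    rw [← jacobiSym.quadratic_reciprocity_one_mod_four hd4 hm]
    have hAm : A.gcd m = 1 := by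
      rw [← Int.isCoprime_iff_gcd_eq_one]
      exact hAκ.of_isCoprime_of_dvd_right hmκ
    have h1 : J(D * y ^ 2 | m) = J(A ^ 2 | m) := by
      apply jacobiSym.mod_left'
      have h2 : (m : ℤ) ∣ A ^ 2 - D * y ^ 2 := by
        have h3 : (m : ℤ) ∣ X := hmκ.trans hκ
        have h4 : A ^ 2 - D * y ^ 2 = (A ^ 2 + Q * X ^ 2 + 2 * τ * X * y - D * y ^ 2)
            - X * (Q * X + 2 * τ * y) := by ring
        rw [h4]
        exact dvd_sub ((h3.mul_left 4).trans h) (h3.mul_right _)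
      exact (Int.modEq_iff_dvd.mpr h2)
    have h2 : J(A ^ 2 | m) = 1 := jacobiSym.sq_one' hAm
    rw [h2, hDf, jacobiSym.mul_left, jacobiSym.mul_left, jacobiSym.pow_left,
      jacobiSym.pow_left] at h1
    rcases jacobiSym.trichotomy (d : ℤ) m with h3 | h3 | h3
    · rw [h3] at h1
      simp at h1
    · exact h3
    · rw [h3] at h1
      nlinarith [sq_nonneg (J(f | m) * J(y | m))]
  have h2k : J(2 | d) ^ k = 1 := by
    rcases Nat.eq_zero_or_pos k with hk | hk
    · rw [hk, pow_zero]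
    · have h2κ : (2 : ℤ) ∣ κ := by
        have h1 : 2 ∣ κ.natAbs := by
          rw [hkm]
          exact (dvd_pow_self 2 (by omega)).mul_right m
        exact Int.natCast_dvd.mpr h1
      obtain ⟨X0, hX0⟩ := h2κ.trans hκ
      have hAodd : A % 2 = 1 := by
        obtain ⟨u, v, huv⟩ := hA2
        by_contra h1
        obtain ⟨c, hc⟩ : ∃ c, A = 2 * c := ⟨A / 2, by omega⟩
        rw [hc] at huv
        have h3 : 2 * (u * c + v) = 1 := by linear_combination huv
        omega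
      obtain ⟨c, hc⟩ := odd_sq_mod hAodd
      obtain ⟨e, he⟩ := h
      rw [hX0] at he
      -- `D` and `y` are odd
      have hDy : (D * y ^ 2) % 2 = 1 := by
        have h3 : D * y ^ 2 = 2 * (4 * c + 2 * Q * X0 ^ 2 + 2 * τ * X0 * y - 4 * X0 * e) + 1 := by
          linear_combination hc - he
        omega
      have hDo : D % 2 = 1 := by
        by_contra h3
        obtain ⟨c', hc'⟩ : ∃ c', D = 2 * c' := ⟨D / 2, by omega⟩
        have h4 : D * y ^ 2 = 2 * (c' * y ^ 2) := by rw [hc']; ring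
        omega
      have hyo : y % 2 = 1 := by
        by_contra h3
        obtain ⟨c', hc'⟩ : ∃ c', y = 2 * c' := ⟨y / 2, by omega⟩
        have h4 : D * y ^ 2 = 2 * (2 * D * c' ^ 2) := by rw [hc']; ring
        omega
      have hfo : f % 2 = 1 := by
        by_contra h3
        obtain ⟨c', hc'⟩ : ∃ c', f = 2 * c' := ⟨f / 2, by omega⟩
        have h4 : D = 2 * (2 * d * c' ^ 2) := by rw [hDf, hc']; ring
        omega
      obtain ⟨y1, hy1⟩ := odd_sq_mod hyo
      obtain ⟨f1, hf1⟩ := odd_sq_mod hfo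
      obtain ⟨g, hg⟩ : ∃ g, Q + τ = 2 * g := ⟨(Q + τ) / 2, by have := hQτ hDo; omega⟩
      obtain ⟨y2, hy2⟩ : ∃ y2, y = 2 * y2 + 1 := ⟨y / 2, by omega⟩
      obtain ⟨g2, hg2⟩ := even_iff_exists_two_mul.mp (Int.even_mul_succ_self X0)
      have hd8 : d % 8 = 1 := by
        have h3 : (d : ℤ) = 8 * (c + Q * g2 + (g - Q) * X0 + τ * X0 * y2 - X0 * e
            - d * f1 - d * f ^ 2 * y1) + 1 := by
          have h4 : (d : ℤ) * f ^ 2 * y ^ 2 = 8 * c + 1 + 4 * (Q * X0 ^ 2 + τ * X0 * y)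
              - 8 * X0 * e := by
            rw [← hDf]
            linear_combination hc - he
          have h5 : Q * X0 ^ 2 + τ * X0 * y = 2 * (Q * g2 + (g - Q) * X0 + τ * X0 * y2) := by
            rw [hy2]
            linear_combination Q * hg2 + X0 * hg
          rw [h5] at h4
          rw [hy1] at h4
          linear_combination h4 - (d : ℤ) * hf1
        omega
      rw [jacobi_two hd8, one_pow]
  have habs : J((κ.natAbs : ℤ) | d) = 1 := by
    rw [hkm]
    push_cast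
    rw [jacobiSym.mul_left, jacobiSym.pow_left, h2k, hm1, one_mul]
  rcases Int.natAbs_eq κ with h1 | h1
  · rw [h1, habs]
  · rw [h1, ← neg_one_mul, jacobiSym.mul_left, hneg, habs, one_mul]

end Pool.Agent.MP4d0966.R4
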