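import Mathlib

set_option autoImplicit false

namespace Pool.Agent.MP4d0966

/-! Arithmetic lemmas -/

/-- splitting off the part of `μ` supported at the primes of `D` -/
theorem exists_split (D : ℤ) : ∀ (k : ℕ) (μ : ℤ), μ ≠ 0 → μ.natAbs ≤ k →
    ∃ μ1 μ2 : ℤ, μ = μ1 * μ2 ∧ IsCoprime μ2 D ∧ (∀ x : ℤ, IsCoprime x D → IsCoprime x μ1) := by
  intro k
  induction k with
  | zero =>
    intro μ hμ hk
    exact absurd (Int.natAbs_eq_zero.mp (Nat.le_zero.mp hk)) hμ
  | succ k ih =>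
    intro μ hμ hk
    by_cases hc : IsCoprime μ D
    · exact ⟨1, μ, (one_mul μ).symm, hc, fun x _ => isCoprime_one_right⟩
    · have hg1 : Int.gcd μ D ≠ 1 := fun h => hc (Int.isCoprime_iff_gcd_eq_one.mpr h)
      have hg0 : Int.gcd μ D ≠ 0 := by
        intro h
        exact hμ (Int.gcd_eq_zero_iff.mp h).1
      obtain ⟨μ', hμ'⟩ := Int.gcd_dvd_left μ D
      have hμ'0 : μ' ≠ 0 := by
        rintro rfl
        exact hμ (by rw [hμ', mul_zero])
      have hlt : μ'.natAbs < μ.natAbs := by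
        have h1 : μ.natAbs = Int.gcd μ D * μ'.natAbs := by
          conv_lhs => rw [hμ', Int.natAbs_mul, Int.natAbs_natCast]
        have h2 : 0 < μ'.natAbs := Int.natAbs_pos.mpr hμ'0
        have h3 : 2 ≤ Int.gcd μ D := by omega
        rw [h1]
        nlinarith
      obtain ⟨μ1, μ2, h1, h2, h3⟩ := ih μ' hμ'0 (by omega)
      refine ⟨Int.gcd μ D * μ1, μ2, ?_, h2, ?_⟩
      · rw [mul_assoc, ← h1, ← hμ']
      · intro x hx
        refine IsCoprime.mul_right ?_ (h3 x hx)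
        exact hx.of_isCoprime_of_dvd_right (Int.gcd_dvd_right μ D)

/-- Chinese remainder theorem in an abelian group -/
theorem exists_crt {G : Type*} [AddCommGroup G] (S : Finset ℕ) (hS : ∀ p ∈ S, p.Prime)
    (z : ℕ → G) : ∃ z0 : G, ∀ p ∈ S, ∃ u : G, z0 = z p + (p : ℤ) • u := by
  induction S using Finset.induction_on with
  | empty => exact ⟨0, by simp⟩
  | insert p S hp ih =>
    obtain ⟨z1, hz1⟩ := ih (fun q hq => hS q (Finset.mem_insert_of_mem hq))
    have hcop : IsCoprime ((∏ q ∈ S, q : ℕ) : ℤ) (p : ℤ) := by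
      rw [Nat.isCoprime_iff_coprime]
      apply Nat.Coprime.prod_left
      intro q hq
      rw [Nat.coprime_primes (hS q (Finset.mem_insert_of_mem hq)) (hS p (Finset.mem_insert_self _ _))]
      rintro rfl
      exact hp hq
    obtain ⟨α, β, hαβ⟩ := hcop
    refine ⟨(α * ((∏ q ∈ S, q : ℕ) : ℤ)) • z p + (β * p) • z1, ?_⟩
    intro q hq
    rcases Finset.mem_insert.mp hq with rfl | hq
    · refine ⟨β • (z1 - z q), ?_⟩
      have h1 : α * ((∏ q ∈ S, q : ℕ) : ℤ) = 1 - β * q := by linarith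
      rw [h1]
      module
    · obtain ⟨u, hu⟩ := hz1 q hq
      have hd : (q : ℤ) ∣ ((∏ q ∈ S, q : ℕ) : ℤ) := by
        exact_mod_cast Finset.dvd_prod_of_mem _ hq
      obtain ⟨c, hc⟩ := hd
      refine ⟨u + (α * c) • (z p - z1), ?_⟩
      have h1 : β * (p : ℤ) = 1 - α * (q * c) := by rw [← hc]; linarith
      rw [hc, h1, hu]
      module

theorem isCoprime_of_primes {x y : ℤ} (hy : y ≠ 0)
    (h : ∀ p : ℕ, p.Prime → (p : ℤ) ∣ y → ¬ (p : ℤ) ∣ x) : IsCoprime x y := by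
  apply isCoprime_of_prime_dvd
  · rintro ⟨_, h2⟩
    exact hy h2
  · intro z hz hzx hzy
    have hp : z.natAbs.Prime := Int.prime_iff_natAbs_prime.mp hz
    exact h _ hp (Int.natAbs_dvd.mpr hzy) (Int.natAbs_dvd.mpr hzx)

/-- `α s² + β t² = γ` is solvable modulo powers of an odd prime not dividing `α β γ` -/
theorem quad_prime_pow {p : ℕ} (hp : p.Prime) (hp2 : p ≠ 2) {α β γ : ℤ}
    (hα : ¬ (p : ℤ) ∣ α) (hβ : ¬ (p : ℤ) ∣ β) (hγ : ¬ (p : ℤ) ∣ γ) (v : ℕ) :
    ∃ s t : ℤ, ((p : ℤ) ^ (v + 1)) ∣ α * s ^ 2 + β * t ^ 2 - γ := by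
  have : Fact p.Prime := ⟨hp⟩
  have hpz : Prime (p : ℤ) := Nat.prime_iff_prime_int.mp hp
  induction v with
  | zero =>
    have hα' : (α : ZMod p) ≠ 0 := fun h => hα ((ZMod.intCast_zmod_eq_zero_iff_dvd α p).mp h)
    have hβ' : (β : ZMod p) ≠ 0 := fun h => hβ ((ZMod.intCast_zmod_eq_zero_iff_dvd β p).mp h)
    obtain ⟨a, b, hab⟩ := FiniteField.exists_root_sum_quadratic
      (f := Polynomial.C (α : ZMod p) * Polynomial.X ^ 2 + Polynomial.C 0 * Polynomial.X
        + Polynomial.C (-(γ : ZMod p)))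
      (g := Polynomial.C (β : ZMod p) * Polynomial.X ^ 2 + Polynomial.C 0 * Polynomial.X
        + Polynomial.C 0)
      (Polynomial.degree_quadratic hα') (Polynomial.degree_quadratic hβ')
      (by rw [ZMod.card]; exact (Nat.Prime.eq_two_or_odd hp).resolve_left hp2)
    refine ⟨(a.val : ℤ), (b.val : ℤ), ?_⟩
    rw [zero_add, pow_one, ← ZMod.intCast_zmod_eq_zero_iff_dvd]
    push_cast
    rw [ZMod.natCast_zmod_val, ZMod.natCast_zmod_val]
    simp only [Polynomial.eval_add, Polynomial.eval_mul, Polynomial.eval_C, Polynomial.eval_pow,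
      Polynomial.eval_X] at hab
    linear_combination hab
  | succ v ih =>
    obtain ⟨s, t, c, hc⟩ := ih
    have hnot : ¬ ((p : ℤ) ∣ s ∧ (p : ℤ) ∣ t) := by
      rintro ⟨⟨s', hs'⟩, ⟨t', ht'⟩⟩
      apply hγ
      have : γ = (p : ℤ) * (α * (p * s' ^ 2) + β * (p * t' ^ 2) - p ^ v * c) := by
        have h1 : γ = α * s ^ 2 + β * t ^ 2 - (p : ℤ) ^ (v + 1) * c := by linarith
        rw [h1, hs', ht']
        ring
      rw [this]
      exact dvd_mul_right _ _
    have h2 : ¬ (p : ℤ) ∣ 2 := by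
      intro h
      have h1 : p ∣ 2 := by exact_mod_cast h
      exact hp2 ((Nat.prime_dvd_prime_iff_eq hp Nat.prime_two).mp h1)
    have key : ∀ (A x : ℤ), ¬ (p : ℤ) ∣ A → ¬ (p : ℤ) ∣ x →
        ∃ k : ℤ, (p : ℤ) ∣ c + 2 * A * x * k := by
      intro A x hA hx
      have hcop : IsCoprime (p : ℤ) (2 * A * x) := by
        rw [Prime.coprime_iff_not_dvd hpz]
        intro h
        rcases hpz.dvd_or_dvd h with h | h
        · rcases hpz.dvd_or_dvd h with h | h
          · exact h2 h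
          · exact hA h
        · exact hx h
      obtain ⟨u, w, huw⟩ := hcop
      refine ⟨-c * w, ⟨u * c, ?_⟩⟩
      linear_combination (-c) * huw
    rcases not_and_or.mp hnot with hs | ht
    · obtain ⟨k, k', hk⟩ := key α s hα hs
      refine ⟨s + (p : ℤ) ^ (v + 1) * k, t, k' + α * p ^ v * k ^ 2, ?_⟩
      have : α * (s + (p : ℤ) ^ (v + 1) * k) ^ 2 + β * t ^ 2 - γ
          = (α * s ^ 2 + β * t ^ 2 - γ) + (p : ℤ) ^ (v + 1) * (2 * α * s * k)
            + α * (p : ℤ) ^ (v + 1) * p ^ (v + 1) * k ^ 2 := by ring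
      rw [this, hc]
      linear_combination (p : ℤ) ^ (v + 1) * hk
    · obtain ⟨k, k', hk⟩ := key β t hβ ht
      refine ⟨s, t + (p : ℤ) ^ (v + 1) * k, k' + β * p ^ v * k ^ 2, ?_⟩
      have : α * s ^ 2 + β * (t + (p : ℤ) ^ (v + 1) * k) ^ 2 - γ
          = (α * s ^ 2 + β * t ^ 2 - γ) + (p : ℤ) ^ (v + 1) * (2 * β * t * k)
            + β * (p : ℤ) ^ (v + 1) * p ^ (v + 1) * k ^ 2 := by ring
      rw [this, hc]
      linear_combination (p : ℤ) ^ (v + 1) * hk

/-- `α s² + β t² = γ` is solvable modulo every `n` prime to `2 α β γ` -/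
theorem quad_mod (α β γ : ℤ) (n : ℕ) : n ≠ 0 → IsCoprime (n : ℤ) (2 * α * β * γ) →
    ∃ s t : ℤ, (n : ℤ) ∣ α * s ^ 2 + β * t ^ 2 - γ := by
  induction n using Nat.recOnPosPrimePosCoprime with
  | prime_pow p k hp hk =>
    intro _ hcop
    obtain ⟨k, rfl⟩ : ∃ j, k = j + 1 := ⟨k - 1, by omega⟩
    have hpz : Prime (p : ℤ) := Nat.prime_iff_prime_int.mp hp
    have h1 : ¬ (p : ℤ) ∣ 2 * α * β * γ := by
      intro h
      have h2 : IsCoprime (p : ℤ) (2 * α * β * γ) := by
        refine hcop.of_isCoprime_of_dvd_left ?_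
        push_cast
        exact dvd_pow_self _ (by omega)
      exact hpz.not_isUnit (h2.isUnit_of_dvd' dvd_rfl h)
    have hp2 : p ≠ 2 := by
      rintro rfl
      exact h1 ⟨α * β * γ, by push_cast; ring⟩
    obtain ⟨s, t, h⟩ := quad_prime_pow hp hp2 (α := α) (β := β) (γ := γ)
      (fun h => h1 (by rw [mul_assoc, mul_assoc]; exact Dvd.dvd.mul_left (h.mul_right _) _))
      (fun h => h1 ((h.mul_left _).mul_right _)) (fun h => h1 (h.mul_left _)) k
    exact ⟨s, t, by push_cast; exact h⟩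
  | zero => exact fun h => absurd rfl h
  | one => exact fun _ _ => ⟨0, 0, by simp⟩
  | coprime a b ha hb hab iha ihb =>
    intro _ hcop
    have hca : IsCoprime (a : ℤ) (2 * α * β * γ) := by
      refine hcop.of_isCoprime_of_dvd_left ?_
      push_cast
      exact dvd_mul_right _ _
    have hcb : IsCoprime (b : ℤ) (2 * α * β * γ) := by
      refine hcop.of_isCoprime_of_dvd_left ?_
      push_cast
      exact dvd_mul_left _ _
    obtain ⟨s1, t1, c1, h1⟩ := iha (by omega) hca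
    obtain ⟨s2, t2, c2, h2⟩ := ihb (by omega) hcb
    have hab' : IsCoprime (a : ℤ) (b : ℤ) := Nat.isCoprime_iff_coprime.mpr hab
    obtain ⟨u, v, huv⟩ := hab'
    refine ⟨s2 * (u * a) + s1 * (v * b), t2 * (u * a) + t1 * (v * b), ?_⟩
    push_cast
    apply (Nat.isCoprime_iff_coprime.mpr hab).mul_dvd
    · have e1 : s2 * (u * a) + s1 * (v * b) = s1 + a * (u * (s2 - s1)) := by
        linear_combination s1 * huv
      have e2 : t2 * (u * a) + t1 * (v * b) = t1 + a * (u * (t2 - t1)) := by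
        linear_combination t1 * huv
      rw [e1, e2]
      refine ⟨c1 + α * (2 * s1 * (u * (s2 - s1)) + a * (u * (s2 - s1)) ^ 2)
        + β * (2 * t1 * (u * (t2 - t1)) + a * (u * (t2 - t1)) ^ 2), ?_⟩
      linear_combination h1
    · have e1 : s2 * (u * a) + s1 * (v * b) = s2 + b * (v * (s1 - s2)) := by
        linear_combination s2 * huv
      have e2 : t2 * (u * a) + t1 * (v * b) = t2 + b * (v * (t1 - t2)) := by
        linear_combination t2 * huv
      rw [e1, e2]
      refine ⟨c2 + α * (2 * s2 * (v * (s1 - s2)) + b * (v * (s1 - s2)) ^ 2)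
        + β * (2 * t2 * (v * (t1 - t2)) + b * (v * (t1 - t2)) ^ 2), ?_⟩
      linear_combination h2

end Pool.Agent.MP4d0966
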