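import Pool.Agent.MP4d0966.Main

set_option autoImplicit false

namespace Pool.Agent.MP4d0966

namespace EvenForm

variable {N : Type*} [AddCommGroup N] (L : EvenForm N)

theorem solvable_of_two {l w0 y1 y2 : N} (h1l : L.B y1 l = 0) (h1w : L.B y1 w0 = 0)
    (h2l : L.B y2 l = 0) (h2w : L.B y2 w0 = 0) (h12 : L.B y1 y2 = 0) (h1 : L.q y1 ≠ 0)
    (h2 : L.q y2 ≠ 0) : L.Solvable l w0 := by
  refine ⟨2 * L.q y1 * L.q y2, mul_ne_zero (mul_ne_zero two_ne_zero h1) h2, ?_⟩
  intro n hn hcop h hh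
  obtain ⟨k, hk⟩ := hh
  have hnh : IsCoprime n (h ^ 2) := by
    apply IsCoprime.pow_right
    exact ⟨-k, 2, by linear_combination hk⟩
  have hcop2 : IsCoprime (n.natAbs : ℤ) (2 * L.q y1 * L.q y2 * (-(h ^ 2))) := by
    have h3 : IsCoprime n (2 * L.q y1 * L.q y2 * (-(h ^ 2))) :=
      hcop.mul_right hnh.neg_right
    rcases Int.natAbs_eq n with h4 | h4
    · rw [← h4]; exact h3
    · rw [h4] at h3
      exact (IsCoprime.neg_left_iff _ _).mp h3
  obtain ⟨s, t, hst⟩ := quad_mod (L.q y1) (L.q y2) (-(h ^ 2)) n.natAbs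
    (Int.natAbs_ne_zero.mpr hn) hcop2
  refine ⟨s • y1 + t • y2, ?_, ?_, ?_⟩
  · simp only [map_add, map_smul, LinearMap.add_apply, LinearMap.smul_apply, smul_eq_mul, h1l, h2l]
    ring
  · simp only [map_add, map_smul, LinearMap.add_apply, LinearMap.smul_apply, smul_eq_mul, h1w, h2w]
    ring
  · have h3 : h ^ 2 + L.q (s • y1 + t • y2) = L.q y1 * s ^ 2 + L.q y2 * t ^ 2 - -(h ^ 2) := by
      simp only [q_add, q_smul, map_smul, LinearMap.smul_apply, smul_eq_mul, h12]
      ring
    rw [h3]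
    exact Int.natAbs_dvd.mp hst

/-- a totally isotropic plane -/
theorem solvable_of_plane (hnd : ∀ x, (∀ y, L.B x y = 0) → x = 0) {l x y : N}
    (hl : L.q l = 1) (hxy : LinearIndependent ℤ ![x, y]) (hx : L.q x = 0) (hy : L.q y = 0)
    (hB : L.B x y = 0) :
    ∃ w0, w0 ≠ 0 ∧ L.q w0 = 0 ∧ L.B l w0 = 0 ∧ L.Solvable l w0 := by
  have hli : ∀ s t : ℤ, s • x + t • y = 0 → s = 0 ∧ t = 0 :=
    LinearIndependent.pair_iff.mp hxy
  have hll : L.B l l = 2 := by rw [L.hq, hl, mul_one]
  have hBx : L.B x x = 0 := by rw [L.hq, hx, mul_zero]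
  have hBy : L.B y y = 0 := by rw [L.hq, hy, mul_zero]
  have hByx : L.B y x = 0 := by rw [L.symm, hB]
  have hlx := L.symm l x
  have hly := L.symm l y
  by_cases hc : L.B x l = 0 ∧ L.B y l = 0
  · obtain ⟨hxl, hyl⟩ := hc
    have hw0 : x ≠ 0 := by
      intro h
      have h1 := hli 1 0 (by rw [h]; simp)
      exact one_ne_zero h1.1
    refine ⟨x, hw0, hx, by rw [hlx, hxl], ?_⟩
    obtain ⟨u0, hu0l, hι⟩ := L.exists_u0 hnd hl hw0 (by rw [hlx, hxl])
    have h1 : ∃ z, L.B z (L.B u0 x • y - L.B u0 y • x) ≠ 0 := by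
      by_contra hcon
      push Not at hcon
      have h2 := hnd (L.B u0 x • y - L.B u0 y • x) (fun z => by rw [L.symm]; exact hcon z)
      have h3 := hli (- L.B u0 y) (L.B u0 x) (by rw [neg_smul, neg_add_eq_sub]; exact h2)
      exact hι h3.2
    obtain ⟨z, hz⟩ := h1
    set y' := (2 * L.B u0 x) • z - (2 * L.B z x) • u0 - (L.B u0 x * L.B z l) • l with hy'
    have hy'l : L.B y' l = 0 := by
      simp only [hy', map_sub, map_smul, LinearMap.sub_apply, LinearMap.smul_apply, smul_eq_mul,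
        hu0l, hll]
      ring
    have hy'x : L.B y' x = 0 := by
      simp only [hy', map_sub, map_smul, LinearMap.sub_apply, LinearMap.smul_apply, smul_eq_mul,
        hlx, hxl]
      ring
    have hy'y : L.B y' y ≠ 0 := by
      have h2 : L.B y' y = 2 * L.B z (L.B u0 x • y - L.B u0 y • x) := by
        simp only [hy', map_sub, map_smul, LinearMap.sub_apply, LinearMap.smul_apply, smul_eq_mul,
          hly, hyl]
        ring
      rw [h2]
      exact mul_ne_zero two_ne_zero hz
    refine ⟨L.B y' y, hy'y, ?_⟩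
    intro n _ hcop h _
    obtain ⟨α, β, hαβ⟩ := hcop
    refine ⟨y' + (-(h ^ 2 + L.q y') * β) • y, ?_, ?_, ?_⟩
    · simp only [map_add, map_smul, LinearMap.add_apply, LinearMap.smul_apply, smul_eq_mul, hy'l,
        hyl]
      ring
    · simp only [map_add, map_smul, LinearMap.add_apply, LinearMap.smul_apply, smul_eq_mul, hy'x,
        hByx]
      ring
    · rw [q_add, q_smul, hy, map_smul, smul_eq_mul]
      refine ⟨α * (h ^ 2 + L.q y'), ?_⟩
      linear_combination (-(h ^ 2 + L.q y')) * hαβ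
  · have hw0 : L.B y l • x - L.B x l • y ≠ 0 := by
      intro h
      have h1 := hli (L.B y l) (- L.B x l) (by rw [neg_smul, ← sub_eq_add_neg]; exact h)
      exact hc ⟨neg_eq_zero.mp h1.2, h1.1⟩
    refine ⟨L.B y l • x - L.B x l • y, hw0, ?_, ?_, ?_⟩
    · simp only [q_sub, q_smul, map_smul, LinearMap.smul_apply, smul_eq_mul, hx, hy, hB]
      ring
    · simp only [map_sub, map_smul, smul_eq_mul, hlx, hly]
      ring
    · have key : ∀ z, L.q z = 0 → L.B z x = 0 → L.B z y = 0 → L.B z l ≠ 0 →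
          L.Solvable l (L.B y l • x - L.B x l • y) := by
        intro z hz hzx hzy hzl
        refine ⟨L.B z l, hzl, ?_⟩
        intro n _ hcop h _
        obtain ⟨α, β, hαβ⟩ := hcop
        refine ⟨(h * β) • ((2 : ℤ) • z - L.B z l • l), ?_, ?_, ?_⟩
        · simp only [map_sub, map_smul, LinearMap.sub_apply, LinearMap.smul_apply, smul_eq_mul,
            hll]
          ring
        · simp only [map_sub, map_smul, LinearMap.sub_apply, LinearMap.smul_apply, smul_eq_mul,
            hzx, hzy, hlx, hly]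
          ring
        · simp only [q_sub, q_smul, map_smul, LinearMap.smul_apply, smul_eq_mul, hz, hl]
          refine ⟨h ^ 2 * α * (1 + β * L.B z l), ?_⟩
          linear_combination (-(h ^ 2)) * (1 + β * L.B z l) * hαβ
      rcases not_and_or.mp hc with h | h
      · exact key x hx hBx hB h
      · exact key y hy hByx hBy h

theorem finrank_le_card [Module.Free ℤ N] [Module.Finite ℤ N] (s : Finset N) (c : ℤ) (hc : c ≠ 0)
    (h : ∀ x : N, c • x ∈ Submodule.span ℤ (s : Set N)) : Module.finrank ℤ N ≤ s.card := by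
  have h1 : Module.finrank ℤ N ≤ Module.finrank ℤ (Submodule.span ℤ (s : Set N)) := by
    apply LinearMap.finrank_le_finrank_of_injective
      (f := (c • (LinearMap.id : N →ₗ[ℤ] N)).codRestrict (Submodule.span ℤ (s : Set N))
        (fun x => by simpa using h x))
    intro x y hxy
    have h2 : c • x = c • y := by simpa using congrArg Subtype.val hxy
    exact smul_right_injective N hc h2
  exact h1.trans (finrank_span_finset_le_card s)

theorem exists_q_ne [Module.Free ℤ N] [Module.Finite ℤ N]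
    (hnd : ∀ x, (∀ y, L.B x y = 0) → x = 0) (π : N →ₗ[ℤ] N) (S : Finset N) (c : ℤ) (hc : c ≠ 0)
    (h1 : ∀ x, c • x - π x ∈ Submodule.span ℤ (S : Set N)) (h2 : ∀ x, ∀ v ∈ S, L.B (π x) v = 0)
    (hrank : S.card < Module.finrank ℤ N) : ∃ x, L.q (π x) ≠ 0 := by
  by_contra hcon
  push Not at hcon
  have h3 : ∀ x y, L.B (π x) (π y) = 0 := by
    intro x y
    have h4 := L.q_add (π x) (π y)
    rw [← map_add, hcon, hcon, hcon] at h4
    linarith
  have h4 : ∀ x, ∀ s ∈ Submodule.span ℤ (S : Set N), L.B (π x) s = 0 := by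
    intro x s hs
    have h5 : Submodule.span ℤ (S : Set N) ≤ LinearMap.ker (L.B (π x)) := by
      rw [Submodule.span_le]
      intro v hv
      exact h2 x v hv
    exact h5 hs
  have h5 : ∀ x, π x = 0 := by
    intro x
    apply hnd
    intro y
    have h6 := h4 x _ (h1 y)
    rw [map_sub, h3, sub_zero, map_smul, smul_eq_mul] at h6
    exact (mul_eq_zero.mp h6).resolve_left hc
  have h6 : ∀ x : N, c • x ∈ Submodule.span ℤ (S : Set N) := by
    intro x
    have h7 := h1 x
    rw [h5, sub_zero] at h7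
    exact h7
  exact absurd (finrank_le_card S c hc h6) (not_le.mpr hrank)

theorem solvable_of_rank [Module.Free ℤ N] [Module.Finite ℤ N]
    (hnd : ∀ x, (∀ y, L.B x y = 0) → x = 0) {l w0 : N}
    (hl : L.q l = 1) (hw0 : w0 ≠ 0) (hw : L.q w0 = 0) (hlw : L.B l w0 = 0)
    (hrank : 5 ≤ Module.finrank ℤ N) : L.Solvable l w0 := by
  classical
  obtain ⟨u0, hu0l, hι⟩ := L.exists_u0 hnd hl hw0 hlw
  have hll : L.B l l = 2 := by rw [L.hq, hl, mul_one]
  have hww : L.B w0 w0 = 0 := by rw [L.hq, hw, mul_zero]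
  have hwl : L.B w0 l = 0 := by rw [L.symm, hlw]
  have hlu : L.B l u0 = 0 := by rw [L.symm, hu0l]
  have hwu : L.B w0 u0 = L.B u0 w0 := L.symm _ _
  set ι := L.B u0 w0 with hιdef
  let π : N →ₗ[ℤ] N := (2 * ι ^ 2) • LinearMap.id - (ι ^ 2) • (L.B l).smulRight l
    - (2 * ι) • (L.B u0).smulRight w0 + (2 * L.B u0 u0) • (L.B w0).smulRight w0
    - (2 * ι) • (L.B w0).smulRight u0
  have hπ : ∀ x, π x = (2 * ι ^ 2) • x - (ι ^ 2 * L.B l x) • l - (2 * ι * L.B u0 x) • w0
      + (2 * L.B u0 u0 * L.B w0 x) • w0 - (2 * ι * L.B w0 x) • u0 := by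
    intro x
    simp only [π, LinearMap.sub_apply, LinearMap.add_apply, LinearMap.smul_apply,
      LinearMap.smulRight_apply, LinearMap.id_apply, smul_smul]
  have hπl : ∀ x, L.B (π x) l = 0 := by
    intro x
    rw [hπ]
    simp only [map_sub, map_add, map_smul, LinearMap.sub_apply, LinearMap.add_apply,
      LinearMap.smul_apply, smul_eq_mul, hll, hwl, hu0l, L.symm x l]
    ring
  have hπw : ∀ x, L.B (π x) w0 = 0 := by
    intro x
    rw [hπ]
    simp only [map_sub, map_add, map_smul, LinearMap.sub_apply, LinearMap.add_apply,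
      LinearMap.smul_apply, smul_eq_mul, hlw, hww, ← hιdef, L.symm x w0]
    ring
  have hπu : ∀ x, L.B (π x) u0 = 0 := by
    intro x
    rw [hπ]
    simp only [map_sub, map_add, map_smul, LinearMap.sub_apply, LinearMap.add_apply,
      LinearMap.smul_apply, smul_eq_mul, hlu, hwu, L.symm x u0]
    ring
  have hspan1 : ∀ x, (2 * ι ^ 2) • x - π x ∈ Submodule.span ℤ (({l, w0, u0} : Finset N) : Set N) := by
    intro x
    have h1 : (2 * ι ^ 2) • x - π x = (ι ^ 2 * L.B l x) • l
        + (2 * ι * L.B u0 x - 2 * L.B u0 u0 * L.B w0 x) • w0 + (2 * ι * L.B w0 x) • u0 := by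
      rw [hπ]
      module
    rw [h1]
    refine Submodule.add_mem _ (Submodule.add_mem _ ?_ ?_) ?_ <;>
      exact Submodule.smul_mem _ _ (Submodule.subset_span (by simp))
  obtain ⟨x, hx⟩ := L.exists_q_ne hnd π {l, w0, u0} (2 * ι ^ 2)
    (mul_ne_zero two_ne_zero (pow_ne_zero _ hι)) hspan1
    (by
      intro x v hv
      simp only [Finset.mem_insert, Finset.mem_singleton] at hv
      rcases hv with rfl | rfl | rfl
      · exact hπl x
      · exact hπw x
      · exact hπu x)
    (lt_of_le_of_lt Finset.card_le_three (by omega))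
  set y1 := π x with hy1
  have hy1l : L.B y1 l = 0 := hπl x
  have hy1w : L.B y1 w0 = 0 := hπw x
  have hy1u : L.B y1 u0 = 0 := hπu x
  have hy11 : L.B y1 y1 ≠ 0 := by rw [L.hq]; exact mul_ne_zero two_ne_zero hx
  let π2 : N →ₗ[ℤ] N := (L.B y1 y1) • π - ((L.B y1).comp π).smulRight y1
  have hπ2 : ∀ z, π2 z = L.B y1 y1 • π z - L.B y1 (π z) • y1 := by
    intro z
    simp only [π2, LinearMap.sub_apply, LinearMap.smul_apply, LinearMap.smulRight_apply,
      LinearMap.comp_apply]
  have hπ2l : ∀ z, L.B (π2 z) l = 0 := by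
    intro z
    rw [hπ2]
    simp only [map_sub, map_smul, LinearMap.sub_apply, LinearMap.smul_apply, smul_eq_mul, hπl,
      hy1l]
    ring
  have hπ2w : ∀ z, L.B (π2 z) w0 = 0 := by
    intro z
    rw [hπ2]
    simp only [map_sub, map_smul, LinearMap.sub_apply, LinearMap.smul_apply, smul_eq_mul, hπw,
      hy1w]
    ring
  have hπ2u : ∀ z, L.B (π2 z) u0 = 0 := by
    intro z
    rw [hπ2]
    simp only [map_sub, map_smul, LinearMap.sub_apply, LinearMap.smul_apply, smul_eq_mul, hπu,
      hy1u]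
    ring
  have hπ2y : ∀ z, L.B (π2 z) y1 = 0 := by
    intro z
    rw [hπ2]
    simp only [map_sub, map_smul, LinearMap.sub_apply, LinearMap.smul_apply, smul_eq_mul,
      L.symm (π z) y1]
    ring
  have hspan2 : ∀ z, (L.B y1 y1 * (2 * ι ^ 2)) • z - π2 z ∈
      Submodule.span ℤ (({l, w0, u0, y1} : Finset N) : Set N) := by
    intro z
    have h1 : (L.B y1 y1 * (2 * ι ^ 2)) • z - π2 z
        = L.B y1 y1 • ((2 * ι ^ 2) • z - π z) + L.B y1 (π z) • y1 := by
      rw [hπ2]
      module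
    rw [h1]
    refine Submodule.add_mem _ (Submodule.smul_mem _ _ ?_)
      (Submodule.smul_mem _ _ (Submodule.subset_span (by simp)))
    refine Submodule.span_mono ?_ (hspan1 z)
    intro v hv
    simp only [Finset.coe_insert, Finset.coe_singleton, Set.mem_insert_iff,
      Set.mem_singleton_iff] at hv ⊢
    tauto
  obtain ⟨z, hz⟩ := L.exists_q_ne hnd π2 {l, w0, u0, y1} (L.B y1 y1 * (2 * ι ^ 2))
    (mul_ne_zero hy11 (mul_ne_zero two_ne_zero (pow_ne_zero _ hι))) hspan2
    (by
      intro x v hv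
      simp only [Finset.mem_insert, Finset.mem_singleton] at hv
      rcases hv with rfl | rfl | rfl | rfl
      · exact hπ2l x
      · exact hπ2w x
      · exact hπ2u x
      · exact hπ2y x)
    (lt_of_le_of_lt Finset.card_le_four (by omega))
  exact L.solvable_of_two hy1l hy1w (hπ2l z) (hπ2w z) (by rw [L.symm]; exact hπ2y z) hx hz

end EvenForm

end Pool.Agent.MP4d0966
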