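import Pool.Agent.MP4d0966.FMArith

/-!
# Explicit vectors in lattices `U + ⟨d⟩ + ⟨-c⟩`
-/

set_option autoImplicit false

namespace Pool.Agent.MP4d0966.FM

namespace D14

/-- The first vector of the second `A_2`. -/
def l1 (T : ℤ) : Fin 4 → ℤ :=
  ![18 + 168 * T, 79 + 1680 * T + 8400 * T ^ 2, 7 + 60 * T, 3 + 30 * T]

/-- The second vector of the second `A_2`. -/
def l2 (T : ℤ) : Fin 4 → ℤ :=
  ![107 + 868 * T, 494 + 9380 * T + 43400 * T ^ 2, 39 + 310 * T, 18 + 155 * T]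

/-- A linear form vanishing on the second `A_2`. -/
def linJ (T : ℤ) (v : Fin 4 → ℤ) : ℤ :=
  v 0 * (101 + 1945 * T + 9100 * T ^ 2) + v 1 * (22 + 182 * T)
    + v 2 * (113 + 910 * T) - 7 * (8 * T + 1) * (207 + 1820 * T) * v 3

/-- Another linear form vanishing on the second `A_2`. -/
def linD (T : ℤ) (v : Fin 4 → ℤ) : ℤ :=
  -(v 0 * (50 * T + 5) + v 1 + 5 * v 2 - 4 * (140 * T + 17) * v 3)

variable {k T : ℤ}

theorem prod_l1_l1 (hT : k ^ 2 = 8 * T + 1) : prod 14 (392 * k ^ 2) (l1 T) (l1 T) = 2 := by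
  simp only [prod, l1, hT, Matrix.cons_val_zero, Matrix.cons_val_one, Matrix.cons_val]
  ring

theorem prod_l2_l2 (hT : k ^ 2 = 8 * T + 1) : prod 14 (392 * k ^ 2) (l2 T) (l2 T) = 2 := by
  simp only [prod, l2, hT, Matrix.cons_val_zero, Matrix.cons_val_one, Matrix.cons_val]
  ring

theorem prod_l1_l2 (hT : k ^ 2 = 8 * T + 1) : prod 14 (392 * k ^ 2) (l1 T) (l2 T) = -1 := by
  simp only [prod, l1, l2, hT, Matrix.cons_val_zero, Matrix.cons_val_one, Matrix.cons_val]
  ring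

/-- `3 (v, v)` in terms of `(v, l1)`, `(v, l2)` and two further linear forms. -/
theorem three_mul_prod (hT : k ^ 2 = 8 * T + 1) (v : Fin 4 → ℤ) :
    3 * prod 14 (392 * k ^ 2) v v = 2 * (prod 14 (392 * k ^ 2) v (l1 T) ^ 2
      + prod 14 (392 * k ^ 2) v (l1 T) * prod 14 (392 * k ^ 2) v (l2 T)
      + prod 14 (392 * k ^ 2) v (l2 T) ^ 2) - 56 * linJ T v ^ 2
      - 294 * k ^ 2 * linD T v ^ 2 := by
  simp only [prod, l1, l2, linJ, linD, hT, Matrix.cons_val_zero, Matrix.cons_val_one,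
    Matrix.cons_val]
  ring

/-- `3 v` in terms of the same linear forms. -/
theorem three_mul_vec (hT : k ^ 2 = 8 * T + 1) (v : Fin 4 → ℤ) (i : Fin 4) :
    3 * v i = (2 * prod 14 (392 * k ^ 2) v (l1 T) + prod 14 (392 * k ^ 2) v (l2 T)) * l1 T i
      + (prod 14 (392 * k ^ 2) v (l1 T) + 2 * prod 14 (392 * k ^ 2) v (l2 T)) * l2 T i
      - 1 * linJ T v * ![1232 + 10192 * T, 5656 + 108920 * T + 509600 * T ^ 2, 452 + 3640 * T,
          207 + 1820 * T] i
      + 3 * linD T v * ![98 * (8 * T + 1), 98 * (8 * T + 1) * (50 * T + 5), 35 * (8 * T + 1),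
          140 * T + 17] i := by
  fin_cases i <;>
  · simp only [prod, l1, l2, linJ, linD, hT, Matrix.cons_val_zero, Matrix.cons_val_one,
      Matrix.cons_val, Fin.zero_eta, Fin.mk_one, Fin.reduceFinMk]
    ring

theorem eq_zero (hT : k ^ 2 = 8 * T + 1) (v : Fin 4 → ℤ) (h1 : prod 14 (392 * k ^ 2) v (l1 T) = 0)
    (h2 : prod 14 (392 * k ^ 2) v (l2 T) = 0) (h3 : linJ T v = 0) (h4 : linD T v = 0) :
    v = 0 := by
  ext i
  have h := three_mul_vec hT v i
  rw [h1, h2, h3, h4] at h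
  show v i = 0
  linarith

/-- The orthogonal complement of the second `A_2` is negative definite without short vectors. -/
theorem prod_lt (hT : k ^ 2 = 8 * T + 1) (v : Fin 4 → ℤ) (h1 : prod 14 (392 * k ^ 2) v (l1 T) = 0)
    (h2 : prod 14 (392 * k ^ 2) v (l2 T) = 0) (hv : v ≠ 0) : prod 14 (392 * k ^ 2) v v < -6 := by
  have h := three_mul_prod hT v
  rw [h1, h2] at h
  have hk : 1 ≤ k ^ 2 := by
    by_contra hcon
    have h5 : k ^ 2 = 0 := le_antisymm (by omega) (sq_nonneg k)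
    omega
  by_cases h3 : linJ T v = 0
  · have h4 : linD T v ≠ 0 := fun h4 => hv (eq_zero hT v h1 h2 h3 h4)
    have h5 : 1 ≤ linD T v ^ 2 := by
      have := sq_pos_of_ne_zero h4
      omega
    nlinarith
  · have h5 : 1 ≤ linJ T v ^ 2 := by
      have := sq_pos_of_ne_zero h3
      omega
    have h6 : 0 ≤ k ^ 2 * linD T v ^ 2 := by positivity
    nlinarith

/-- There is no isotropic vector `v` with `(v, l1) = 1`. -/
theorem no_gs (hT : k ^ 2 = 8 * T + 1) (v : Fin 4 → ℤ) (h0 : prod 14 (392 * k ^ 2) v v = 0)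
    (h1 : prod 14 (392 * k ^ 2) v (l1 T) = 1) : False := by
  have h := three_mul_prod hT v
  rw [h0, h1] at h
  apply no_sol 7 (by norm_num) (by norm_num) (prod 14 (392 * k ^ 2) v (l2 T)) (linJ T v)
    (k * linD T v)
  push_cast
  linear_combination -2 * h

end D14

namespace D38

/-- The first vector of the second `A_2`. -/
def l1 (T : ℤ) : Fin 4 → ℤ :=
  ![22 + 152 * T, 241 + 3800 * T + 14896 * T ^ 2, 5 + 36 * T, 2 + 14 * T]

/-- The second vector of the second `A_2`. -/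
def l2 (T : ℤ) : Fin 4 → ℤ :=
  ![33 + 228 * T, 357 + 5700 * T + 22344 * T ^ 2, 8 + 54 * T, 3 + 21 * T]

/-- A linear form vanishing on the second `A_2`. -/
def linJ (T : ℤ) (v : Fin 4 → ℤ) : ℤ :=
  v 0 * (43 + 803 * T + 3724 * T ^ 2) + v 1 * (4 + 38 * T)
    + v 2 * (36 + 342 * T) - 19 * (8 * T + 1) * (55 + 532 * T) * v 3

/-- Another linear form vanishing on the second `A_2`. -/
def linD (T : ℤ) (v : Fin 4 → ℤ) : ℤ :=
  -(v 0 * (11 + 98 * T) + v 1 + 9 * v 2 - (264 + 2128 * T) * v 3)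

variable {k T : ℤ}

theorem prod_l1_l1 (hT : k ^ 2 = 8 * T + 1) : prod 38 (2888 * k ^ 2) (l1 T) (l1 T) = 2 := by
  simp only [prod, l1, hT, Matrix.cons_val_zero, Matrix.cons_val_one, Matrix.cons_val]
  ring

theorem prod_l2_l2 (hT : k ^ 2 = 8 * T + 1) : prod 38 (2888 * k ^ 2) (l2 T) (l2 T) = 2 := by
  simp only [prod, l2, hT, Matrix.cons_val_zero, Matrix.cons_val_one, Matrix.cons_val]
  ring

theorem prod_l1_l2 (hT : k ^ 2 = 8 * T + 1) : prod 38 (2888 * k ^ 2) (l1 T) (l2 T) = -1 := by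
  simp only [prod, l1, l2, hT, Matrix.cons_val_zero, Matrix.cons_val_one, Matrix.cons_val]
  ring

/-- `3 (v, v)` in terms of `(v, l1)`, `(v, l2)` and two further linear forms. -/
theorem three_mul_prod (hT : k ^ 2 = 8 * T + 1) (v : Fin 4 → ℤ) :
    3 * prod 38 (2888 * k ^ 2) v v = 2 * (prod 38 (2888 * k ^ 2) v (l1 T) ^ 2
      + prod 38 (2888 * k ^ 2) v (l1 T) * prod 38 (2888 * k ^ 2) v (l2 T)
      + prod 38 (2888 * k ^ 2) v (l2 T) ^ 2) - 152 * linJ T v ^ 2
      - 2166 * k ^ 2 * linD T v ^ 2 := by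
  simp only [prod, l1, l2, linJ, linD, hT, Matrix.cons_val_zero, Matrix.cons_val_one,
    Matrix.cons_val]
  ring

/-- `3 v` in terms of the same linear forms. -/
theorem three_mul_vec (hT : k ^ 2 = 8 * T + 1) (v : Fin 4 → ℤ) (i : Fin 4) :
    3 * v i = (2 * prod 38 (2888 * k ^ 2) v (l1 T) + prod 38 (2888 * k ^ 2) v (l2 T)) * l1 T i
      + (prod 38 (2888 * k ^ 2) v (l1 T) + 2 * prod 38 (2888 * k ^ 2) v (l2 T)) * l2 T i
      - 1 * linJ T v * ![608 + 5776 * T, 6536 + 122056 * T + 566048 * T ^ 2, 144 + 1368 * T,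
          55 + 532 * T] i
      + 3 * linD T v * ![722 * (8 * T + 1), 722 * (8 * T + 1) * (11 + 98 * T), 171 * (8 * T + 1),
          66 + 532 * T] i := by
  fin_cases i <;>
  · simp only [prod, l1, l2, linJ, linD, hT, Matrix.cons_val_zero, Matrix.cons_val_one,
      Matrix.cons_val, Fin.zero_eta, Fin.mk_one, Fin.reduceFinMk]
    ring

theorem eq_zero (hT : k ^ 2 = 8 * T + 1) (v : Fin 4 → ℤ) (h1 : prod 38 (2888 * k ^ 2) v (l1 T) = 0)
    (h2 : prod 38 (2888 * k ^ 2) v (l2 T) = 0) (h3 : linJ T v = 0) (h4 : linD T v = 0) :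
    v = 0 := by
  ext i
  have h := three_mul_vec hT v i
  rw [h1, h2, h3, h4] at h
  show v i = 0
  linarith

/-- The orthogonal complement of the second `A_2` is negative definite without short vectors. -/
theorem prod_lt (hT : k ^ 2 = 8 * T + 1) (v : Fin 4 → ℤ) (h1 : prod 38 (2888 * k ^ 2) v (l1 T) = 0)
    (h2 : prod 38 (2888 * k ^ 2) v (l2 T) = 0) (hv : v ≠ 0) : prod 38 (2888 * k ^ 2) v v < -6 := by
  have h := three_mul_prod hT v
  rw [h1, h2] at h
  have hk : 1 ≤ k ^ 2 := by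
    by_contra hcon
    have h5 : k ^ 2 = 0 := le_antisymm (by omega) (sq_nonneg k)
    omega
  by_cases h3 : linJ T v = 0
  · have h4 : linD T v ≠ 0 := fun h4 => hv (eq_zero hT v h1 h2 h3 h4)
    have h5 : 1 ≤ linD T v ^ 2 := by
      have := sq_pos_of_ne_zero h4
      omega
    nlinarith
  · have h5 : 1 ≤ linJ T v ^ 2 := by
      have := sq_pos_of_ne_zero h3
      omega
    have h6 : 0 ≤ k ^ 2 * linD T v ^ 2 := by positivity
    nlinarith

/-- There is no isotropic vector `v` with `(v, l1) = 1`. -/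
theorem no_gs (hT : k ^ 2 = 8 * T + 1) (v : Fin 4 → ℤ) (h0 : prod 38 (2888 * k ^ 2) v v = 0)
    (h1 : prod 38 (2888 * k ^ 2) v (l1 T) = 1) : False := by
  have h := three_mul_prod hT v
  rw [h0, h1] at h
  apply no_sol 19 (by norm_num) (by norm_num) (prod 38 (2888 * k ^ 2) v (l2 T)) (linJ T v)
    (k * linD T v)
  push_cast
  linear_combination -2 * h

end D38

namespace D42

/-- The first vector of the second `A_2`. -/
def l1 (T : ℤ) : Fin 4 → ℤ :=
  ![11 + 21 * T, 23 + 168 * T + 252 * T ^ 2, 3 + 6 * T, 1 + 2 * T]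

/-- The second vector of the second `A_2`. -/
def l2 (T : ℤ) : Fin 4 → ℤ :=
  ![-34 - 105 * T, -55 - 588 * T - 1260 * T ^ 2, -10 - 30 * T, -3 - 10 * T]

/-- A linear form vanishing on the second `A_2`. -/
def linJ (T : ℤ) (v : Fin 4 → ℤ) : ℤ :=
  v 0 * (3 + 36 * T + 84 * T ^ 2) + v 1 * (2 + 7 * T)
    + v 2 * (25 + 84 * T) - 7 * (3 * T + 1) * (22 + 84 * T) * v 3

/-- Another linear form vanishing on the second `A_2`. -/
def linD (T : ℤ) (v : Fin 4 → ℤ) : ℤ :=
  -(v 0 * (2 + 12 * T) + v 1 + 12 * v 2 - (81 + 252 * T) * v 3)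

variable {k T : ℤ}

theorem prod_l1_l1 (hT : k ^ 2 = 3 * T + 1) : prod 42 (882 * k ^ 2) (l1 T) (l1 T) = 2 := by
  simp only [prod, l1, hT, Matrix.cons_val_zero, Matrix.cons_val_one, Matrix.cons_val]
  ring

theorem prod_l2_l2 (hT : k ^ 2 = 3 * T + 1) : prod 42 (882 * k ^ 2) (l2 T) (l2 T) = 2 := by
  simp only [prod, l2, hT, Matrix.cons_val_zero, Matrix.cons_val_one, Matrix.cons_val]
  ring

theorem prod_l1_l2 (hT : k ^ 2 = 3 * T + 1) : prod 42 (882 * k ^ 2) (l1 T) (l2 T) = -1 := by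
  simp only [prod, l1, l2, hT, Matrix.cons_val_zero, Matrix.cons_val_one, Matrix.cons_val]
  ring

/-- `3 (v, v)` in terms of `(v, l1)`, `(v, l2)` and two further linear forms. -/
theorem three_mul_prod (hT : k ^ 2 = 3 * T + 1) (v : Fin 4 → ℤ) :
    3 * prod 42 (882 * k ^ 2) v v = 2 * (prod 42 (882 * k ^ 2) v (l1 T) ^ 2
      + prod 42 (882 * k ^ 2) v (l1 T) * prod 42 (882 * k ^ 2) v (l2 T)
      + prod 42 (882 * k ^ 2) v (l2 T) ^ 2) - 378 * linJ T v ^ 2
      - 294 * k ^ 2 * linD T v ^ 2 := by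
  simp only [prod, l1, l2, linJ, linD, hT, Matrix.cons_val_zero, Matrix.cons_val_one,
    Matrix.cons_val]
  ring

/-- `3 v` in terms of the same linear forms. -/
theorem three_mul_vec (hT : k ^ 2 = 3 * T + 1) (v : Fin 4 → ℤ) (i : Fin 4) :
    3 * v i = (2 * prod 42 (882 * k ^ 2) v (l1 T) + prod 42 (882 * k ^ 2) v (l2 T)) * l1 T i
      + (prod 42 (882 * k ^ 2) v (l1 T) + 2 * prod 42 (882 * k ^ 2) v (l2 T)) * l2 T i
      - 3 * linJ T v * ![252 + 882 * T, 378 + 4536 * T + 10584 * T ^ 2, 75 + 252 * T,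
          22 + 84 * T] i
      + 3 * linD T v * ![98 * (3 * T + 1), 98 * (3 * T + 1) * (2 + 12 * T), 28 * (3 * T + 1),
          9 + 28 * T] i := by
  fin_cases i <;>
  · simp only [prod, l1, l2, linJ, linD, hT, Matrix.cons_val_zero, Matrix.cons_val_one,
      Matrix.cons_val, Fin.zero_eta, Fin.mk_one, Fin.reduceFinMk]
    ring

theorem eq_zero (hT : k ^ 2 = 3 * T + 1) (v : Fin 4 → ℤ) (h1 : prod 42 (882 * k ^ 2) v (l1 T) = 0)
    (h2 : prod 42 (882 * k ^ 2) v (l2 T) = 0) (h3 : linJ T v = 0) (h4 : linD T v = 0) :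
    v = 0 := by
  ext i
  have h := three_mul_vec hT v i
  rw [h1, h2, h3, h4] at h
  show v i = 0
  linarith

/-- The orthogonal complement of the second `A_2` is negative definite without short vectors. -/
theorem prod_lt (hT : k ^ 2 = 3 * T + 1) (v : Fin 4 → ℤ) (h1 : prod 42 (882 * k ^ 2) v (l1 T) = 0)
    (h2 : prod 42 (882 * k ^ 2) v (l2 T) = 0) (hv : v ≠ 0) : prod 42 (882 * k ^ 2) v v < -6 := by
  have h := three_mul_prod hT v
  rw [h1, h2] at h
  have hk : 1 ≤ k ^ 2 := by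
    by_contra hcon
    have h5 : k ^ 2 = 0 := le_antisymm (by omega) (sq_nonneg k)
    omega
  by_cases h3 : linJ T v = 0
  · have h4 : linD T v ≠ 0 := fun h4 => hv (eq_zero hT v h1 h2 h3 h4)
    have h5 : 1 ≤ linD T v ^ 2 := by
      have := sq_pos_of_ne_zero h4
      omega
    nlinarith
  · have h5 : 1 ≤ linJ T v ^ 2 := by
      have := sq_pos_of_ne_zero h3
      omega
    have h6 : 0 ≤ k ^ 2 * linD T v ^ 2 := by positivity
    nlinarith

/-- There is no isotropic vector `v` with `(v, l1) = 1`. -/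
theorem no_gs (hT : k ^ 2 = 3 * T + 1) (v : Fin 4 → ℤ) (h0 : prod 42 (882 * k ^ 2) v v = 0)
    (h1 : prod 42 (882 * k ^ 2) v (l1 T) = 1) : False := by
  have h := three_mul_prod hT v
  rw [h0, h1] at h
  apply no_sol' (prod 42 (882 * k ^ 2) v (l2 T)) (linJ T v) (k * linD T v)
  linear_combination -2 * h

end D42

namespace D26

/-- The first vector of the second `A_2`. -/
def l1 (a b : ℤ) : Fin 4 → ℤ :=
  ![-24, 7, 13 * b, -a]

/-- The second vector of the second `A_2`. -/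
def l2 (a b : ℤ) : Fin 4 → ℤ :=
  ![45, -15, -26 * b, 2 * a]

/-- A linear form vanishing on the second `A_2`. -/
def linJ (k a b : ℤ) (v : Fin 4 → ℤ) : ℤ :=
  v 0 - 3 * v 1 + 45 * b * v 2 + 45 * k ^ 2 * a * v 3

/-- Another linear form vanishing on the second `A_2`. -/
def linD (a b : ℤ) (v : Fin 4 → ℤ) : ℤ :=
  a * v 2 + 13 * b * v 3

variable {k a b : ℤ}

theorem prod_l1_l1 (h : k ^ 2 * a ^ 2 - 13 * b ^ 2 = -1) :
    prod 26 (338 * k ^ 2) (l1 a b) (l1 a b) = 2 := by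
  simp only [prod, l1, Matrix.cons_val_zero, Matrix.cons_val_one, Matrix.cons_val]
  linear_combination (-338) * h

theorem prod_l2_l2 (h : k ^ 2 * a ^ 2 - 13 * b ^ 2 = -1) :
    prod 26 (338 * k ^ 2) (l2 a b) (l2 a b) = 2 := by
  simp only [prod, l2, Matrix.cons_val_zero, Matrix.cons_val_one, Matrix.cons_val]
  linear_combination (-338 * 4) * h

theorem prod_l1_l2 (h : k ^ 2 * a ^ 2 - 13 * b ^ 2 = -1) :
    prod 26 (338 * k ^ 2) (l1 a b) (l2 a b) = -1 := by
  simp only [prod, l1, l2, Matrix.cons_val_zero, Matrix.cons_val_one, Matrix.cons_val]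
  linear_combination (338 * 2) * h

/-- `3 (v, v)` in terms of `(v, l1)`, `(v, l2)` and two further linear forms. -/
theorem three_mul_prod (h : k ^ 2 * a ^ 2 - 13 * b ^ 2 = -1) (v : Fin 4 → ℤ) :
    3 * prod 26 (338 * k ^ 2) v v = 2 * (prod 26 (338 * k ^ 2) v (l1 a b) ^ 2
      + prod 26 (338 * k ^ 2) v (l1 a b) * prod 26 (338 * k ^ 2) v (l2 a b)
      + prod 26 (338 * k ^ 2) v (l2 a b) ^ 2) - 338 * linJ k a b v ^ 2
      - 78 * k ^ 2 * linD a b v ^ 2 := by
  simp only [prod, l1, l2, linJ, linD, Matrix.cons_val_zero, Matrix.cons_val_one,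
    Matrix.cons_val]
  grind

/-- `3 v` in terms of the same linear forms. -/
theorem three_mul_vec (h : k ^ 2 * a ^ 2 - 13 * b ^ 2 = -1) (v : Fin 4 → ℤ) (i : Fin 4) :
    3 * v i = (2 * prod 26 (338 * k ^ 2) v (l1 a b) + prod 26 (338 * k ^ 2) v (l2 a b))
        * l1 a b i
      + (prod 26 (338 * k ^ 2) v (l1 a b) + 2 * prod 26 (338 * k ^ 2) v (l2 a b)) * l2 a b i
      - linJ k a b v * ![-1014, 338, 585 * b, -45 * a] i
      + 3 * linD a b v * ![0, 0, -k ^ 2 * a, b] i := by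
  fin_cases i <;>
  · simp only [prod, l1, l2, linJ, linD, Matrix.cons_val_zero, Matrix.cons_val_one,
      Matrix.cons_val, Fin.zero_eta, Fin.mk_one, Fin.reduceFinMk]
    grind

theorem eq_zero (h : k ^ 2 * a ^ 2 - 13 * b ^ 2 = -1) (v : Fin 4 → ℤ)
    (h1 : prod 26 (338 * k ^ 2) v (l1 a b) = 0) (h2 : prod 26 (338 * k ^ 2) v (l2 a b) = 0)
    (h3 : linJ k a b v = 0) (h4 : linD a b v = 0) : v = 0 := by
  ext i
  have h' := three_mul_vec h v i
  rw [h1, h2, h3, h4] at h'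
  show v i = 0
  linarith

/-- The orthogonal complement of the second `A_2` is negative definite without short vectors. -/
theorem prod_lt (h : k ^ 2 * a ^ 2 - 13 * b ^ 2 = -1) (hk : k ≠ 0) (v : Fin 4 → ℤ)
    (h1 : prod 26 (338 * k ^ 2) v (l1 a b) = 0) (h2 : prod 26 (338 * k ^ 2) v (l2 a b) = 0)
    (hv : v ≠ 0) : prod 26 (338 * k ^ 2) v v < -6 := by
  have h' := three_mul_prod h v
  rw [h1, h2] at h'
  have hk : 1 ≤ k ^ 2 := by
    have := sq_pos_of_ne_zero hk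
    omega
  by_cases h3 : linJ k a b v = 0
  · have h4 : linD a b v ≠ 0 := fun h4 => hv (eq_zero h v h1 h2 h3 h4)
    have h5 : 1 ≤ linD a b v ^ 2 := by
      have := sq_pos_of_ne_zero h4
      omega
    nlinarith
  · have h5 : 1 ≤ linJ k a b v ^ 2 := by
      have := sq_pos_of_ne_zero h3
      omega
    have h6 : 0 ≤ k ^ 2 * linD a b v ^ 2 := by positivity
    nlinarith

/-- There is no isotropic vector `v` with `(v, l1) = 1`. -/
theorem no_gs (h : k ^ 2 * a ^ 2 - 13 * b ^ 2 = -1) (v : Fin 4 → ℤ)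
    (h0 : prod 26 (338 * k ^ 2) v v = 0) (h1 : prod 26 (338 * k ^ 2) v (l1 a b) = 1) :
    False := by
  have h' := three_mul_prod h v
  rw [h0, h1] at h'
  apply no_sol26 (prod 26 (338 * k ^ 2) v (l2 a b)) (linJ k a b v) (k * linD a b v)
  linear_combination -2 * h'

end D26

end Pool.Agent.MP4d0966.FM
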