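import Mathlib

/-!
# Two `A_2` in lattices `U + ⟨d⟩ + ⟨-c⟩`

Computations for pairs of Fourier-Mukai partners one of which lies in one of the divisors
`C_14`, `C_38`, `C_42`.
-/

set_option autoImplicit false

namespace Pool.Agent.MP4d0966.FM

open scoped NumberTheorySymbols

/-- The product of the lattice `U + ⟨d⟩ + ⟨-c⟩`. -/
def prod (d c : ℤ) (v w : Fin 4 → ℤ) : ℤ :=
  v 0 * w 1 + v 1 * w 0 + d * (v 2 * w 2) - c * (v 3 * w 3)

/-- If the odd number `m` divides `U ^ 2 - q V ^ 2` and the cofactor is prime to `m` up to primes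
modulo which `q` is a square, then `(q / m) = 1`. -/
theorem jacobi_one (q : ℤ) (m : ℕ) (hm : Odd m) (hq : ∀ l : ℕ, l.Prime → l ∣ m → ¬ (l : ℤ) ∣ q)
    (U V r : ℤ) (h : U ^ 2 - q * V ^ 2 = m * r)
    (hr : ∀ l : ℕ, l.Prime → l ∣ m → (l : ℤ) ∣ r → J(q | l) = 1) : J(q | m) = 1 := by
  induction m using Nat.strong_induction_on generalizing U V r with
  | _ m ih =>
    by_cases hm1 : m = 1
    · rw [hm1]; exact jacobiSym.one_right q
    have hm0 : 0 < m := hm.pos
    obtain ⟨l, hl, hlm⟩ := Nat.exists_prime_and_dvd hm1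
    have hlp : Prime (l : ℤ) := Nat.prime_iff_prime_int.mp hl
    have hlodd : Odd l := Odd.of_dvd_nat hm hlm
    have hlq : ¬ (l : ℤ) ∣ q := hq l hl hlm
    obtain ⟨n, rfl⟩ := hlm
    have hn0 : 0 < n := by
      rcases Nat.eq_zero_or_pos n with h0 | h0
      · rw [h0] at hm0; simp at hm0
      · exact h0
    have hnodd : Odd n := Odd.of_dvd_nat hm ⟨l, mul_comm _ _⟩
    have hnq : ∀ l : ℕ, l.Prime → l ∣ n → ¬ (l : ℤ) ∣ q := fun q' h1 h2 =>
      hq q' h1 (h2.mul_left l)
    have hlt : n < l * n := by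
      have := hl.two_le
      nlinarith
    have key : J(q | l) = 1 → J(q | l * n) = 1 := by
      intro h1
      rw [jacobiSym.mul_right' _ hl.ne_zero hn0.ne', h1, one_mul]
      refine ih n hlt hnodd hnq U V (l * r) (by rw [h]; push_cast; ring) ?_
      intro q' hq' hqn hqr
      rcases (Nat.prime_iff_prime_int.mp hq').dvd_or_dvd hqr with h2 | h2
      · have h3 : q' ∣ l := by exact_mod_cast h2
        rw [(Nat.prime_dvd_prime_iff_eq hq' hl).mp h3]
        exact h1
      · exact hr q' hq' (hqn.mul_left l) h2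
    by_cases hlr : (l : ℤ) ∣ r
    · exact key (hr l hl ⟨n, rfl⟩ hlr)
    by_cases hlV : (l : ℤ) ∣ V
    · obtain ⟨V', rfl⟩ := hlV
      have hU : (l : ℤ) ∣ U := by
        have h2 : (l : ℤ) ∣ U ^ 2 := ⟨q * l * V' ^ 2 + n * r, by
          push_cast at h
          linear_combination h⟩
        exact hlp.dvd_of_dvd_pow h2
      obtain ⟨U', rfl⟩ := hU
      have hl0 : (l : ℤ) ≠ 0 := hlp.ne_zero
      have h3 : (l : ℤ) * (U' ^ 2 - q * V' ^ 2) = n * r := by
        apply mul_left_cancel₀ hl0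
        push_cast at h
        linear_combination h
      have h4 : (l : ℤ) ∣ n := by
        rcases hlp.dvd_or_dvd (Dvd.intro _ h3) with h5 | h5
        · exact h5
        · exact absurd h5 hlr
      have h5 : l ∣ n := by exact_mod_cast h4
      obtain ⟨n', rfl⟩ := h5
      have hn'0 : 0 < n' := by
        rcases Nat.eq_zero_or_pos n' with h0 | h0
        · rw [h0] at hn0; simp at hn0
        · exact h0
      have h6 : U' ^ 2 - q * V' ^ 2 = n' * r := by
        apply mul_left_cancel₀ hl0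
        push_cast at h3
        linear_combination h3
      have h7' : J(q | n') = 1 := by
        refine ih n' ?_ (Odd.of_dvd_nat hnodd ⟨l, mul_comm _ _⟩)
          (fun q' h8 h9 => hnq q' h8 (h9.mul_left l)) U' V' r h6 ?_
        · have := hl.two_le
          nlinarith
        · intro q' hq' hqn hqr
          exact hr q' hq' ((hqn.mul_left l).mul_left l) hqr
      rw [jacobiSym.mul_right' _ hl.ne_zero hn0.ne',
        jacobiSym.mul_right' _ hl.ne_zero hn'0.ne', h7', mul_one]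
      have h8 : Int.gcd q l = 1 := by
        have h9 : IsCoprime (l : ℤ) q := hlp.irreducible.coprime_iff_not_dvd.mpr hlq
        exact Int.isCoprime_iff_gcd_eq_one.mp h9.symm
      rcases jacobiSym.eq_one_or_neg_one (a := q) (b := l) h8 with h9 | h9 <;> rw [h9] <;> rfl
    · apply key
      have := Fact.mk hl
      have h2 : ((q : ℤ) : ZMod l) ≠ 0 := by
        rw [Ne, ZMod.intCast_zmod_eq_zero_iff_dvd]
        exact hlq
      rw [← jacobiSym.legendreSym.to_jacobiSym, legendreSym.eq_one_iff _ h2]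
      have hV : (V : ZMod l) ≠ 0 := by
        rw [Ne, ZMod.intCast_zmod_eq_zero_iff_dvd]
        exact hlV
      refine ⟨(U : ZMod l) / V, ?_⟩
      have h3 := congrArg (Int.cast : ℤ → ZMod l) h
      push_cast at h3
      rw [CharP.cast_eq_zero, zero_mul, zero_mul] at h3
      field_simp
      linear_combination -h3

/-- The equation for primes `p = 7` modulo `12`. -/
theorem no_sol (p : ℕ) (hp : p.Prime) (hp12 : p % 12 = 7) (C j D : ℤ)
    (hmain : (2 * C + 1) ^ 2 + 3 = 16 * p * j ^ 2 + 12 * p ^ 2 * D ^ 2) : False := by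
  have hpp := Nat.prime_iff_prime_int.mp hp
  have hDodd : Odd D := by
    rcases Int.even_or_odd D with h2 | h2
    · exfalso
      obtain ⟨D', hD'⟩ := h2
      have h3 : (2 * C + 1) ^ 2 + 3 = 16 * (p * j ^ 2 + 3 * p ^ 2 * D' ^ 2) := by
        rw [hmain, hD']; ring
      have h4 : (2 * C + 1) ^ 2 + 3 = 4 * (C * (C + 1) + 1) := by ring
      obtain ⟨c, hc⟩ := Int.even_mul_succ_self C
      rw [hc] at h4
      omega
    · exact h2
  set m := 2 * p * D.natAbs - 1 with hm
  have hDn : D.natAbs % 2 = 1 := by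
    rw [← Nat.odd_iff, Int.natAbs_odd]
    exact hDodd
  obtain ⟨i, hi⟩ : ∃ i, D.natAbs = 2 * i + 1 := ⟨D.natAbs / 2, by omega⟩
  obtain ⟨q, hq⟩ : ∃ q, p = 4 * q + 3 := ⟨p / 4, by omega⟩
  have hpD : 2 * p * D.natAbs = 4 * (4 * q * i + 3 * i + 2 * q + 1) + 2 := by
    rw [hi, hq]; ring
  have hm4 : m % 4 = 1 := by omega
  have hm1' : m + 1 = 2 * p * D.natAbs := by omega
  have hm1 : (m : ℤ) = 2 * p * |D| - 1 := by
    rw [Int.abs_eq_natAbs]
    have h5 : ((m + 1 : ℕ) : ℤ) = ((2 * p * D.natAbs : ℕ) : ℤ) := by rw [hm1']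
    push_cast at h5 ⊢
    linarith
  have hpm : ∀ l : ℕ, l.Prime → l ∣ m → ¬ (l : ℤ) ∣ (p : ℤ) := by
    intro l hl hlm hlp
    have h5 : l ∣ p := by exact_mod_cast hlp
    have h6 : l ∣ 2 * p * D.natAbs := (h5.mul_left 2).mul_right _
    rw [← hm1'] at h6
    have h7 : l ∣ 1 := (Nat.dvd_add_right hlm).mp h6
    exact hl.one_lt.ne' (Nat.dvd_one.mp h7)
  have hcast : (2 * C + 1) ^ 2 - p * (4 * j) ^ 2 = m * (3 * (m + 2)) := by
    rw [hm1]
    linear_combination hmain + (-12 * p ^ 2 : ℤ) * (sq_abs D)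
  have hJ3 : J((p : ℤ) | 3) = 1 := by
    rw [jacobiSym.mod_left, show ((p : ℤ) % ((3 : ℕ) : ℤ)) = 1 by push_cast; omega]
    exact jacobiSym.one_left 3
  have hJ : J((p : ℤ) | m) = 1 := by
    apply jacobi_one p m (by rw [Nat.odd_iff]; omega) hpm _ _ _ hcast
    intro l hl hlm hlr
    have hlodd : Odd l := Odd.of_dvd_nat (by rw [Nat.odd_iff]; omega) hlm
    have h2 : l ∣ 3 * (m + 2) := by exact_mod_cast hlr
    have h3 : l ∣ 3 := by
      rcases (Nat.Prime.dvd_mul hl).mp h2 with h4 | h4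
      · exact h4
      · exfalso
        have h5 : l ∣ 2 := (Nat.dvd_add_right hlm).mp h4
        have h6 := (Nat.prime_dvd_prime_iff_eq hl Nat.prime_two).mp h5
        rw [h6] at hlodd
        exact absurd hlodd (by decide)
    rw [(Nat.prime_dvd_prime_iff_eq hl Nat.prime_three).mp h3]
    exact hJ3
  have hJ2 : J((p : ℤ) | m) = -1 := by
    have h2 := jacobiSym.quadratic_reciprocity_one_mod_four (a := m) (b := p) hm4
      (hp.odd_of_ne_two (by omega))
    rw [← h2, jacobiSym.mod_left]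
    have h3 : (m : ℤ) % (p : ℤ) = (-1) % (p : ℤ) := by
      apply Int.ModEq.symm
      apply Int.modEq_of_dvd
      exact ⟨2 * |D|, by rw [hm1]; ring⟩
    rw [h3, ← jacobiSym.mod_left, jacobiSym.at_neg_one (hp.odd_of_ne_two (by omega)),
      ZMod.χ₄_nat_three_mod_four (by omega)]
  rw [hJ] at hJ2
  norm_num at hJ2

/-- The equation for `21`. -/
theorem no_sol' (C j D : ℤ) (hmain : (2 * C + 1) ^ 2 + 3 = 756 * j ^ 2 + 588 * D ^ 2) :
    False := by
  obtain ⟨u, hu⟩ : ∃ u, 2 * C + 1 = 3 * u := by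
    have h1 : (3 : ℤ) ∣ (2 * C + 1) ^ 2 := ⟨252 * j ^ 2 + 196 * D ^ 2 - 1, by
      linear_combination hmain⟩
    exact Int.prime_three.dvd_of_dvd_pow h1
  have hmain2 : 3 * u ^ 2 + 1 = 252 * j ^ 2 + 196 * D ^ 2 := by
    rw [hu] at hmain
    linarith [hmain, mul_pow (3 : ℤ) u 2]
  have hD3 : D.natAbs % 3 ≠ 0 := by
    intro h
    obtain ⟨D', hD'⟩ : (3 : ℤ) ∣ D := Int.natCast_dvd.mpr (Nat.dvd_of_mod_eq_zero h)
    rw [hD'] at hmain2
    have : 3 * (84 * j ^ 2 + 196 * 3 * D' ^ 2 - u ^ 2) = 1 := by linear_combination -hmain2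
    omega
  have hfin : ∀ m m' : ℕ, (m = 14 * D.natAbs - 1 ∧ m' = 14 * D.natAbs + 1 ∨
      m = 14 * D.natAbs + 1 ∧ m' = 14 * D.natAbs - 1) → m % 3 ≠ 0 → False := by
    intro m m' hmm hm3
    have hprod : (m : ℤ) * m' = 196 * D ^ 2 - 1 := by
      have h1 : ((14 * D.natAbs - 1 : ℕ) : ℤ) = 14 * |D| - 1 := by
        rw [Int.abs_eq_natAbs]; omega
      have h2 : ((14 * D.natAbs + 1 : ℕ) : ℤ) = 14 * |D| + 1 := by
        rw [Int.abs_eq_natAbs]; omega
      rcases hmm with ⟨rfl, rfl⟩ | ⟨rfl, rfl⟩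
      · rw [h1, h2]; linear_combination (196 : ℤ) * (sq_abs D)
      · rw [h1, h2]; linear_combination (196 : ℤ) * (sq_abs D)
    have hodd : Odd m := by rw [Nat.odd_iff]; omega
    have hcast : (2 * C + 1) ^ 2 - 21 * (6 * j) ^ 2 = m * (3 * m') := by
      linear_combination hmain - 3 * hprod
    have h7m : ¬ 7 ∣ m := by omega
    have h3m : ¬ 3 ∣ m := by omega
    have hJ : J(21 | m) = 1 := by
      apply jacobi_one 21 m hodd ?_ _ _ _ hcast
      · intro l hl hlm hlr
        exfalso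
        have hlodd : Odd l := Odd.of_dvd_nat hodd hlm
        have h2 : l ∣ 3 * m' := by exact_mod_cast hlr
        rcases (Nat.Prime.dvd_mul hl).mp h2 with h4 | h4
        · rw [(Nat.prime_dvd_prime_iff_eq hl Nat.prime_three).mp h4] at hlm
          exact h3m hlm
        · have h5 : l ∣ 2 := by
            rcases hmm with ⟨h6, h7⟩ | ⟨h6, h7⟩
            · have h8 : m' = m + 2 := by omega
              rw [h8] at h4
              exact (Nat.dvd_add_right hlm).mp h4
            · have h8 : m = m' + 2 := by omega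
              rw [h8] at hlm
              exact (Nat.dvd_add_right h4).mp hlm
          have h6 := (Nat.prime_dvd_prime_iff_eq hl Nat.prime_two).mp h5
          rw [h6] at hlodd
          exact absurd hlodd (by decide)
      · intro l hl hlm hl21
        have h4 : l ∣ 3 * 7 := by exact_mod_cast hl21
        rcases (Nat.Prime.dvd_mul hl).mp h4 with h5 | h5
        · rw [(Nat.prime_dvd_prime_iff_eq hl Nat.prime_three).mp h5] at hlm
          exact h3m hlm
        · rw [(Nat.prime_dvd_prime_iff_eq hl (by norm_num)).mp h5] at hlm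
          exact h7m hlm
    have hJ2 : J(21 | m) = -1 := by
      have h2 := jacobiSym.quadratic_reciprocity_one_mod_four (a := 21) (b := m) (by decide) hodd
      have h3 : J((21 : ℕ) | m) = J(21 | m) := rfl
      rw [← h3, h2, jacobiSym.mod_left]
      have h4 : m % 21 = 1 * 0 + 13 ∨ m % 21 = 8 := by
        rcases hmm with ⟨h6, h7⟩ | ⟨h6, h7⟩ <;> omega
      rcases h4 with h4 | h4
      · rw [show ((m : ℤ) % ((21 : ℕ) : ℤ)) = 13 by push_cast; omega]
        norm_num
      · rw [show ((m : ℤ) % ((21 : ℕ) : ℤ)) = 8 by push_cast; omega]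
        norm_num
    rw [hJ] at hJ2
    norm_num at hJ2
  rcases (show D.natAbs % 3 = 1 ∨ D.natAbs % 3 = 2 by omega) with h | h
  · exact hfin (14 * D.natAbs - 1) (14 * D.natAbs + 1) (Or.inl ⟨rfl, rfl⟩) (by omega)
  · exact hfin (14 * D.natAbs + 1) (14 * D.natAbs - 1) (Or.inr ⟨rfl, rfl⟩) (by omega)

theorem jacobi_prime_factors (q : ℤ) (m : ℕ) (hm : m ≠ 0)
    (h : ∀ l : ℕ, l.Prime → l ∣ m → J(q | l) = 1) : J(q | m) = 1 := by
  induction m using Nat.strong_induction_on with
  | _ m ih =>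
    by_cases hm1 : m = 1
    · rw [hm1]; exact jacobiSym.one_right q
    obtain ⟨l, hl, n, rfl⟩ := Nat.exists_prime_and_dvd hm1
    have hn0 : n ≠ 0 := by
      rintro rfl
      exact hm (mul_zero _)
    rw [jacobiSym.mul_right' _ hl.ne_zero hn0, h l hl (Dvd.intro _ rfl), one_mul]
    apply ih n ?_ hn0 (fun l' h1 h2 => h l' h1 (h2.mul_left l))
    have := hl.two_le
    have := Nat.pos_of_ne_zero hn0
    nlinarith

/-- The equation for `13`. -/
theorem no_sol26 (C j D : ℤ) (hmain : (2 * C + 1) ^ 2 + 3 = 676 * j ^ 2 + 156 * D ^ 2) :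
    False := by
  set n : ℕ := (2 * C + 1 - 26 * j).natAbs with hn
  have hn2 : n % 2 = 1 := by omega
  have hprod : (2 * C + 1 - 26 * j) * (2 * C + 1 + 26 * j) = 3 * (52 * D ^ 2 - 1) := by
    linear_combination hmain
  have hndvd : (n : ℤ) ∣ 3 * (52 * D ^ 2 - 1) := by
    rw [hn, Int.natAbs_dvd]
    exact Dvd.intro _ hprod
  have hJ : J(13 | n) = 1 := by
    apply jacobi_prime_factors 13 n (by omega)
    intro l hl hln
    have hlodd : l ≠ 2 := by
      rintro rfl
      omega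
    have h1 : (l : ℤ) ∣ 3 * (52 * D ^ 2 - 1) := (Int.natCast_dvd_natCast.mpr hln).trans hndvd
    rcases (Nat.prime_iff_prime_int.mp hl).dvd_or_dvd h1 with h2 | h2
    · have h3 : l ∣ 3 := by exact_mod_cast h2
      rw [(Nat.prime_dvd_prime_iff_eq hl Nat.prime_three).mp h3]
      norm_num
    · have := Fact.mk hl
      have hD : ¬ (l : ℤ) ∣ 2 * D := by
        intro h3
        have h4 : (l : ℤ) ∣ 1 := by
          have h5 := dvd_sub (h3.mul_left (26 * D)) h2
          have h6 : 26 * D * (2 * D) - (52 * D ^ 2 - 1) = 1 := by ring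
          rwa [h6] at h5
        exact (Nat.prime_iff_prime_int.mp hl).not_isUnit (isUnit_of_dvd_one h4)
      have h3 : J(((2 * D) ^ 2 * 13 : ℤ) | l) = 1 := by
        have h4 : ((2 * D) ^ 2 * 13 : ℤ) % l = 1 % l := by
          apply Int.ModEq.symm
          apply Int.modEq_of_dvd
          have h5 : (2 * D) ^ 2 * 13 - 1 = 52 * D ^ 2 - 1 := by ring
          rw [h5]
          exact h2
        rw [jacobiSym.mod_left, h4, ← jacobiSym.mod_left]
        exact jacobiSym.one_left l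
      rw [jacobiSym.mul_left, jacobiSym.pow_left] at h3
      have h4 : Int.gcd (2 * D) l = 1 := by
        have h9 : IsCoprime (l : ℤ) (2 * D) :=
          (Nat.prime_iff_prime_int.mp hl).irreducible.coprime_iff_not_dvd.mpr hD
        exact Int.isCoprime_iff_gcd_eq_one.mp h9.symm
      rw [jacobiSym.sq_one h4, one_mul] at h3
      exact h3
  have h2 := jacobiSym.quadratic_reciprocity_one_mod_four (a := 13) (b := n) (by decide)
    (by rw [Nat.odd_iff]; exact hn2)
  have h3 : J((13 : ℕ) | n) = J(13 | n) := rfl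
  rw [h3, hJ] at h2
  have h13 : (2 * C + 1) % 13 = 6 ∨ (2 * C + 1) % 13 = 7 := by
    have h4 : ((2 * C + 1) ^ 2 + 3) % 13 = 0 := by
      rw [hmain]; omega
    have h5 : (2 * C + 1) % 13 = 0 ∨ (2 * C + 1) % 13 = 1 ∨ (2 * C + 1) % 13 = 2 ∨
      (2 * C + 1) % 13 = 3 ∨ (2 * C + 1) % 13 = 4 ∨ (2 * C + 1) % 13 = 5 ∨
      (2 * C + 1) % 13 = 6 ∨ (2 * C + 1) % 13 = 7 ∨ (2 * C + 1) % 13 = 8 ∨
      (2 * C + 1) % 13 = 9 ∨ (2 * C + 1) % 13 = 10 ∨ (2 * C + 1) % 13 = 11 ∨
      (2 * C + 1) % 13 = 12 := by omega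
    rw [Int.add_emod, pow_two, Int.mul_emod] at h4
    rcases h5 with h | h | h | h | h | h | h | h | h | h | h | h | h <;>
      rw [h] at h4 <;> norm_num at h4 <;> omega
  have hn13 : n % 13 = 6 ∨ n % 13 = 7 := by omega
  rw [jacobiSym.mod_left] at h2
  rcases hn13 with h | h
  · rw [show ((n : ℤ) % ((13 : ℕ) : ℤ)) = 6 by push_cast; omega] at h2
    norm_num at h2
  · rw [show ((n : ℤ) % ((13 : ℕ) : ℤ)) = 7 by push_cast; omega] at h2
    norm_num at h2

end Pool.Agent.MP4d0966.FM
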