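import Pool.Agent.MP4d0966.Core

set_option autoImplicit false

namespace Pool.Agent.MP4d0966

namespace EvenForm

variable {N : Type*} [AddCommGroup N] (L : EvenForm N)

/-- `l` and `w0` have orthogonal complement big enough to solve the congruences -/
def Solvable (l w0 : N) : Prop :=
  ∃ D0 : ℤ, D0 ≠ 0 ∧ ∀ n : ℤ, n ≠ 0 → IsCoprime n D0 → ∀ h : ℤ, n ∣ 2 * h - 1 →
    ∃ y, L.B y l = 0 ∧ L.B y w0 = 0 ∧ n ∣ h ^ 2 + L.q y

/-- an integral vector orthogonal to `l` and not to `w0` -/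
theorem exists_u0 (hnd : ∀ x, (∀ y, L.B x y = 0) → x = 0) {l w0 : N} (hl : L.q l = 1)
    (hw0 : w0 ≠ 0) (hlw : L.B l w0 = 0) : ∃ u0, L.B u0 l = 0 ∧ L.B u0 w0 ≠ 0 := by
  have h1 : ∃ u, L.B u w0 ≠ 0 := by
    by_contra hcon
    push Not at hcon
    exact hw0 (hnd w0 fun y => by rw [L.symm]; exact hcon y)
  obtain ⟨u, hu⟩ := h1
  have hll : L.B l l = 2 := by rw [L.hq, hl, mul_one]
  refine ⟨(2 : ℤ) • u - L.B u l • l, ?_, ?_⟩
  · simp only [map_sub, map_smul, LinearMap.sub_apply, LinearMap.smul_apply, smul_eq_mul, hll]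
    ring
  · simp only [map_sub, map_smul, LinearMap.sub_apply, LinearMap.smul_apply, smul_eq_mul, hlw]
    intro h
    apply hu
    linarith

theorem exists_w (hnd : ∀ x, (∀ y, L.B x y = 0) → x = 0) {e f l x1 w0 : N}
    (he : L.q e = 0) (hf : L.q f = 0) (hef : L.B e f = 1) (hl : L.q l = 1)
    (hx1 : L.B l x1 = 1) (hw : L.q w0 = 0) (hw0 : w0 ≠ 0) (hlw : L.B l w0 = 0)
    (hsol : L.Solvable l w0) : ∃ w, L.q w = 0 ∧ L.B w l = 1 := by
  obtain ⟨D0, hD0, hsol⟩ := hsol
  obtain ⟨u0, hu0l, hι⟩ := L.exists_u0 hnd hl hw0 hlw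
  set ι := L.B u0 w0 with hιdef
  obtain ⟨f', hf', hcop, hμ⟩ := L.exists_good hnd he hf hef hl hx1 hw hw0 hlw (2 * ι * D0)
    (mul_ne_zero (mul_ne_zero two_ne_zero hι) hD0)
  set D := 2 * ι * D0 with hD
  set a := L.B l f' with ha
  set μ := L.B f' w0 with hμdef
  obtain ⟨μ1, μ2, hμ12, hμ2, hμ1⟩ := exists_split D μ.natAbs μ hμ le_rfl
  have hll : L.B l l = 2 := by rw [L.hq, hl, mul_one]
  have hx1l : L.B x1 l = 1 := by rw [L.symm, hx1]
  have hwl : L.B w0 l = 0 := by rw [L.symm, hlw]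
  obtain ⟨α', c', hac⟩ : IsCoprime a (D * μ1) := hcop.mul_right (hμ1 a hcop)
  have hα' : IsCoprime α' D := ⟨a, c' * μ1, by linear_combination hac⟩
  set x0 := α' • f' + (c' * (D * μ1)) • x1 with hx0
  set r1 := L.B x1 w0 with hr1
  set ν2 := α' * μ2 + D * (c' * r1) with hν2
  have hx0w : L.B x0 w0 = μ1 * ν2 := by
    simp only [hx0, map_add, map_smul, LinearMap.add_apply, LinearMap.smul_apply, smul_eq_mul,
      ← hμdef, ← hr1, hν2]
    rw [hμ12]
    ring
  have hx0l : L.B x0 l = 1 := by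
    have h1 : L.B f' l = a := by rw [L.symm]
    simp only [hx0, map_add, map_smul, LinearMap.add_apply, LinearMap.smul_apply, smul_eq_mul,
      h1, hx1l]
    linear_combination hac
  have hν2D : IsCoprime ν2 D := by
    rw [hν2]
    exact (hα'.mul_left hμ2).add_mul_left_left _
  have hν2μ1 : IsCoprime ν2 μ1 := hμ1 ν2 hν2D
  have hν2two : IsCoprime ν2 2 :=
    hν2D.of_isCoprime_of_dvd_right ⟨ι * D0, by rw [hD]; ring⟩
  have hν2ι : IsCoprime ν2 ι := hν2D.of_isCoprime_of_dvd_right ⟨2 * D0, by rw [hD]; ring⟩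
  have hν2D0 : IsCoprime ν2 D0 := hν2D.of_isCoprime_of_dvd_right ⟨2 * ι, by rw [hD]; ring⟩
  have hν2ne : ν2 ≠ 0 := by
    intro h
    rw [h] at hν2two
    have h1 := isCoprime_zero_left.mp hν2two
    rw [Int.isUnit_iff] at h1
    omega
  obtain ⟨r, h, hrh⟩ := hν2two
  have hdiv : ν2 ∣ 2 * h - 1 := ⟨-r, by linear_combination hrh⟩
  obtain ⟨y1, hy1l, hy1w, hy1⟩ := hsol ν2 hν2ne hν2D0 h hdiv
  obtain ⟨j, ι', hjι⟩ := hν2ι
  obtain ⟨j', P', hjP⟩ : IsCoprime ν2 (D * μ1) := hν2D.mul_right hν2μ1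
  set v := h • l + y1 - x0 with hv
  have hvl : L.B v l = -r * ν2 := by
    simp only [hv, map_add, map_sub, map_smul, LinearMap.add_apply, LinearMap.sub_apply,
      LinearMap.smul_apply, smul_eq_mul, hll, hy1l, hx0l]
    linear_combination hrh
  have hvw : L.B v w0 = -(μ1 * ν2) := by
    simp only [hv, map_add, map_sub, map_smul, LinearMap.add_apply, LinearMap.sub_apply,
      LinearMap.smul_apply, smul_eq_mul, hlw, hy1w, hx0w]
    ring
  set y := (ι * ι') • v - (ι * ι' * (-r * ν2)) • x1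
    - (ι' * (-(μ1 * ν2) - (-r * ν2) * r1)) • u0 with hy
  have hyl : L.B y l = 0 := by
    simp only [hy, map_sub, map_smul, LinearMap.sub_apply, LinearMap.smul_apply, smul_eq_mul,
      hvl, hx1l, hu0l]
    ring
  have hyw : L.B y w0 = 0 := by
    simp only [hy, map_sub, map_smul, LinearMap.sub_apply, LinearMap.smul_apply, smul_eq_mul,
      hvw, ← hr1, ← hιdef]
    ring
  set x := x0 + ((D * μ1) * P') • y with hx
  have hxl : L.B x l = 1 := by
    simp only [hx, map_add, map_smul, LinearMap.add_apply, LinearMap.smul_apply, smul_eq_mul,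
      hx0l, hyl]
    ring
  have hxw : L.B x w0 = μ1 * ν2 := by
    simp only [hx, map_add, map_smul, LinearMap.add_apply, LinearMap.smul_apply, smul_eq_mul,
      hx0w, hyw]
    ring
  have hqμ : μ1 ∣ L.q x := by
    have h1 : L.q x = μ1 * (D * (c' ^ 2 * (D * μ1) * L.q x1 + α' * c' * L.B f' x1
        + (D * μ1) * P' ^ 2 * L.q y + P' * L.B x0 y)) := by
      rw [hx, q_add, q_smul, map_smul, smul_eq_mul]
      have h2 : L.q x0 = (c' * (D * μ1)) ^ 2 * L.q x1 + α' * (c' * (D * μ1)) * L.B f' x1 := by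
        rw [hx0, q_add, q_smul, q_smul, hf', map_smul, map_smul]
        simp only [LinearMap.smul_apply, smul_eq_mul]
        ring
      rw [h2]
      ring
    rw [h1]
    exact dvd_mul_right _ _
  have hqν : ν2 ∣ L.q x := by
    have h1 : x = (h • l + y1) + ν2 • ((-j) • v + (ι * ι' * r) • x1
        - (ι' * (-μ1 + r * r1)) • u0 - j' • y) := by
      have h2 : x = (h • l + y1) + ((D * μ1) * P') • y - v := by
        rw [hx, hv]
        abel
      have h3 : (D * μ1) * P' = 1 - j' * ν2 := by linear_combination hjP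
      have h4 : ι * ι' = 1 - j * ν2 := by linear_combination hjι
      rw [h2, h3]
      have h5 : y = (1 - j * ν2) • v - (ι * ι' * (-r * ν2)) • x1
          - (ι' * (-(μ1 * ν2) - (-r * ν2) * r1)) • u0 := by
        rw [hy, h4]
      have h6 : (1 - j' * ν2) • y = y - (j' * ν2) • y := by module
      rw [h6]
      conv_lhs =>
        enter [1, 2, 1]
        rw [h5]
      module
    have h2 : L.B l y1 = 0 := by rw [L.symm, hy1l]
    have h3 : L.q (h • l + y1) = h ^ 2 + L.q y1 := by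
      rw [q_add, q_smul, hl, map_smul, LinearMap.smul_apply, h2, smul_zero]
      ring
    rw [h1, q_add, q_smul, h3, map_smul, smul_eq_mul]
    refine dvd_add (dvd_add hy1 ?_) (dvd_mul_right _ _)
    exact (dvd_pow_self _ two_ne_zero).mul_right _
  obtain ⟨t, ht⟩ := hν2μ1.symm.mul_dvd hqμ hqν
  refine ⟨x - t • w0, ?_, ?_⟩
  · rw [q_sub, q_smul, hw, map_smul, smul_eq_mul, hxw, ht]
    ring
  · simp only [map_sub, map_smul, LinearMap.sub_apply, LinearMap.smul_apply, smul_eq_mul, hxl, hwl]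
    ring

end EvenForm

end Pool.Agent.MP4d0966
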