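import Pool.Agent.MP4d0966.Core

set_option autoImplicit false

/-! Even lattices with `A_2 = ⟨l1, l2⟩` and an isotropic vector `w0` orthogonal to `l1` with
`(w0, l2) = 2` or `3`: the two criteria agree in every rank. -/

namespace Pool.Agent.MP4d0966

namespace EvenForm

variable {N : Type*} [AddCommGroup N] (L : EvenForm N)

/-- last step: an isotropic vector from a vector with a divisibility -/
theorem isotropic_of_dvd {l w0 x : N} (hw : L.q w0 = 0) (hwl : L.B w0 l = 0) (hxl : L.B x l = 1)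
    (h : L.B x w0 ∣ L.q x) : ∃ w, L.q w = 0 ∧ L.B w l = 1 := by
  obtain ⟨t, ht⟩ := h
  refine ⟨x - t • w0, ?_, ?_⟩
  · rw [q_sub, q_smul, hw, map_smul, smul_eq_mul, ht]
    ring
  · simp only [map_sub, map_smul, LinearMap.sub_apply, LinearMap.smul_apply, smul_eq_mul, hxl, hwl]
    ring

/-- an isotropic vector orthogonal to `l1` and of divisibility one -/
theorem isotropic_of_coprime {l1 l2 w0 y : N} (h1 : L.q l1 = 1) (h12 : L.B l1 l2 = -1)
    (hw : L.q w0 = 0) (hwl : L.B w0 l1 = 0) (hc : IsCoprime (L.B l2 w0) (L.B y w0)) :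
    ∃ w, L.q w = 0 ∧ L.B w l1 = 1 := by
  obtain ⟨b, c, hbc⟩ := hc
  have h11 : L.B l1 l1 = 2 := by rw [L.hq, h1, mul_one]
  have h21 : L.B l2 l1 = -1 := by rw [L.symm, h12]
  have h1w : L.B l1 w0 = 0 := by rw [L.symm, hwl]
  -- a solution of the parity condition gives the vector
  have key : ∀ b c a : ℤ, b * L.B l2 w0 + c * L.B y w0 = 1 → 2 * a - b + c * L.B y l1 = 1 →
      ∃ w, L.q w = 0 ∧ L.B w l1 = 1 := by
    intro b c a hbc ha
    refine L.isotropic_of_dvd (x := a • l1 + b • l2 + c • y) hw hwl ?_ ?_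
    · simp only [map_add, map_smul, LinearMap.add_apply, LinearMap.smul_apply, smul_eq_mul, h11,
        h21]
      linarith
    · have h2 : L.B (a • l1 + b • l2 + c • y) w0 = 1 := by
        simp only [map_add, map_smul, LinearMap.add_apply, LinearMap.smul_apply, smul_eq_mul, h1w]
        linarith
      rw [h2]
      exact one_dvd _
  rcases Int.even_or_odd' (1 + b - c * L.B y l1) with ⟨u, hu | hu⟩
  · exact key b c u hbc (by linarith)
  · rcases Int.even_or_odd' (L.B y w0 + L.B l2 w0 * L.B y l1) with ⟨v, hv | hv⟩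
    · exfalso
      have h3 : 2 * (u * L.B l2 w0 + c * v) = 1 := by
        have h4 : b = 2 * u + c * L.B y l1 := by linarith
        have h5 : L.B y w0 = 2 * v - L.B l2 w0 * L.B y l1 := by linarith
        rw [← hbc, h4, h5]
        ring
      omega
    · refine key (b + L.B y w0) (c - L.B l2 w0) (u + v + 1) ?_ ?_
      · linear_combination hbc
      · linear_combination -hu - hv

/-- a hyperbolic plane gives isotropic vectors with pairing `1` modulo a prime -/
theorem isotropic_mod {l1 l2 e f : N} (h12 : L.B l1 l2 = -1)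
    (he : L.q e = 0) (hf : L.q f = 0) (hef : L.B e f = 1) (p : ℕ) (hp : p.Prime) :
    ∃ x, L.q x = 0 ∧ (p : ℤ) ∣ L.B x l1 - 1 := by
  have hcop : ∀ a : ℤ, ¬ (p : ℤ) ∣ a → ∃ a', (p : ℤ) ∣ a' * a - 1 := by
    intro a ha
    have h1 : IsCoprime (p : ℤ) a := (Nat.prime_iff_prime_int.mp hp).coprime_iff_not_dvd.mpr ha
    obtain ⟨r, s, hrs⟩ := h1
    exact ⟨s, -r, by linear_combination hrs⟩
  by_cases ha : (p : ℤ) ∣ L.B e l1
  · by_cases hb : (p : ℤ) ∣ L.B f l1
    · have hee : L.B e e = 0 := by rw [L.hq, he, mul_zero]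
      have hff : L.B f f = 0 := by rw [L.hq, hf, mul_zero]
      have hfe : L.B f e = 1 := by rw [L.symm, hef]
      have h21 : L.B l2 l1 = -1 := by rw [L.symm, h12]
      set r := L.B l2 f with hr
      set s := L.B l2 e with hs
      obtain ⟨z, hz⟩ : ∃ z, z = r • e + s • f - l2 := ⟨_, rfl⟩
      have hze : L.B z e = 0 := by
        rw [hz]
        simp only [map_sub, map_add, map_smul, LinearMap.sub_apply, LinearMap.add_apply,
          LinearMap.smul_apply, smul_eq_mul, hee, hfe, ← hs]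
        ring
      have hzf : L.B z f = 0 := by
        rw [hz]
        simp only [map_sub, map_add, map_smul, LinearMap.sub_apply, LinearMap.add_apply,
          LinearMap.smul_apply, smul_eq_mul, hff, hef, ← hr]
        ring
      have hzl : L.B z l1 = r * L.B e l1 + s * L.B f l1 + 1 := by
        rw [hz]
        simp only [map_sub, map_add, map_smul, LinearMap.sub_apply, LinearMap.add_apply,
          LinearMap.smul_apply, smul_eq_mul, h21]
        ring
      refine ⟨z - L.q z • e + f, ?_, ?_⟩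
      · simp only [q_sub, q_add, q_smul, map_sub, map_smul, LinearMap.sub_apply,
          LinearMap.smul_apply, smul_eq_mul, hze, hzf, he, hf, hef]
        ring
      · have h2 : L.B (z - L.q z • e + f) l1 - 1 =
            L.B e l1 * (r - L.q z) + L.B f l1 * (s + 1) := by
          simp only [map_sub, map_add, map_smul, LinearMap.sub_apply, LinearMap.add_apply,
            LinearMap.smul_apply, smul_eq_mul, hzl]
          ring
        rw [h2]
        exact dvd_add (ha.mul_right _) (hb.mul_right _)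
    · obtain ⟨b', hb'⟩ := hcop _ hb
      refine ⟨b' • f, by rw [q_smul, hf, mul_zero], ?_⟩
      simpa only [map_smul, LinearMap.smul_apply, smul_eq_mul] using hb'
  · obtain ⟨a', ha'⟩ := hcop _ ha
    refine ⟨a' • e, by rw [q_smul, he, mul_zero], ?_⟩
    simpa only [map_smul, LinearMap.smul_apply, smul_eq_mul] using ha'

/-- the case `(w0, l2) = 2` -/
theorem exists_w_two {l1 l2 w0 e f : N} (h1 : L.q l1 = 1) (h2 : L.q l2 = 1)
    (h12 : L.B l1 l2 = -1) (hw : L.q w0 = 0) (hwl : L.B w0 l1 = 0) (hw2 : L.B w0 l2 = 2)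
    (he : L.q e = 0) (hf : L.q f = 0) (hef : L.B e f = 1) :
    ∃ w, L.q w = 0 ∧ L.B w l1 = 1 := by
  have h11 : L.B l1 l1 = 2 := by rw [L.hq, h1, mul_one]
  have h22 : L.B l2 l2 = 2 := by rw [L.hq, h2, mul_one]
  have h21 : L.B l2 l1 = -1 := by rw [L.symm, h12]
  have h1w : L.B l1 w0 = 0 := by rw [L.symm, hwl]
  have h2w : L.B l2 w0 = 2 := by rw [L.symm, hw2]
  by_cases hdiv : ∃ y, ¬ (2 : ℤ) ∣ L.B y w0
  · obtain ⟨y, hy⟩ := hdiv
    refine L.isotropic_of_coprime (y := y) h1 h12 hw hwl ?_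
    rw [h2w]
    exact Int.prime_two.coprime_iff_not_dvd.mpr hy
  push Not at hdiv
  obtain ⟨g, hg⟩ : ∃ g, g = l1 + (2 : ℤ) • l2 := ⟨_, rfl⟩
  have hgq : L.q g = 3 := by
    rw [hg, q_add, q_smul, h1, h2, map_smul, smul_eq_mul, h12]; norm_num
  have hgl : L.B g l1 = 0 := by
    rw [hg]
    simp only [map_add, map_smul, LinearMap.add_apply, LinearMap.smul_apply, smul_eq_mul, h11, h21]
    norm_num
  have hgw : L.B g w0 = 4 := by
    rw [hg]
    simp only [map_add, map_smul, LinearMap.add_apply, LinearMap.smul_apply, smul_eq_mul, h1w, h2w]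
    norm_num
  have hxg : ∀ x, L.B x g = L.B x l1 + 2 * L.B x l2 := by
    intro x
    rw [hg]
    simp only [map_add, map_smul, smul_eq_mul]
  obtain ⟨x0, hx0, k, hk⟩ := L.isotropic_mod h12 he hf hef 2 Nat.prime_two
  push_cast at hk
  obtain ⟨x1, hx1⟩ : ∃ x1, x1 = x0 + (2 * k) • l2 := ⟨_, rfl⟩
  have hx1l : L.B x1 l1 = 1 := by
    rw [hx1]
    simp only [map_add, map_smul, LinearMap.add_apply, LinearMap.smul_apply, smul_eq_mul, h21]
    linarith
  have hx1q : L.q x1 = 2 * (2 * k ^ 2 + k * L.B x0 l2) := by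
    rw [hx1, q_add, q_smul, hx0, h2, map_smul, smul_eq_mul]
    ring
  generalize 2 * k ^ 2 + k * L.B x0 l2 = c at hx1q
  obtain ⟨μ, hμ⟩ := hdiv x1
  have hgen : ∀ j : ℤ, L.B (x1 + j • g) l1 = 1 ∧ L.B (x1 + j • g) w0 = 2 * μ + 4 * j ∧
      L.q (x1 + j • g) = 2 * c + 3 * j ^ 2 + j * (1 + 2 * L.B x1 l2) := by
    intro j
    refine ⟨?_, ?_, ?_⟩
    · simp only [map_add, map_smul, LinearMap.add_apply, LinearMap.smul_apply, smul_eq_mul, hgl,
        hx1l]
      ring
    · simp only [map_add, map_smul, LinearMap.add_apply, LinearMap.smul_apply, smul_eq_mul, hgw,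
        hμ]
      ring
    · rw [q_add, q_smul, hgq, hx1q, map_smul, smul_eq_mul, hxg, hx1l]
      ring
  rcases Int.even_or_odd' μ with ⟨t, ht | ht⟩
  · -- `μ` even
    obtain ⟨ha1, ha2, ha3⟩ := hgen (1 - t)
    obtain ⟨hb1, hb2, hb3⟩ := hgen (-1 - t)
    have ha4 : L.B (x1 + (1 - t) • g) w0 = 4 := by rw [ha2, ht]; ring
    have hb4 : L.B (x1 + (-1 - t) • g) w0 = -4 := by rw [hb2, ht]; ring
    have h5 : L.q (x1 + (1 - t) • g) % 4 = 0 ∨ L.q (x1 + (-1 - t) • g) % 4 = 0 := by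
      rw [ha3, hb3]
      generalize L.B x1 l2 = d
      rcases Int.even_or_odd' t with ⟨t', ht' | ht'⟩
      · have e1 : 2 * c + 3 * (1 - t) ^ 2 + (1 - t) * (1 + 2 * d) =
            2 * (c + 2 + d) + 4 * (3 * t' ^ 2 - 3 * t' - t' * d) - 2 * t' := by
          rw [ht']; ring
        have e2 : 2 * c + 3 * (-1 - t) ^ 2 + (-1 - t) * (1 + 2 * d) =
            2 * (c + 1 - d) + 4 * (3 * t' ^ 2 + 3 * t' - t' * d) - 2 * t' := by
          rw [ht']; ring
        omega
      · have e1 : 2 * c + 3 * (1 - t) ^ 2 + (1 - t) * (1 + 2 * d) =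
            2 * c + 4 * (3 * t' ^ 2 - t' * d) - 2 * t' := by
          rw [ht']; ring
        have e2 : 2 * c + 3 * (-1 - t) ^ 2 + (-1 - t) * (1 + 2 * d) =
            2 * c + 4 * (3 * t' ^ 2 + 6 * t' + 3 - t' * d - d) - 2 - 2 * t' := by
          rw [ht']; ring
        omega
    rcases h5 with h5 | h5
    · exact L.isotropic_of_dvd hw hwl ha1 (by rw [ha4]; exact Int.dvd_of_emod_eq_zero h5)
    · refine L.isotropic_of_dvd hw hwl hb1 ?_
      rw [hb4]
      exact (neg_dvd).mpr (Int.dvd_of_emod_eq_zero h5)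
  · -- `μ` odd
    obtain ⟨ha1, ha2, ha3⟩ := hgen (-t)
    refine L.isotropic_of_dvd hw hwl ha1 ?_
    rw [ha2, ha3, ht]
    rcases Int.even_or_odd' t with ⟨t', ht' | ht'⟩
    · refine ⟨c + 6 * t' ^ 2 - t' * (1 + 2 * L.B x1 l2), ?_⟩
      rw [ht']; ring
    · refine ⟨c + 6 * t' ^ 2 + 6 * t' + 1 - t' * (1 + 2 * L.B x1 l2) - L.B x1 l2, ?_⟩
      rw [ht']; ring

/-- the case `(w0, l2) = 3` -/
theorem exists_w_three {l1 l2 w0 e f : N} (h1 : L.q l1 = 1) (h2 : L.q l2 = 1)
    (h12 : L.B l1 l2 = -1) (hw : L.q w0 = 0) (hwl : L.B w0 l1 = 0) (hw2 : L.B w0 l2 = 3)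
    (he : L.q e = 0) (hf : L.q f = 0) (hef : L.B e f = 1) :
    ∃ w, L.q w = 0 ∧ L.B w l1 = 1 := by
  have h11 : L.B l1 l1 = 2 := by rw [L.hq, h1, mul_one]
  have h22 : L.B l2 l2 = 2 := by rw [L.hq, h2, mul_one]
  have h21 : L.B l2 l1 = -1 := by rw [L.symm, h12]
  have h1w : L.B l1 w0 = 0 := by rw [L.symm, hwl]
  have h2w : L.B l2 w0 = 3 := by rw [L.symm, hw2]
  by_cases hdiv : ∃ y, ¬ (3 : ℤ) ∣ L.B y w0
  · obtain ⟨y, hy⟩ := hdiv
    refine L.isotropic_of_coprime (y := y) h1 h12 hw hwl ?_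
    rw [h2w]
    exact Int.prime_three.coprime_iff_not_dvd.mpr hy
  push Not at hdiv
  obtain ⟨g, hg⟩ : ∃ g, g = l1 + (2 : ℤ) • l2 := ⟨_, rfl⟩
  have hgq : L.q g = 3 := by
    rw [hg, q_add, q_smul, h1, h2, map_smul, smul_eq_mul, h12]; norm_num
  have hgl : L.B g l1 = 0 := by
    rw [hg]
    simp only [map_add, map_smul, LinearMap.add_apply, LinearMap.smul_apply, smul_eq_mul, h11, h21]
    norm_num
  have hg2 : L.B g l2 = 3 := by
    rw [hg]
    simp only [map_add, map_smul, LinearMap.add_apply, LinearMap.smul_apply, smul_eq_mul, h12, h22]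
    norm_num
  have hgw : L.B g w0 = 6 := by
    rw [hg]
    simp only [map_add, map_smul, LinearMap.add_apply, LinearMap.smul_apply, smul_eq_mul, h1w, h2w]
    norm_num
  by_cases hdivg : ∃ y, ¬ (3 : ℤ) ∣ L.B y g
  · obtain ⟨y, hy⟩ := hdivg
    refine L.isotropic_of_coprime (w0 := (2 : ℤ) • g - w0) (y := y) h1 h12 ?_ ?_ ?_
    · rw [q_sub, q_smul, hgq, hw, map_smul, LinearMap.smul_apply, smul_eq_mul, hgw]; norm_num
    · simp only [map_sub, map_smul, LinearMap.sub_apply, LinearMap.smul_apply, smul_eq_mul, hgl,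
        hwl]
      norm_num
    · have h3 : L.B l2 ((2 : ℤ) • g - w0) = 3 := by
        rw [L.symm]
        simp only [map_sub, map_smul, LinearMap.sub_apply, LinearMap.smul_apply, smul_eq_mul, hg2,
          hw2]
        norm_num
      rw [h3]
      refine Int.prime_three.coprime_iff_not_dvd.mpr ?_
      intro h4
      simp only [map_sub, map_smul, smul_eq_mul] at h4
      have h5 := hdiv y
      omega
  push Not at hdivg
  obtain ⟨x0, hx0, k, hk⟩ := L.isotropic_mod h12 he hf hef 3 Nat.prime_three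
  push_cast at hk
  -- a vector with odd quotient suffices
  have key : ∀ x1 μ : _, L.B x1 l1 = 1 → (3 : ℤ) ∣ L.q x1 → L.B x1 w0 = 3 * (2 * μ + 1) →
      ∃ w, L.q w = 0 ∧ L.B w l1 = 1 := by
    intro x1 μ hx1l ⟨c, hc⟩ hμ
    obtain ⟨d, hd⟩ := hdivg x1
    refine L.isotropic_of_dvd (x := x1 + (-μ) • g) hw hwl ?_ ?_
    · simp only [map_add, map_smul, LinearMap.add_apply, LinearMap.smul_apply, smul_eq_mul, hgl,
        hx1l]
      ring
    · have h3 : L.B (x1 + (-μ) • g) w0 = 3 := by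
        simp only [map_add, map_smul, LinearMap.add_apply, LinearMap.smul_apply, smul_eq_mul, hgw,
          hμ]
        ring
      rw [h3, q_add, q_smul, hgq, hc, map_smul, smul_eq_mul, hd]
      exact ⟨c + μ ^ 2 - μ * d, by ring⟩
  obtain ⟨x1, hx1⟩ : ∃ x1, x1 = x0 + (3 * k) • l2 := ⟨_, rfl⟩
  have hx1l : L.B x1 l1 = 1 := by
    rw [hx1]
    simp only [map_add, map_smul, LinearMap.add_apply, LinearMap.smul_apply, smul_eq_mul, h21]
    linarith
  have hx1q : (3 : ℤ) ∣ L.q x1 := by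
    rw [hx1, q_add, q_smul, hx0, h2, map_smul, smul_eq_mul]
    exact ⟨3 * k ^ 2 + k * L.B x0 l2, by ring⟩
  obtain ⟨μ, hμ⟩ := hdiv x1
  rcases Int.even_or_odd' μ with ⟨t, ht | ht⟩
  · refine key ((4 : ℤ) • x1 + (3 : ℤ) • l2) (4 * t + 1) ?_ ?_ ?_
    · simp only [map_add, map_smul, LinearMap.add_apply, LinearMap.smul_apply, smul_eq_mul, h21,
        hx1l]
      norm_num
    · obtain ⟨c, hc⟩ := hx1q
      rw [q_add, q_smul, q_smul, h2, map_smul, map_smul, LinearMap.smul_apply, smul_eq_mul,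
        smul_eq_mul, hc]
      exact ⟨16 * c + 3 + 4 * L.B x1 l2, by ring⟩
    · simp only [map_add, map_smul, LinearMap.add_apply, LinearMap.smul_apply, smul_eq_mul, h2w,
        hμ, ht]
      ring
  · exact key x1 t hx1l hx1q (by rw [hμ, ht])

end EvenForm

end Pool.Agent.MP4d0966
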