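import Mathlib

set_option autoImplicit false

open scoped NumberTheorySymbols

namespace Pool.Agent.MP4d0966.R4

/-- `J(D | ·)` depends on the class modulo `4 |D|` only. -/
theorem jacobi_congr {D : ℤ} {r r' : ℕ} (hr : Odd r) (hr' : Odd r')
    (h : r ≡ r' [MOD 4 * D.natAbs]) : J(D | r) = J(D | r') := by
  rw [jacobiSym.mod_right D hr, jacobiSym.mod_right D hr', h]

theorem coprime_of_modEq {a b n : ℕ} (h : a ≡ b [MOD n]) (hb : b.Coprime n) : a.Coprime n := by
  rw [Nat.coprime_iff_gcd_eq_one, h.gcd_eq]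
  exact hb

theorem odd_of_coprime {r n : ℕ} (h : r.Coprime n) (hn : 2 ∣ n) : Odd r := by
  rw [← Nat.not_even_iff_odd]
  intro he
  have h1 := Nat.dvd_gcd he.two_dvd hn
  rw [h] at h1
  omega

theorem odd_mul_mod_four {r r' : ℕ} (hr : Odd r) (h : r' ≡ r [MOD 4]) : r * r' % 4 = 1 := by
  have h1 : r % 4 = 1 ∨ r % 4 = 3 := by
    obtain ⟨k, hk⟩ := hr
    omega
  have h2 : r' % 4 = r % 4 := h
  rcases h1 with h1 | h1 <;> simp [Nat.mul_mod, h2, h1]

theorem odd_mul_mod_four' {r r' : ℕ} (hr : Odd r) (h : 4 ∣ r + r') : r * r' % 4 = 3 := by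
  have h1 : r % 4 = 1 ∧ r' % 4 = 3 ∨ r % 4 = 3 ∧ r' % 4 = 1 := by
    obtain ⟨k, hk⟩ := hr
    omega
  rcases h1 with ⟨h1, h2⟩ | ⟨h1, h2⟩ <;> simp [Nat.mul_mod, h1, h2]

/-- the Jacobi symbols of two numbers whose product is known -/
theorem jacobi_mul_eq {a : ℤ} {r r' : ℕ} (hr : a.gcd r = 1) (hr0 : r ≠ 0) (hr0' : r' ≠ 0)
    {s : ℤ} (h : J(a | r * r') = s) : J(a | r') = s * J(a | r) := by
  rw [jacobiSym.mul_right' a hr0 hr0'] at h
  have h1 := jacobiSym.sq_one hr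
  rw [← h]
  linear_combination (-J(a | r')) * h1

/-- the character of a positive discriminant is even -/
theorem jacobi_even {E m r : ℕ} (hE : E ≠ 0) (hr : r.Coprime (2 * E)) (h : 4 * E ∣ m + r ^ 2) :
    J(E | m) = 1 := by
  have hrodd : Odd r := odd_of_coprime hr (dvd_mul_right _ _)
  have hrE : r.Coprime E := hr.coprime_dvd_right (dvd_mul_left _ _)
  have hr8 : r ^ 2 % 8 = 1 := by
    obtain ⟨k, hk⟩ := hrodd
    have h1 : r % 8 = 1 ∨ r % 8 = 3 ∨ r % 8 = 5 ∨ r % 8 = 7 := by omega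
    rcases h1 with h1 | h1 | h1 | h1 <;> simp [Nat.pow_mod, h1]
  have hm4 : m % 4 = 3 := by
    have h1 : 4 ∣ m + r ^ 2 := (dvd_mul_right _ _).trans h
    omega
  have hmodd : Odd m := by rw [Nat.odd_iff]; omega
  obtain ⟨k, E1, hE1, rfl⟩ := Nat.exists_eq_two_pow_mul_odd hE
  have h2 : J(((2 : ℕ) ^ k : ℕ) | m) = 1 := by
    rcases Nat.eq_zero_or_pos k with rfl | hk
    · simp [jacobiSym.one_left]
    · have h3 : 8 ∣ m + r ^ 2 := by
        refine Dvd.dvd.trans ?_ h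
        obtain ⟨j, rfl⟩ : ∃ j, k = j + 1 := ⟨k - 1, by omega⟩
        exact ⟨2 ^ j * E1, by ring⟩
      have hm8 : m % 8 = 7 := by omega
      push_cast
      rw [jacobiSym.pow_left, jacobiSym.at_two hmodd]
      have h4 : ZMod.χ₈ m = 1 := by
        have h5 : ((m : ℕ) : ZMod 8) = 7 := by
          have h6 : ((m : ℕ) : ZMod 8) = ((m % 8 : ℕ) : ZMod 8) := by simp
          rw [h6, hm8]
          rfl
        rw [h5]
        decide
      rw [h4, one_pow]
  have hrE1 : r.Coprime E1 := hrE.coprime_dvd_right (dvd_mul_left _ _)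
  have h5 : J((m : ℤ) | E1) = J(-1 | E1) := by
    have h6 : J((m : ℤ) | E1) = J(-1 * (r : ℤ) ^ 2 | E1) := by
      apply jacobiSym.mod_left'
      have h7 : ((E1 : ℕ) : ℤ) ∣ (m : ℤ) - (-1 * (r : ℤ) ^ 2) := by
        have h8 : E1 ∣ m + r ^ 2 := Dvd.dvd.trans ⟨4 * 2 ^ k, by ring⟩ h
        have h9 : (E1 : ℤ) ∣ ((m + r ^ 2 : ℕ) : ℤ) := by exact_mod_cast h8
        push_cast at h9
        convert h9 using 1
        ring
      exact (Int.modEq_iff_dvd.mpr h7).symm
    rw [h6, jacobiSym.mul_left, jacobiSym.sq_one', mul_one]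
    simpa using hrE1
  have h10 : J((E1 : ℤ) | m) = 1 := by
    have hE14 : E1 % 4 = 1 ∨ E1 % 4 = 3 := by
      obtain ⟨j, hj⟩ := hE1
      omega
    rcases hE14 with h11 | h11
    · rw [jacobiSym.quadratic_reciprocity_one_mod_four h11 hmodd, h5, jacobiSym.at_neg_one hE1,
        ZMod.χ₄_nat_one_mod_four h11]
    · rw [jacobiSym.quadratic_reciprocity_three_mod_four h11 hm4, h5, jacobiSym.at_neg_one hE1,
        ZMod.χ₄_nat_three_mod_four h11]
      norm_num
  push_cast at h2 ⊢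
  rw [jacobiSym.mul_left, h2, h10, one_mul]

/-- the character of a negative discriminant is odd -/
theorem jacobi_neg {D : ℤ} {r r' : ℕ} (hD : D < 0) (hr0 : r ≠ 0) (hr0' : r' ≠ 0)
    (hr : r.Coprime (2 * D.natAbs)) (h : 4 * D.natAbs ∣ r + r') : J(D | r') = - J(D | r) := by
  have hE : D.natAbs ≠ 0 := by omega
  have hDE : D = -1 * (D.natAbs : ℤ) := by omega
  have hrodd : Odd r := odd_of_coprime hr (dvd_mul_right _ _)
  have hrD : D.gcd r = 1 := by
    rw [Int.gcd_eq_natAbs, Int.natAbs_natCast, Nat.gcd_comm]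
    exact hr.coprime_dvd_right (dvd_mul_left _ _)
  have hmul : J(D | r * r') = -1 := by
    have h1 : 4 * D.natAbs ∣ r * r' + r ^ 2 := by
      have h2 : r * r' + r ^ 2 = (r + r') * r := by ring
      rw [h2]
      exact h.mul_right _
    have h2 := jacobi_even hE hr h1
    have h3 : r * r' % 4 = 3 := odd_mul_mod_four' hrodd ((dvd_mul_right _ _).trans h)
    have h4 : Odd (r * r') := by rw [Nat.odd_iff]; omega
    rw [hDE, jacobiSym.mul_left, h2, jacobiSym.at_neg_one h4, ZMod.χ₄_nat_three_mod_four h3]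
    norm_num
  rw [jacobi_mul_eq hrD hr0 hr0' hmul]
  ring

/-- flipping the character at an odd prime `p` dividing `D` to an odd power -/
theorem jacobi_flip_odd {D D1 : ℤ} {p v r r' : ℕ} {g : ℤ} (hp : p.Prime) (hp2 : p ≠ 2)
    (hv : Odd v) (hD : D = (p : ℤ) ^ v * D1) (hr0' : r' ≠ 0) (hodd : Odd r) (hrp : r.Coprime p)
    (h1 : r' ≡ r [MOD 4 * D1.natAbs]) (h4 : r' ≡ r [MOD 4]) (hg : J(g | p) = -1)
    (h2 : (r' : ℤ) ≡ g * r [ZMOD p]) : J(D | r') = - J(D | r) := by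
  have hr0 : r ≠ 0 := by
    rintro rfl
    simp at hodd
  have hodd' : Odd r' := by
    have h5 : r' % 4 = r % 4 := h4
    rw [Nat.odd_iff] at hodd ⊢
    omega
  have hpodd : Odd p := hp.odd_of_ne_two hp2
  have hpr : (p : ℤ).gcd r = 1 := by
    rw [Int.gcd_natCast_natCast]
    exact hrp.symm
  have hmul : J(p | r * r') = -1 := by
    rw [jacobiSym.quadratic_reciprocity_one_mod_four' hpodd (odd_mul_mod_four hodd h4)]
    have h5 : J(((r * r' : ℕ) : ℤ) | p) = J(g * (r : ℤ) ^ 2 | p) := by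
      apply jacobiSym.mod_left'
      have h6 := h2.mul_left (r : ℤ)
      have h7 : (r : ℤ) * (g * r) = g * (r : ℤ) ^ 2 := by ring
      rw [h7] at h6
      push_cast
      exact h6
    rw [h5, jacobiSym.mul_left, hg, jacobiSym.sq_one', mul_one]
    rw [Int.gcd_natCast_natCast]
    exact hrp
  have h3 : J(p | r') = - J(p | r) := by
    rw [jacobi_mul_eq hpr hr0 hr0' hmul]
    ring
  rw [hD, jacobiSym.mul_left, jacobiSym.mul_left, jacobiSym.pow_left, jacobiSym.pow_left, h3,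
    jacobi_congr hodd' hodd h1, hv.neg_pow]
  ring

/-- flipping the character at `2` if `2` divides `D` to an odd power -/
theorem jacobi_flip_two {D D1 : ℤ} {v r r' : ℕ} (hv : Odd v) (hD : D = (2 : ℤ) ^ v * D1)
    (hr0' : r' ≠ 0) (hodd : Odd r)
    (h1 : r' ≡ r [MOD 4 * D1.natAbs]) (h8 : r' ≡ 5 * r [MOD 8]) : J(D | r') = - J(D | r) := by
  have hr0 : r ≠ 0 := by
    rintro rfl
    simp at hodd
  have h8' : r' % 8 = 5 * r % 8 := h8
  have hodd' : Odd r' := by
    rw [Nat.odd_iff] at hodd ⊢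
    omega
  have hpr : (2 : ℤ).gcd r = 1 := by
    have h5 : (2 : ℤ).gcd r = Nat.gcd 2 r := rfl
    rw [h5]
    exact (Nat.coprime_two_left).mpr hodd
  have hmul : J(2 | r * r') = -1 := by
    have h5 : (r * r') % 8 = 5 := by
      have h6 : r % 8 = 1 ∨ r % 8 = 3 ∨ r % 8 = 5 ∨ r % 8 = 7 := by
        rw [Nat.odd_iff] at hodd
        omega
      rcases h6 with h6 | h6 | h6 | h6 <;> simp [Nat.mul_mod, h8', h6]
    have h7 : Odd (r * r') := by rw [Nat.odd_iff]; omega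
    rw [jacobiSym.at_two h7]
    have h9 : ((r * r' : ℕ) : ZMod 8) = 5 := by
      have h10 : ((r * r' : ℕ) : ZMod 8) = ((r * r' % 8 : ℕ) : ZMod 8) := by simp
      rw [h10, h5]
      rfl
    rw [h9]
    decide
  have h3 : J(2 | r') = - J(2 | r) := by
    rw [jacobi_mul_eq hpr hr0 hr0' hmul]
    ring
  rw [hD, jacobiSym.mul_left, jacobiSym.mul_left, jacobiSym.pow_left, jacobiSym.pow_left, h3,
    jacobi_congr hodd' hodd h1, hv.neg_pow]
  ring

end Pool.Agent.MP4d0966.R4
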