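import Pool.Agent.MP4d0966.R4Lattice

set_option autoImplicit false

open scoped NumberTheorySymbols

namespace Pool.Agent.MP4d0966.R4

open Module

variable {N : Type*} [AddCommGroup N] {L : EvenForm N}

/-- the coordinate `X` is `(w, w0) / n` up to sign -/
theorem coord_eq {b : Basis (Fin 4) ℤ N} {l1 w0 : N} {n0 j g t1 β Q τ D n : ℤ}
    (C : Coords L b l1 w0 n0 j g t1 β Q τ D) (hn : ∀ x, n ∣ L.B w0 x)
    (hn' : ∃ z, L.B w0 z = n) :
    (∀ w X, L.B w w0 = n * X → X = b.repr w 0 ∨ X = - b.repr w 0) ∧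
    ∀ w, L.B w w0 = n * b.repr w 0 ∨ L.B w w0 = n * (- b.repr w 0) := by
  have hw0v : ∀ v, L.B w0 v = g * (b.repr v 0 * n0) := by
    intro v
    rw [C.hw0, map_smul, LinearMap.smul_apply, C.hBw, smul_eq_mul]
  have h1 : n ∣ g * n0 := by
    have h2 := hn (b 0)
    rw [hw0v, Basis.repr_self, Finsupp.single_eq_same, one_mul] at h2
    exact h2
  have h2 : g * n0 ∣ n := by
    obtain ⟨z, hz⟩ := hn'
    rw [hw0v] at hz
    exact ⟨b.repr z 0, by rw [← hz]; ring⟩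
  have hgn : g * n0 ≠ 0 := mul_ne_zero C.g_ne C.n0_ne
  have h3 : n = g * n0 ∨ n = -(g * n0) :=
    Int.associated_iff.mp (associated_of_dvd_dvd h1 h2)
  constructor
  · intro w X h
    rw [L.symm, hw0v] at h
    rcases h3 with h3 | h3
    · left
      rw [h3] at h
      have h4 : g * n0 * (X - b.repr w 0) = 0 := by linear_combination -h
      have h5 := (mul_eq_zero.mp h4).resolve_left hgn
      linarith
    · right
      rw [h3] at h
      have h4 : g * n0 * (X + b.repr w 0) = 0 := by linear_combination h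
      have h5 := (mul_eq_zero.mp h4).resolve_left hgn
      linarith
  · intro w
    rw [L.symm, hw0v]
    rcases h3 with h3 | h3
    · left
      rw [h3]
      ring
    · right
      rw [h3]
      ring

theorem obstruction_of_not [Module.Free ℤ N] [Module.Finite ℤ N] (hN : Module.finrank ℤ N = 4)
    (hnd : ∀ x, (∀ y, L.B x y = 0) → x = 0) {l1 l2 w0 e f : N} (hl1 : L.q l1 = 1)
    (hl2 : L.q l2 = 1) (hl12 : L.B l1 l2 = -1) (hw0 : w0 ≠ 0) (hw : L.q w0 = 0)
    (hlw : L.B l1 w0 = 0) (he : L.q e = 0) (hf : L.q f = 0) (hef : L.B e f = 1)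
    (hno : ¬ ∃ w, L.q w = 0 ∧ L.B w l1 = 1) {n : ℤ} (hn : ∀ x, n ∣ L.B w0 x)
    (hn' : ∃ z, L.B w0 z = n) (b' : Basis (Fin 4) ℤ N) :
    ∃ (d : ℕ) (t : ℤ), 1 < d ∧ Squarefree d ∧
      (Matrix.of fun i j => L.B (b' i) (b' j)).det = d ^ 3 * t ^ 2 ∧
      (∀ p : ℕ, p.Prime → p ∣ d → p % 12 = 1 ∧
        (∀ c, L.B c l1 = 0 → ∃ s : ℤ, (p : ℤ) ∣ L.q c - s ^ 2) ∧
        ∃ u v : N, (∀ x, (p : ℤ) ∣ L.B u x) ∧
          (∀ x, (p : ℤ) ∣ L.B v x) ∧ ∀ (i j : ℤ) (x : N), i • u + j • v = (p : ℤ) • x →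
            (p : ℤ) ∣ i ∧ (p : ℤ) ∣ j) ∧
      ∀ (w : N) (X : ℤ), (d : ℤ) ∣ L.q w → (d : ℤ) ∣ L.B w l1 - 1 → L.B w w0 = n * X →
        J(X | d) = -1 := by
  obtain ⟨b, n0, j, g, t1, β, Q, τ, D, C⟩ := exists_coords L hN hnd hl1 hw0 hw hlw
  have hn0 := C.n0_ne
  have hD0 := C.D_ne
  -- the solution coming from the hyperbolic plane
  obtain ⟨f', hf', hcop, hfw⟩ := L.exists_good hnd he hf hef hl1 (x1 := -l2)
    (by rw [map_neg, hl12, neg_neg]) hw hw0 hlw (2 * n0 * D)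
    (mul_ne_zero (mul_ne_zero two_ne_zero hn0) hD0)
  have hX' : b.repr f' 0 ≠ 0 := by
    intro h
    apply hfw
    rw [L.symm, C.hw0, map_smul, LinearMap.smul_apply, C.hBw, h, zero_mul, smul_zero]
  have h1 : 4 * n0 * b.repr f' 0 ∣ (L.B l1 f') ^ 2 + Q * (b.repr f' 0) ^ 2
      + 2 * τ * (b.repr f' 0) * (b.repr f' 3) - D * (b.repr f' 3) ^ 2 := by
    have h2 := C.four_q f'
    rw [hf'] at h2
    exact ⟨-(b.repr f' 1 - j * b.repr f' 2), by linear_combination -h2⟩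
  have h2 : 4 * n0 * b.repr l2 0 ∣ Q * (b.repr l2 0) ^ 2
      + 2 * τ * (b.repr l2 0) * (b.repr l2 3) - D * (b.repr l2 3) ^ 2 - 3 := by
    have h2 := C.four_q l2
    rw [hl2, hl12] at h2
    exact ⟨-(b.repr l2 1 - j * b.repr l2 2), by linear_combination -h2⟩
  have hno' : ¬ ∃ X y : ℤ, X ≠ 0 ∧ 4 * n0 * X ∣ 1 + Q * X ^ 2 + 2 * τ * X * y - D * y ^ 2 := by
    rintro ⟨X, y, -, h⟩
    exact hno (isotropic_of_sol L C h)
  obtain ⟨hDpos, hDsq, hJ, hDp⟩ := core hn0 hD0 C.D_mod C.τ_even C.Qτ hcop hX' h1 h2 hno'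
  set A := L.B l1 f' with hA
  set X' := b.repr f' 0 with hX'def
  obtain ⟨d, c, hd1, hdsq, hDdc, hdp⟩ := exists_odd_part hDpos hDsq
  have hdp' : ∀ p : ℕ, p.Prime → p ∣ d → p % 12 = 1 ∧ (p : ℤ) ∣ n0 ∧ (p : ℤ) ∣ τ ∧ (p : ℤ) ∣ D ∧
        (p : ℤ) ∣ A ^ 2 + Q * X' ^ 2 ∧ ¬ (p : ℤ) ∣ X' ∧ ¬ (p : ℤ) ∣ A := by
    intro p hp hpd
    obtain ⟨v, D1, hv, hD1, hpD1⟩ := hdp p hp hpd
    exact hDp p v D1 hp hv hD1 hpD1
  have hd4 : d % 4 = 1 := mod_four_of_primes d hdsq.ne_zero fun p hp hpd => by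
    have := (hdp' p hp hpd).1
    omega
  have hJd := hJ d c hd4 hDdc
  have hdn0 : (d : ℤ) ∣ n0 := by
    have h3 : d ∣ n0.natAbs := by
      rw [← Nat.prod_primeFactors_of_squarefree hdsq]
      apply Finset.prod_primes_dvd
      · intro p hp
        exact (Nat.prime_of_mem_primeFactors hp).prime
      · intro p hp
        exact Int.natCast_dvd.mp (hdp' p (Nat.prime_of_mem_primeFactors hp)
          (Nat.dvd_of_mem_primeFactors hp)).2.1
    exact Int.natCast_dvd.mpr h3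
  obtain ⟨n1, hn1⟩ := hdn0
  -- the form modulo `p`
  have hmod : ∀ p : ℕ, p.Prime → p ∣ d → ∀ v : N,
      (p : ℤ) ∣ 4 * L.q v - ((L.B l1 v) ^ 2 + Q * b.repr v 0 ^ 2) := by
    intro p hp hpd v
    obtain ⟨hp12, hpn0, hpτ, hpD, -⟩ := hdp' p hp hpd
    have h3 : 4 * L.q v - ((L.B l1 v) ^ 2 + Q * b.repr v 0 ^ 2) =
        τ * (2 * b.repr v 0 * b.repr v 3) - D * b.repr v 3 ^ 2
        + n0 * (4 * b.repr v 0 * (b.repr v 1 - j * b.repr v 2)) := by
      linear_combination C.four_q v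
    rw [h3]
    exact dvd_add (dvd_sub (hpτ.mul_right _) (hpD.mul_right _)) (hpn0.mul_right _)
  refine ⟨d, n1 * c, hd1, hdsq, ?_, ?_, ?_⟩
  · rw [C.det_eq b', hn1, hDdc]
    ring
  · intro p hp hpd
    obtain ⟨hp12, hpn0, hpτ, hpD, hpAX, hpX', hpA⟩ := hdp' p hp hpd
    have : Fact p.Prime := ⟨hp⟩
    have hp2 : (2 : ZMod p) ≠ 0 := by
      intro h
      have h3 : ((2 : ℕ) : ZMod p) = 0 := by exact_mod_cast h
      rw [ZMod.natCast_eq_zero_iff] at h3
      have h4 := (Nat.prime_dvd_prime_iff_eq hp Nat.prime_two).mp h3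
      omega
    refine ⟨hp12, ?_, b 1, (2 : ℤ) • b 3 - β • b 2, ?_, ?_, ?_⟩
    · intro c' hc'
      obtain ⟨i, hi⟩ : IsSquare (-1 : ZMod p) :=
        ZMod.exists_sq_eq_neg_one_iff.mpr (by omega)
      have h3 := hmod p hp hpd c'
      rw [L.symm l1 c', hc'] at h3
      have h4 : (4 : ZMod p) * (L.q c' : ZMod p) = (Q : ZMod p) * (b.repr c' 0 : ZMod p) ^ 2 := by
        rw [← ZMod.intCast_zmod_eq_zero_iff_dvd] at h3
        push_cast at h3
        linear_combination h3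
      have h5 : (A : ZMod p) ^ 2 + (Q : ZMod p) * (X' : ZMod p) ^ 2 = 0 := by
        rw [← ZMod.intCast_zmod_eq_zero_iff_dvd] at hpAX
        push_cast at hpAX
        exact hpAX
      have h6 : (X' : ZMod p) ≠ 0 := by
        intro h
        exact hpX' ((ZMod.intCast_zmod_eq_zero_iff_dvd _ _).mp h)
      obtain ⟨s, hs⟩ := ZMod.intCast_surjective
        (i * (A : ZMod p) * (b.repr c' 0 : ZMod p) / (2 * (X' : ZMod p)))
      refine ⟨s, ?_⟩
      rw [← ZMod.intCast_zmod_eq_zero_iff_dvd]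
      push_cast
      rw [hs]
      have h7 : (4 : ZMod p) * (X' : ZMod p) ^ 2 ≠ 0 := by
        have h8 : (4 : ZMod p) = 2 * 2 := by norm_num
        rw [h8]
        positivity
      have h9 : (4 : ZMod p) * (X' : ZMod p) ^ 2 * ((L.q c' : ZMod p)
          - (i * (A : ZMod p) * (b.repr c' 0 : ZMod p) / (2 * (X' : ZMod p))) ^ 2) = 0 := by
        field_simp
        linear_combination 4 * (X' : ZMod p) ^ 2 * h4 + 4 * (b.repr c' 0 : ZMod p) ^ 2 * h5
          + 4 * (A : ZMod p) ^ 2 * (b.repr c' 0 : ZMod p) ^ 2 * hi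
      exact (mul_eq_zero.mp h9).resolve_left h7
    · intro x
      rw [C.hBw]
      exact hpn0.mul_left _
    · intro x
      rw [C.hBu]
      exact dvd_sub ((dvd_add hpτ (hpn0.mul_left _)).mul_left _) (hpD.mul_left _)
    · intro i k x hx
      have h3 : b.repr (i • b 1 + k • ((2 : ℤ) • b 3 - β • b 2)) 1 = b.repr ((p : ℤ) • x) 1 := by
        rw [hx]
      have h4 : b.repr (i • b 1 + k • ((2 : ℤ) • b 3 - β • b 2)) 3 = b.repr ((p : ℤ) • x) 3 := by
        rw [hx]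
      simp only [map_add, map_sub, map_smul, Basis.repr_self, Finsupp.coe_add, Finsupp.coe_sub,
        Finsupp.coe_smul, Pi.add_apply, Pi.sub_apply, Pi.smul_apply, smul_eq_mul,
        Finsupp.single_apply] at h3 h4
      simp at h3 h4
      refine ⟨⟨_, h3⟩, ?_⟩
      have hpp : Prime (p : ℤ) := Nat.prime_iff_prime_int.mp hp
      have h5 : (p : ℤ) ∣ k * 2 := ⟨_, h4⟩
      rcases hpp.dvd_or_dvd h5 with h6 | h6
      · exact h6
      · exfalso
        have h7 : p ∣ 2 := by exact_mod_cast h6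
        have h8 := (Nat.prime_dvd_prime_iff_eq hp Nat.prime_two).mp h7
        omega
  · intro w X hqw hlw' hX
    have hneg : J(-1 | d) = 1 := by
      have hdodd : Odd d := by rw [Nat.odd_iff]; omega
      rw [jacobiSym.at_neg_one hdodd, ZMod.χ₄_nat_one_mod_four hd4]
    have hX1 : J(X | d) = J(b.repr w 0 | d) := by
      rcases (coord_eq C hn hn').1 w X hX with h3 | h3
      · rw [h3]
      · rw [h3, ← neg_one_mul, jacobiSym.mul_left, hneg, one_mul]
    rw [hX1]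
    have hprod : J(A * X' * b.repr w 0 | d) = 1 := by
      apply jacobi_eq_one_of_primes d hdsq.ne_zero
      intro p hp hpd
      obtain ⟨hp12, hpn0, hpτ, hpD, hpAX, hpX', hpA⟩ := hdp' p hp hpd
      have hpp : Prime (p : ℤ) := Nat.prime_iff_prime_int.mp hp
      have h3 := hmod p hp hpd w
      have hpd' : (p : ℤ) ∣ d := by exact_mod_cast hpd
      have h4 : (p : ℤ) ∣ 1 + Q * b.repr w 0 ^ 2 := by
        have h5 : 1 + Q * b.repr w 0 ^ 2 = 4 * L.q w
            - (4 * L.q w - ((L.B l1 w) ^ 2 + Q * b.repr w 0 ^ 2))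
            - (L.B l1 w - 1) * (L.B l1 w + 1) := by ring
        rw [h5]
        rw [L.symm w l1] at hlw'
        exact dvd_sub (dvd_sub ((hpd'.trans hqw).mul_left 4) h3) ((hpd'.trans hlw').mul_right _)
      have hpQ : ¬ (p : ℤ) ∣ Q := by
        intro h
        have h5 : (p : ℤ) ∣ 1 := by
          have h6 : (1 : ℤ) = (1 + Q * b.repr w 0 ^ 2) - Q * b.repr w 0 ^ 2 := by ring
          rw [h6]
          exact dvd_sub h4 (h.mul_right _)
        exact hpp.not_isUnit (isUnit_of_dvd_one h5)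
      have h5 : (p : ℤ) ∣ (A * b.repr w 0 - X') * (A * b.repr w 0 + X') := by
        have h6 : (p : ℤ) ∣ Q * ((A * b.repr w 0 - X') * (A * b.repr w 0 + X')) := by
          have h7 : Q * ((A * b.repr w 0 - X') * (A * b.repr w 0 + X')) =
              A ^ 2 * (1 + Q * b.repr w 0 ^ 2) - (A ^ 2 + Q * X' ^ 2) := by ring
          rw [h7]
          exact dvd_sub (h4.mul_left _) hpAX
        exact (hpp.dvd_or_dvd h6).resolve_left hpQ
      have hgcd : X'.gcd p = 1 := by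
        rw [← Int.isCoprime_iff_gcd_eq_one]
        exact ((hpp.coprime_iff_not_dvd).mpr hpX').symm
      have hneg' : J(-1 | p) = 1 := by
        rw [jacobiSym.at_neg_one (by rw [Nat.odd_iff]; omega),
          ZMod.χ₄_nat_one_mod_four (by omega)]
      rcases hpp.dvd_or_dvd h5 with h6 | h6
      · have h7 : J(A * X' * b.repr w 0 | p) = J(X' ^ 2 | p) := by
          apply jacobiSym.mod_left'
          have h8 : (p : ℤ) ∣ A * X' * b.repr w 0 - X' ^ 2 := by
            have h9 : A * X' * b.repr w 0 - X' ^ 2 = (A * b.repr w 0 - X') * X' := by ring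
            rw [h9]
            exact h6.mul_right _
          exact (Int.modEq_iff_dvd.mpr h8).symm
        rw [h7, jacobiSym.sq_one' hgcd]
      · have h7 : J(A * X' * b.repr w 0 | p) = J(-1 * X' ^ 2 | p) := by
          apply jacobiSym.mod_left'
          have h8 : (p : ℤ) ∣ A * X' * b.repr w 0 - (-1 * X' ^ 2) := by
            have h9 : A * X' * b.repr w 0 - (-1 * X' ^ 2) = (A * b.repr w 0 + X') * X' := by ring
            rw [h9]
            exact h6.mul_right _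
          exact (Int.modEq_iff_dvd.mpr h8).symm
        rw [h7, jacobiSym.mul_left, jacobiSym.sq_one' hgcd, hneg', one_mul]
    rw [jacobiSym.mul_left, hJd] at hprod
    linarith

theorem not_of_obstruction [Module.Free ℤ N] [Module.Finite ℤ N] (hN : Module.finrank ℤ N = 4)
    (hnd : ∀ x, (∀ y, L.B x y = 0) → x = 0) {l1 w0 : N} (hl1 : L.q l1 = 1)
    (hw0 : w0 ≠ 0) (hw : L.q w0 = 0) (hlw : L.B l1 w0 = 0)
    {n : ℤ} (hn : ∀ x, n ∣ L.B w0 x) (hn' : ∃ z, L.B w0 z = n) (b' : Basis (Fin 4) ℤ N)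
    {d : ℕ} {t : ℤ} (hd1 : 1 < d) (hdsq : Squarefree d)
    (hdet : (Matrix.of fun i j => L.B (b' i) (b' j)).det = d ^ 3 * t ^ 2)
    (hdp : ∀ p : ℕ, p.Prime → p ∣ d → p % 4 = 1)
    (hob : ∀ (w : N) (X : ℤ), (d : ℤ) ∣ L.q w → (d : ℤ) ∣ L.B w l1 - 1 → L.B w w0 = n * X →
        J(X | d) = -1) : ¬ ∃ w, L.q w = 0 ∧ L.B w l1 = 1 := by
  rintro ⟨w, hqw, hwl⟩
  obtain ⟨b, n0, j, g, t1, β, Q, τ, D, C⟩ := exists_coords L hN hnd hl1 hw0 hw hlw
  have hn0 := C.n0_ne
  have hD0 := C.D_ne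
  have hd0 : (d : ℤ) ≠ 0 := by exact_mod_cast hdsq.ne_zero
  have hd4 : d % 4 = 1 := mod_four_of_primes d hdsq.ne_zero hdp
  rw [C.det_eq b'] at hdet
  have hDf : ∃ f, D = d * f ^ 2 := by
    have h1 : n0 ^ 2 * (D * d) = (d ^ 2 * t) ^ 2 := by linear_combination (d : ℤ) * hdet
    have h2 : n0 ∣ d ^ 2 * t := by
      rw [← Int.pow_dvd_pow_iff (two_ne_zero)]
      exact ⟨D * d, h1.symm⟩
    obtain ⟨m, hm⟩ := h2
    rw [hm] at h1
    have h3 : D * d = m ^ 2 := by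
      have h4 : n0 ^ 2 * (D * d - m ^ 2) = 0 := by linear_combination h1
      have h5 := (mul_eq_zero.mp h4).resolve_left (pow_ne_zero 2 hn0)
      linarith
    have h4 : (d : ℤ) ∣ m := by
      have h5 : Squarefree (d : ℤ) := Int.squarefree_natCast.mpr hdsq
      exact (h5.dvd_pow_iff_dvd two_ne_zero).mp ⟨D, by linear_combination -h3⟩
    obtain ⟨f, hf⟩ := h4
    refine ⟨f, ?_⟩
    rw [hf] at h3
    have h5 : (d : ℤ) * (D - d * f ^ 2) = 0 := by linear_combination h3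
    have h6 := (mul_eq_zero.mp h5).resolve_left hd0
    linarith
  obtain ⟨f, hf⟩ := hDf
  have h4 := C.four_q w
  rw [hqw, L.symm l1 w, hwl] at h4
  have hX0 : b.repr w 0 ≠ 0 := by
    intro h
    rw [h] at h4
    have h5 : (d : ℤ) ∣ 1 := by
      refine ⟨f ^ 2 * b.repr w 3 ^ 2, ?_⟩
      rw [hf] at h4
      linear_combination -h4
    have h6 : d ∣ 1 := by exact_mod_cast h5
    have h7 := Nat.dvd_one.mp h6
    omega
  have h5 : J(b.repr w 0 | d) = 1 := by
    refine reciprocity hd4 hf C.Qτ hX0 dvd_rfl (A := 1) (y := b.repr w 3) ?_ isCoprime_one_left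
      isCoprime_one_left
    exact ⟨-(n0 * (b.repr w 1 - j * b.repr w 2)), by linear_combination -h4⟩
  have hneg : J(-1 | d) = 1 := by
    have hdodd : Odd d := by rw [Nat.odd_iff]; omega
    rw [jacobiSym.at_neg_one hdodd, ZMod.χ₄_nat_one_mod_four hd4]
  have hdq : (d : ℤ) ∣ L.q w := by rw [hqw]; exact dvd_zero _
  have hdl : (d : ℤ) ∣ L.B w l1 - 1 := by rw [hwl]; simp
  rcases (coord_eq C hn hn').2 w with h6 | h6
  · have h7 := hob w _ hdq hdl h6
    rw [h5] at h7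
    norm_num at h7
  · have h7 := hob w _ hdq hdl h6
    rw [← neg_one_mul, jacobiSym.mul_left, hneg, h5] at h7
    norm_num at h7

end Pool.Agent.MP4d0966.R4
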