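import Pool.Agent.MP4d0966.R4Char

set_option autoImplicit false

open scoped NumberTheorySymbols

namespace Pool.Agent.MP4d0966.R4

/-- the assembly: local solutions at the bad primes and a prime `ℓ` with `(D / ℓ) = 1` -/
theorem assemble {n0 Q τ D κ : ℤ} (hn0 : n0 ≠ 0) (hD : D ≠ 0) (hκ : κ ≠ 0) {R r : ℕ}
    (hR : R ≠ 0) (h4D : 4 * D.natAbs ∣ R) (hr : r.Coprime R) (hJ : J(D | r) = 1)
    (hloc : ∀ ℓ : ℕ, ℓ ≡ r [MOD R] → ∃ y : ℤ,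
      4 * n0 * κ ∣ 1 + Q * (κ * ℓ) ^ 2 + 2 * τ * (κ * ℓ) * y - D * y ^ 2) :
    ∃ X y : ℤ, X ≠ 0 ∧ 4 * n0 * X ∣ 1 + Q * X ^ 2 + 2 * τ * X * y - D * y ^ 2 := by
  obtain ⟨ℓ, hℓ, hℓp, hℓr⟩ := Nat.forall_exists_prime_gt_and_modEq
    ((4 * n0 * κ * D).natAbs) hR hr
  have h2R : 2 ∣ R := Dvd.dvd.trans ⟨2 * D.natAbs, by ring⟩ h4D
  have hrodd : Odd r := odd_of_coprime hr h2R
  have hℓodd : Odd ℓ := odd_of_coprime (coprime_of_modEq hℓr hr) h2R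
  have hJℓ : J(D | ℓ) = 1 := by
    rw [jacobi_congr hℓodd hrodd (hℓr.of_dvd h4D), hJ]
  have hnd : ∀ m : ℤ, m ∣ 4 * n0 * κ * D → ¬ (ℓ : ℤ) ∣ m := by
    intro m hm hdvd
    have h1 : (ℓ : ℤ) ∣ 4 * n0 * κ * D := hdvd.trans hm
    have h2 : ℓ ∣ (4 * n0 * κ * D).natAbs := Int.natCast_dvd.mp h1
    have h3 : 4 * n0 * κ * D ≠ 0 := by positivity
    have h4 := Nat.le_of_dvd (Int.natAbs_pos.mpr h3) h2
    omega
  have hℓprime : Prime (ℓ : ℤ) := Nat.prime_iff_prime_int.mp hℓp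
  have : Fact ℓ.Prime := ⟨hℓp⟩
  -- a square root of `D` modulo `ℓ`
  obtain ⟨g, hg⟩ := ZMod.isSquare_of_jacobiSym_eq_one hJℓ
  obtain ⟨g', rfl⟩ := ZMod.intCast_surjective g
  have hDg : (ℓ : ℤ) ∣ D - g' ^ 2 := by
    rw [← ZMod.intCast_zmod_eq_zero_iff_dvd]
    push_cast
    rw [hg]
    ring
  have hgℓ : ¬ (ℓ : ℤ) ∣ g' := by
    intro h
    apply hnd D (dvd_mul_left _ _)
    have h1 : D = (D - g' ^ 2) + g' * g' := by ring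
    rw [h1]
    exact dvd_add hDg (h.mul_right _)
  obtain ⟨v, u, huv⟩ : IsCoprime (ℓ : ℤ) g' := (hℓprime.coprime_iff_not_dvd).mpr hgℓ
  obtain ⟨y0, hy0⟩ := hloc ℓ hℓr
  have hcop : IsCoprime (ℓ : ℤ) (4 * n0 * κ) :=
    (hℓprime.coprime_iff_not_dvd).mpr (hnd _ (dvd_mul_right _ _))
  obtain ⟨b, a, hab⟩ := hcop
  set y := y0 + (4 * n0 * κ) * (a * (u - y0)) with hy
  have hyu : (ℓ : ℤ) ∣ y - u := by
    refine ⟨-b * (u - y0), ?_⟩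
    rw [hy]
    linear_combination (u - y0) * hab
  have h1 : 4 * n0 * κ ∣ 1 + Q * (κ * ℓ) ^ 2 + 2 * τ * (κ * ℓ) * y - D * y ^ 2 := by
    have h2 : 1 + Q * (κ * ℓ) ^ 2 + 2 * τ * (κ * ℓ) * y - D * y ^ 2 =
        (1 + Q * (κ * ℓ) ^ 2 + 2 * τ * (κ * ℓ) * y0 - D * y0 ^ 2) +
        (4 * n0 * κ) * ((a * (u - y0)) * (2 * τ * (κ * ℓ) - D * (y + y0))) := by
      rw [hy]
      ring
    rw [h2]
    exact dvd_add hy0 (dvd_mul_right _ _)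
  have h3 : (ℓ : ℤ) ∣ 1 + Q * (κ * ℓ) ^ 2 + 2 * τ * (κ * ℓ) * y - D * y ^ 2 := by
    obtain ⟨c, hc⟩ := hDg
    obtain ⟨d, hd⟩ := hyu
    have h4 : y = u + ℓ * d := by linear_combination hd
    have h5 : D = g' ^ 2 + ℓ * c := by linear_combination hc
    refine ⟨Q * κ ^ 2 * ℓ + 2 * τ * κ * y - c * y ^ 2 - g' ^ 2 * (2 * u * d + ℓ * d ^ 2)
      + v * (1 + u * g'), ?_⟩
    have h6 : 1 - g' ^ 2 * u ^ 2 = ℓ * (v * (1 + u * g')) := by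
      linear_combination (-(1 + u * g')) * huv
    have h7 : g' ^ 2 * y ^ 2 = g' ^ 2 * u ^ 2 + ℓ * (g' ^ 2 * (2 * u * d + ℓ * d ^ 2)) := by
      rw [h4]
      ring
    rw [h5]
    linear_combination h6 - h7
  refine ⟨κ * ℓ, y, mul_ne_zero hκ (by exact_mod_cast hℓp.ne_zero), ?_⟩
  have h8 : 4 * n0 * (κ * ℓ) = (4 * n0 * κ) * ℓ := by ring
  rw [h8]
  exact IsCoprime.mul_dvd ⟨a, b, by linear_combination hab⟩ h1 h3

end Pool.Agent.MP4d0966.R4
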