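import Pool.Agent.MP4d0966.R4Local
import Pool.Agent.MP4d0966.R4Rec

set_option autoImplicit false

open scoped NumberTheorySymbols

namespace Pool.Agent.MP4d0966.R4

/-- The arithmetic core: if the equation `4 n0 X ∣ 1 + Q X² + 2 τ X y - D y²` has the solutions
coming from a hyperbolic plane and from `l2` but no solution, then `D` is exceptional. -/
theorem core {n0 Q τ D A X' y' X2 y2 : ℤ} (hn0 : n0 ≠ 0) (hD : D ≠ 0)
    (hD4 : D % 4 = 0 ∨ D % 4 = 1) (hτ : Even D → Even τ) (hQτ : D % 2 = 1 → (Q + τ) % 2 = 0)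
    (hA : IsCoprime A (2 * n0 * D)) (hX' : X' ≠ 0)
    (h1 : 4 * n0 * X' ∣ A ^ 2 + Q * X' ^ 2 + 2 * τ * X' * y' - D * y' ^ 2)
    (h2 : 4 * n0 * X2 ∣ Q * X2 ^ 2 + 2 * τ * X2 * y2 - D * y2 ^ 2 - 3)
    (hno : ¬ ∃ X y : ℤ, X ≠ 0 ∧ 4 * n0 * X ∣ 1 + Q * X ^ 2 + 2 * τ * X * y - D * y ^ 2) :
    0 < D ∧ ¬ IsSquare D ∧
      (∀ (d : ℕ) (f : ℤ), d % 4 = 1 → D = d * f ^ 2 → J(A * X' | d) = -1) ∧
      ∀ (p v : ℕ) (D1 : ℤ), p.Prime → Odd v → D = (p : ℤ) ^ v * D1 →
      ¬ (p : ℤ) ∣ D1 → p % 12 = 1 ∧ (p : ℤ) ∣ n0 ∧ (p : ℤ) ∣ τ ∧ (p : ℤ) ∣ D ∧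
        (p : ℤ) ∣ A ^ 2 + Q * X' ^ 2 ∧ ¬ (p : ℤ) ∣ X' ∧ ¬ (p : ℤ) ∣ A := by
  -- split `X'`
  obtain ⟨κ, X'', hκX, hX'', hκ⟩ := exists_split (2 * n0 * D) X'.natAbs X' hX' le_rfl
  have hκ0 : κ ≠ 0 := by
    rintro rfl
    exact hX' (by rw [hκX, zero_mul])
  have hAκ : IsCoprime A κ := hκ A hA
  have hA2 : IsCoprime A 2 := hA.of_isCoprime_of_dvd_right ⟨n0 * D, by ring⟩
  have hAn : IsCoprime A n0 := hA.of_isCoprime_of_dvd_right ⟨2 * D, by ring⟩
  have hAD : IsCoprime A D := hA.of_isCoprime_of_dvd_right ⟨2 * n0, by ring⟩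
  have hX2' : IsCoprime X'' 2 := hX''.of_isCoprime_of_dvd_right ⟨n0 * D, by ring⟩
  have hXn : IsCoprime X'' n0 := hX''.of_isCoprime_of_dvd_right ⟨2 * D, by ring⟩
  have hXD : IsCoprime X'' D := hX''.of_isCoprime_of_dvd_right ⟨2 * n0, by ring⟩
  -- the modulus
  set R : ℕ := 8 * n0.natAbs * D.natAbs with hRdef
  have hR : R ≠ 0 := by
    rw [hRdef]
    have := Int.natAbs_pos.mpr hn0
    have := Int.natAbs_pos.mpr hD
    positivity
  have h4DR : 4 * D.natAbs ∣ R := ⟨2 * n0.natAbs, by rw [hRdef]; ring⟩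
  have h4nR : 4 * n0 ∣ (R : ℤ) := by
    have h3 : 4 * n0.natAbs ∣ R := ⟨2 * D.natAbs, by rw [hRdef]; ring⟩
    have h4 : ((4 * n0.natAbs : ℕ) : ℤ) ∣ (R : ℤ) := by exact_mod_cast h3
    push_cast at h4
    refine Dvd.dvd.trans ?_ h4
    exact mul_dvd_mul_left 4 ((dvd_abs n0 n0).mpr dvd_rfl)
  have hcopR : ∀ a : ℤ, IsCoprime a 2 → IsCoprime a n0 → IsCoprime a D → IsCoprime a (R : ℤ) := by
    intro a ha2 han haD
    have h3 : (R : ℤ) = 2 ^ 3 * |n0| * |D| := by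
      rw [hRdef]
      push_cast
      ring
    rw [h3]
    refine IsCoprime.mul_right (IsCoprime.mul_right (IsCoprime.pow_right ha2) ?_) ?_
    · exact han.of_isCoprime_of_dvd_right ((abs_dvd n0 n0).mpr dvd_rfl)
    · exact haD.of_isCoprime_of_dvd_right ((abs_dvd D D).mpr dvd_rfl)
  obtain ⟨r, hrR, hrA⟩ := exists_r hR (hcopR A hA2 hAn hAD) (hcopR X'' hX2' hXn hXD)
  have h2R : 2 ∣ R := ⟨4 * n0.natAbs * D.natAbs, by rw [hRdef]; ring⟩
  have hrodd : Odd r := odd_of_coprime hrR h2R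
  have hr0 : r ≠ 0 := by
    rintro rfl
    simp at hrodd
  have hrD : r.Coprime D.natAbs := hrR.coprime_dvd_right ⟨8 * n0.natAbs, by rw [hRdef]; ring⟩
  have hDr : D.gcd r = 1 := by
    rw [Int.gcd_eq_natAbs, Int.natAbs_natCast, Nat.gcd_comm]
    exact hrD
  have hAM : IsCoprime A (4 * n0 * κ) := by
    refine IsCoprime.mul_right (IsCoprime.mul_right ?_ hAn) hAκ
    have h3 : (4 : ℤ) = 2 ^ 2 := by norm_num
    rw [h3]
    exact IsCoprime.pow_right hA2
  have h1κ : 4 * n0 * κ ∣ A ^ 2 + Q * X' ^ 2 + 2 * τ * X' * y' - D * y' ^ 2 := by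
    refine Dvd.dvd.trans ⟨X'', ?_⟩ h1
    rw [hκX]
    ring
  -- first step: `J(D | r) = -1`
  have hJr : J(D | r) = -1 := by
    rcases jacobiSym.eq_one_or_neg_one hDr with h | h
    · exfalso
      apply hno
      refine assemble hn0 hD hκ0 hR h4DR hrR h fun ℓ hℓ => ?_
      refine loc_of_sol h1κ hAM ?_
      have h3 : (R : ℤ) ∣ (ℓ : ℤ) - r := by
        exact Nat.modEq_iff_dvd.mp hℓ.symm
      have h4 : 4 * n0 ∣ A * ℓ - X'' := by
        have h5 : A * ℓ - X'' = A * ((ℓ : ℤ) - r) + (r * A - X'') := by ring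
        rw [h5]
        exact h4nR.trans (dvd_add (h3.mul_left _) hrA)
      obtain ⟨c, hc⟩ := h4
      refine ⟨c, ?_⟩
      rw [hκX]
      linear_combination κ * hc
    · exact h
  -- `D > 0`
  have hDpos : 0 < D := by
    by_contra hneg
    have hneg' : D < 0 := by omega
    apply hno
    have hr' : R * (r + 1) - r ≠ 0 := by
      have h3 : r < R * (r + 1) := by
        have h4 : 1 ≤ R := Nat.one_le_iff_ne_zero.mpr hR
        nlinarith
      omega
    have hle : r ≤ R * (r + 1) := by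
      have h4 : 1 ≤ R := Nat.one_le_iff_ne_zero.mpr hR
      nlinarith
    have hsum : r + (R * (r + 1) - r) = R * (r + 1) := by omega
    have hcop : (R * (r + 1) - r).Coprime R := by
      have h3 : IsCoprime (((R * (r + 1) - r : ℕ) : ℤ)) (R : ℤ) := by
        rw [Nat.cast_sub hle]
        push_cast
        have h5 : IsCoprime (r : ℤ) (R : ℤ) := Nat.isCoprime_iff_coprime.mpr hrR
        have h6 := h5.neg_left.add_mul_left_left ((r : ℤ) + 1)
        have h7 : (R : ℤ) * (r + 1) - r = -(r : ℤ) + R * (r + 1) := by ring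
        rw [h7]
        exact h6
      exact Nat.isCoprime_iff_coprime.mp h3
    have hJ' : J(D | R * (r + 1) - r) = 1 := by
      rw [jacobi_neg hneg' hr0 hr' (by
        refine Nat.Coprime.mul_right ?_ hrD
        exact Nat.coprime_two_right.mpr hrodd) (by rw [hsum]; exact h4DR.mul_right _), hJr]
      norm_num
    refine assemble hn0 hD hκ0 hR h4DR hcop hJ' fun ℓ hℓ => ?_
    have h1' : 4 * n0 * κ ∣ (-A) ^ 2 + Q * X' ^ 2 + 2 * τ * X' * y' - D * y' ^ 2 := by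
      rw [neg_sq]
      exact h1κ
    refine loc_of_sol h1' hAM.neg_left ?_
    have h3 : (R : ℤ) ∣ (ℓ : ℤ) + r := by
      have h4 : (R : ℤ) ∣ (ℓ : ℤ) - ((R * (r + 1) - r : ℕ) : ℤ) := Nat.modEq_iff_dvd.mp hℓ.symm
      rw [Nat.cast_sub hle] at h4
      push_cast at h4
      have h5 : (ℓ : ℤ) + r = (ℓ - (R * (r + 1) - r)) + R * (r + 1) := by ring
      rw [h5]
      exact dvd_add h4 (dvd_mul_right _ _)
    have h4 : 4 * n0 ∣ -A * ℓ - X'' := by
      have h5 : -A * ℓ - X'' = (-A) * ((ℓ : ℤ) + r) + (r * A - X'') := by ring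
      rw [h5]
      exact h4nR.trans (dvd_add (h3.mul_left _) hrA)
    obtain ⟨c, hc⟩ := h4
    refine ⟨c, ?_⟩
    rw [hκX]
    linear_combination κ * hc
  refine ⟨hDpos, ?_, ?_, ?_⟩
  · rintro ⟨s, hs⟩
    have h3 : J(D | r) = 1 := by
      rw [hs, ← sq]
      apply jacobiSym.sq_one'
      have h4 : s ∣ D := ⟨s, hs⟩
      have h5 : s.natAbs ∣ D.natAbs := Int.natAbs_dvd_natAbs.mpr h4
      rw [Int.gcd_eq_natAbs, Int.natAbs_natCast, Nat.gcd_comm]
      exact hrD.coprime_dvd_right h5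
    rw [hJr] at h3
    norm_num at h3
  · intro d f hd4 hDf
    have hdD : (d : ℤ) ∣ D := ⟨f ^ 2, hDf⟩
    have hκd : J(κ | d) = 1 := by
      refine reciprocity hd4 hDf hQτ hκ0 ⟨X'', hκX⟩ (y := y') (A := A) ?_ hAκ hA2
      exact Dvd.dvd.trans ⟨n0, by ring⟩ h1
    have hrd : J((r : ℤ) | d) = -1 := by
      rw [← jacobiSym.quadratic_reciprocity_one_mod_four hd4 hrodd]
      have h3 := hJr
      rw [hDf, jacobiSym.mul_left, jacobiSym.pow_left] at h3
      rcases jacobiSym.trichotomy (d : ℤ) r with h4 | h4 | h4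
      · rw [h4] at h3
        simp at h3
      · rw [h4] at h3
        nlinarith [sq_nonneg (J(f | r))]
      · exact h4
    have h4 : J(r * A | d) = J(X'' | d) := by
      apply jacobiSym.mod_left'
      have h5 : (d : ℤ) ∣ r * A - X'' := by
        refine Dvd.dvd.trans ?_ hrA
        have h6 : d ∣ R := by
          refine (Int.natAbs_dvd_natAbs.mpr hdD).trans ((dvd_mul_left _ _).trans h4DR)
        exact_mod_cast h6
      exact (Int.modEq_iff_dvd.mpr h5).symm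
    rw [jacobiSym.mul_left, hrd] at h4
    have h5 : J(A | d) ^ 2 = 1 := by
      apply jacobiSym.sq_one
      rw [← Int.isCoprime_iff_gcd_eq_one]
      exact hAD.of_isCoprime_of_dvd_right hdD
    rw [hκX, jacobiSym.mul_left, jacobiSym.mul_left, hκd, ← h4]
    linear_combination -h5
  intro p v D1 hp hv hDp hpD1
  have hpp : Prime (p : ℤ) := Nat.prime_iff_prime_int.mp hp
  have hv1 : 1 ≤ v := hv.pos
  have hpD : (p : ℤ) ∣ D := by
    rw [hDp]
    exact (dvd_pow_self _ (by omega)).mul_right _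
  have hpA : ¬ (p : ℤ) ∣ A := by
    intro h
    have h3 := (hAD.isUnit_of_dvd' h hpD)
    exact hpp.not_isUnit h3
  have hpX' : ¬ (p : ℤ) ∣ X' := by
    intro h
    apply hpA
    apply hpp.dvd_of_dvd_pow (n := 2)
    have h3 : (p : ℤ) ∣ A ^ 2 + Q * X' ^ 2 + 2 * τ * X' * y' - D * y' ^ 2 :=
      (h.mul_left _).trans h1
    have h4 : A ^ 2 = (A ^ 2 + Q * X' ^ 2 + 2 * τ * X' * y' - D * y' ^ 2)
        - X' * (Q * X' + 2 * τ * y') + D * y' ^ 2 := by ring
    rw [h4]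
    exact dvd_add (dvd_sub h3 (h.mul_right _)) (hpD.mul_right _)
  have hpκ : ¬ (p : ℤ) ∣ κ := fun h => hpX' (by rw [hκX]; exact h.mul_right _)
  have hpr : ¬ (p : ℤ) ∣ r := by
    intro h
    have h3 : p ∣ r := by exact_mod_cast h
    have h4 : p ∣ D.natAbs := Int.natCast_dvd.mp hpD
    have h5 := Nat.dvd_gcd h3 h4
    rw [Nat.coprime_iff_gcd_eq_one.mp hrD] at h5
    exact hp.one_lt.ne' (Nat.dvd_one.mp h5)
  have hpR : p ∣ R := (Int.natCast_dvd.mp hpD).trans ⟨8 * n0.natAbs, by rw [hRdef]; ring⟩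
  obtain ⟨e, R1, hR1, hRe⟩ := Nat.exists_eq_pow_mul_and_not_dvd hR p hp.ne_one
  obtain ⟨a, m, hm, hma⟩ := Nat.exists_eq_pow_mul_and_not_dvd (n := (4 * n0).natAbs)
    (Int.natAbs_ne_zero.mpr (by omega)) p hp.ne_one
  have he1 : e ≠ 0 := by
    rintro rfl
    rw [pow_zero, one_mul] at hRe
    exact hR1 (hRe ▸ hpR)
  have hpR1 : p.Coprime R1 := (Nat.Prime.coprime_iff_not_dvd hp).mpr hR1
  have h4nR' : (4 * n0).natAbs ∣ p ^ e * R1 := by
    rw [← hRe]
    exact Int.natCast_dvd_natCast.mp ((Int.natAbs_dvd).mpr h4nR)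
  have hae : p ^ a ∣ p ^ e := by
    have h3 : p ^ a ∣ p ^ e * R1 := (Dvd.intro _ hma.symm).trans h4nR'
    exact (Nat.Coprime.pow_left a hpR1).dvd_of_dvd_mul_right h3
  have hmR1 : m ∣ R1 := by
    have h3 : m ∣ p ^ e * R1 := (Dvd.intro_left _ hma.symm).trans h4nR'
    have h4 : m.Coprime (p ^ e) :=
      (Nat.Coprime.pow_left e ((Nat.Prime.coprime_iff_not_dvd hp).mpr hm)).symm
    exact h4.dvd_of_dvd_mul_left h3
  have flip : ∀ g : ℤ, ¬ (p : ℤ) ∣ g →
      (∀ r' : ℕ, r' ≠ 0 → r' ≡ r [MOD R1] → (r' : ℤ) ≡ g * r [ZMOD ((p ^ e : ℕ) : ℤ)] →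
        J(D | r') = - J(D | r)) →
      (∀ ℓ : ℕ, (ℓ : ℤ) ≡ g * r [ZMOD ((p ^ a : ℕ) : ℤ)] → ∃ y : ℤ,
        (p : ℤ) ^ a ∣ 1 + Q * (κ * ℓ) ^ 2 + 2 * τ * (κ * ℓ) * y - D * y ^ 2) → False := by
    intro g hg hJ hloc
    have hpe0 : ((p ^ e : ℕ) : ℤ) ≠ 0 := by exact_mod_cast (pow_pos hp.pos e).ne'
    obtain ⟨r', hr'1, hr'2⟩ := Nat.chineseRemainder (Nat.Coprime.pow_left e hpR1)
      ((g * r) % ((p ^ e : ℕ) : ℤ)).toNat r
    have hr'3 : (r' : ℤ) ≡ g * r [ZMOD ((p ^ e : ℕ) : ℤ)] := by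
      have h3 : (r' : ℤ) ≡ ((((g * r) % ((p ^ e : ℕ) : ℤ)).toNat : ℕ) : ℤ) [ZMOD ((p ^ e : ℕ) : ℤ)] :=
        Int.natCast_modEq_iff.mpr hr'1
      rw [Int.toNat_of_nonneg (Int.emod_nonneg _ hpe0)] at h3
      exact h3.trans (Int.mod_modEq _ _)
    have hpe : (p : ℤ) ∣ ((p ^ e : ℕ) : ℤ) := by
      exact_mod_cast dvd_pow_self p he1
    have hpr' : ¬ p ∣ r' := by
      intro h
      have h3 : (p : ℤ) ∣ (r' : ℤ) := by exact_mod_cast h
      have h4 : (p : ℤ) ∣ g * r - r' := hpe.trans (Int.modEq_iff_dvd.mp hr'3)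
      have h5 : (p : ℤ) ∣ g * r := by
        have h6 : g * (r : ℤ) = (g * r - r') + r' := by ring
        rw [h6]
        exact dvd_add h4 h3
      rcases hpp.dvd_or_dvd h5 with h6 | h6
      · exact hg h6
      · exact hpr h6
    have hr'R1 : r'.Coprime R1 := by
      apply coprime_of_modEq hr'2
      exact hrR.coprime_dvd_right (Dvd.intro_left _ hRe.symm)
    have hr'R : r'.Coprime R := by
      rw [hRe]
      exact Nat.Coprime.mul_right (Nat.Coprime.pow_right e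
        ((Nat.Prime.coprime_iff_not_dvd hp).mpr hpr').symm) hr'R1
    have hr'0 : r' ≠ 0 := by
      rintro rfl
      exact hpr' (dvd_zero _)
    have hJ' := hJ r' hr'0 hr'2 hr'3
    rw [hJr, neg_neg] at hJ'
    apply hno
    refine assemble hn0 hD hκ0 hR h4DR hr'R hJ' fun ℓ hℓ => ?_
    have hℓ1 : ℓ ≡ r [MOD R1] := (hℓ.of_dvd (Dvd.intro_left _ hRe.symm)).trans hr'2
    have hℓ2 : (ℓ : ℤ) ≡ g * r [ZMOD ((p ^ a : ℕ) : ℤ)] := by
      have h3 : (ℓ : ℤ) ≡ r' [ZMOD ((p ^ e : ℕ) : ℤ)] :=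
        Int.natCast_modEq_iff.mpr (hℓ.of_dvd (Dvd.intro _ hRe.symm))
      exact (h3.trans hr'3).of_dvd (by exact_mod_cast hae)
    obtain hy1 := hloc ℓ hℓ2
    have hy2 : ∃ y, (m : ℤ) * κ ∣ 1 + Q * (κ * ℓ) ^ 2 + 2 * τ * (κ * ℓ) * y - D * y ^ 2 := by
      have hm4 : (m : ℤ) ∣ 4 * n0 := by
        have h3 : m ∣ (4 * n0).natAbs := Dvd.intro_left _ hma.symm
        exact Int.natCast_dvd.mpr h3
      have h3 : (m : ℤ) * κ ∣ 4 * n0 * κ := mul_dvd_mul_right hm4 κ
      refine loc_of_sol (h3.trans h1κ) (hAM.of_isCoprime_of_dvd_right h3) ?_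
      have h4 : (m : ℤ) ∣ A * ℓ - X'' := by
        have h5 : (R1 : ℤ) ∣ (ℓ : ℤ) - r := Nat.modEq_iff_dvd.mp hℓ1.symm
        have h6 : (m : ℤ) ∣ (R1 : ℤ) := by exact_mod_cast hmR1
        have h7 : (R1 : ℤ) ∣ (R : ℤ) := by
          exact_mod_cast Dvd.intro_left _ hRe.symm
        have h8 : A * ℓ - X'' = A * ((ℓ : ℤ) - r) + (r * A - X'') := by ring
        rw [h8]
        exact h6.trans (dvd_add (h5.mul_left _) (h7.trans hrA))
      obtain ⟨c, hc⟩ := h4
      refine ⟨c, ?_⟩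
      rw [hκX]
      linear_combination κ * hc
    have hcop : IsCoprime ((p : ℤ) ^ a) ((m : ℤ) * κ) := by
      apply IsCoprime.pow_left
      apply IsCoprime.mul_right
      · exact Nat.isCoprime_iff_coprime.mpr ((Nat.Prime.coprime_iff_not_dvd hp).mpr hm)
      · exact (hpp.coprime_iff_not_dvd).mpr hpκ
    obtain ⟨y, hy⟩ := crt_y hcop hy1 hy2
    refine ⟨y, Dvd.dvd.trans ?_ hy⟩
    have h3 : 4 * n0 = ((p ^ a * m : ℕ) : ℤ) ∨ 4 * n0 = -((p ^ a * m : ℕ) : ℤ) := by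
      rw [← hma]
      exact Int.natAbs_eq (4 * n0)
    push_cast at h3
    rcases h3 with h3 | h3
    · rw [h3]
      exact ⟨1, by ring⟩
    · rw [h3]
      exact ⟨-1, by ring⟩
  have hpa4 : (p : ℤ) ^ a ∣ 4 * n0 := by
    have h3 : p ^ a ∣ (4 * n0).natAbs := Dvd.intro _ hma.symm
    have h4 : ((p ^ a : ℕ) : ℤ) ∣ 4 * n0 := Int.natCast_dvd.mpr h3
    exact_mod_cast h4
  have hDnat : D.natAbs = p ^ v * D1.natAbs := by
    rw [hDp, Int.natAbs_mul, Int.natAbs_pow, Int.natAbs_natCast]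
  have hpD1' : p.Coprime D1.natAbs := by
    rw [Nat.Prime.coprime_iff_not_dvd hp]
    intro h
    exact hpD1 (Int.natCast_dvd.mpr h)
  have h4D1R : 4 * D1.natAbs ∣ R := by
    refine Dvd.dvd.trans ?_ h4DR
    exact mul_dvd_mul_left 4 ⟨p ^ v, by rw [hDnat]; ring⟩
  have hD1R1 : p ≠ 2 → 4 * D1.natAbs ∣ R1 := by
    intro hp2
    have h3 : (4 * D1.natAbs).Coprime (p ^ e) := by
      refine (Nat.Coprime.pow_left e ?_).symm
      refine Nat.Coprime.mul_right ?_ hpD1'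
      have h4 : (4 : ℕ) = 2 ^ 2 := rfl
      rw [h4]
      exact Nat.Coprime.pow_right 2 ((Nat.coprime_primes hp Nat.prime_two).mpr hp2)
    rw [hRe] at h4D1R
    exact h3.dvd_of_dvd_mul_left h4D1R
  -- the flip for unit classes
  have uflip : (∀ X : ℤ, ¬ (p : ℤ) ∣ X → ∃ y : ℤ,
      (p : ℤ) ^ a ∣ 1 + Q * X ^ 2 + 2 * τ * X * y - D * y ^ 2) → False := by
    intro H
    have hloc : ∀ g : ℤ, ¬ (p : ℤ) ∣ g → ∀ ℓ : ℕ, (ℓ : ℤ) ≡ g * r [ZMOD ((p ^ a : ℕ) : ℤ)] →
        ∃ y : ℤ, (p : ℤ) ^ a ∣ 1 + Q * (κ * ℓ) ^ 2 + 2 * τ * (κ * ℓ) * y - D * y ^ 2 := by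
      intro g hg ℓ hℓ
      rcases Nat.eq_zero_or_pos a with ha | ha
      · rw [ha, pow_zero]
        exact ⟨0, one_dvd _⟩
      · apply H
        intro h3
        have hpa : (p : ℤ) ∣ ((p ^ a : ℕ) : ℤ) := by
          exact_mod_cast dvd_pow_self p (by omega)
        have h4 : (p : ℤ) ∣ g * r - ℓ := hpa.trans (Int.modEq_iff_dvd.mp hℓ)
        rcases hpp.dvd_or_dvd h3 with h5 | h5
        · exact hpκ h5
        · have h6 : g * (r : ℤ) = (g * r - ℓ) + ℓ := by ring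
          have h7 : (p : ℤ) ∣ g * r := by
            rw [h6]
            exact dvd_add h4 h5
          rcases hpp.dvd_or_dvd h7 with h8 | h8
          · exact hg h8
          · exact hpr h8
    rcases eq_or_ne p 2 with hp2 | hp2
    · subst hp2
      have h5 : ¬ ((2 : ℕ) : ℤ) ∣ (5 : ℤ) := by norm_num
      refine flip 5 h5 ?_ (hloc 5 h5)
      intro r' hr'0 hr'1 hr'2
      have h8 : r' ≡ 5 * r [MOD 8] := by
        have h6 : (8 : ℕ) ∣ 2 ^ e := by
          have h7 : 2 ^ 3 ∣ 2 ^ e * R1 := by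
            rw [← hRe, hRdef]
            exact ⟨n0.natAbs * D.natAbs, by ring⟩
          exact (Nat.Coprime.pow_left 3 hpR1).dvd_of_dvd_mul_right h7
        have h9 : (r' : ℤ) ≡ ((5 * r : ℕ) : ℤ) [ZMOD ((8 : ℕ) : ℤ)] := by
          have h10 := hr'2.of_dvd (Int.natCast_dvd_natCast.mpr h6)
          exact_mod_cast h10
        exact Int.natCast_modEq_iff.mp h9
      refine jacobi_flip_two hv (by exact_mod_cast hDp) hr'0 hrodd ?_ h8
      have h4 : r' ≡ r [MOD 4] := by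
        have h6 : r' % 8 = 5 * r % 8 := h8
        show r' % 4 = r % 4
        omega
      have h6 : r' ≡ r [MOD D1.natAbs] := by
        apply hr'1.of_dvd
        have h7 : D1.natAbs ∣ 2 ^ e * R1 := by
          rw [← hRe]
          exact (dvd_mul_left _ _).trans h4D1R
        exact (Nat.Coprime.pow_left e hpD1').symm.dvd_of_dvd_mul_left h7
      have h7 : Nat.Coprime 4 D1.natAbs := by
        have h9 : (4 : ℕ) = 2 ^ 2 := rfl
        rw [h9]
        exact Nat.Coprime.pow_left 2 hpD1'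
      exact (Nat.modEq_and_modEq_iff_modEq_mul h7).mp ⟨h4, h6⟩
    · obtain ⟨g, hg, hgJ⟩ := exists_nonresidue hp hp2
      refine flip g hg ?_ (hloc g hg)
      intro r' hr'0 hr'1 hr'2
      have h3 := hr'1.of_dvd (hD1R1 hp2)
      refine jacobi_flip_odd hp hp2 hv hDp hr'0 hrodd ?_ h3 (h3.of_dvd (dvd_mul_right _ _)) hgJ ?_
      · have h4 : ¬ p ∣ r := fun h => hpr (by exact_mod_cast h)
        exact ((Nat.Prime.coprime_iff_not_dvd hp).mpr h4).symm
      · refine hr'2.of_dvd ?_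
        exact_mod_cast dvd_pow_self p he1
  rcases eq_or_ne p 2 with hp2 | hp2
  · exfalso
    subst hp2
    have hDeven : D % 2 = 0 := by
      have h3 := hpD
      push_cast at h3
      omega
    have hv3 : 3 ≤ v := by
      by_contra h
      have hv1' : v = 1 := by
        obtain ⟨k, hk⟩ := hv
        omega
      rw [hv1', pow_one] at hDp
      apply hpD1
      push_cast at hDp ⊢
      omega
    have hD8 : (8 : ℤ) ∣ D := by
      rw [hDp]
      apply Dvd.dvd.mul_right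
      have h3 : ((2 : ℕ) : ℤ) ^ 3 ∣ ((2 : ℕ) : ℤ) ^ v := pow_dvd_pow _ hv3
      norm_num at h3 ⊢
      exact h3
    obtain ⟨D8, hD8⟩ := hD8
    obtain ⟨τ', hτ'⟩ := hτ (Int.even_iff.mpr hDeven)
    obtain ⟨A1, hA1⟩ : ∃ A1, A = 2 * A1 + 1 := by
      refine ⟨A / 2, ?_⟩
      push_cast at hpA
      omega
    obtain ⟨X1, hX1⟩ : ∃ X1, X' = 2 * X1 + 1 := by
      refine ⟨X' / 2, ?_⟩
      push_cast at hpX'
      omega
    obtain ⟨t, ht⟩ := h1
    obtain ⟨s, hs⟩ := h2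
    have h14 : ∃ c, 1 + Q = 4 * c := by
      refine ⟨n0 * X' * t - (A1 ^ 2 + A1) - Q * (X1 ^ 2 + X1) - τ' * X' * y' + 2 * D8 * y' ^ 2, ?_⟩
      rw [hA1, hτ', hD8] at ht
      rw [hX1] at ht ⊢
      linear_combination ht
    obtain ⟨c, hc⟩ := h14
    have ha2 : 2 ≤ a := by
      have h3 : 2 ^ 2 ∣ 2 ^ a * m := by
        rw [← hma, Int.natAbs_mul]
        exact ⟨n0.natAbs, rfl⟩
      have h4 : (2 ^ 2).Coprime m :=
        Nat.Coprime.pow_left 2 ((Nat.Prime.coprime_iff_not_dvd hp).mpr hm)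
      exact (Nat.pow_dvd_pow_iff_le_right (by norm_num)).mp (h4.dvd_of_dvd_mul_right h3)
    obtain ⟨a', rfl⟩ : ∃ a', a = a' + 2 := ⟨a - 2, by omega⟩
    by_cases hτodd : τ' % 2 = 0
    · have hn0odd : n0 % 2 = 1 := by
        by_contra hn
        have hn' : n0 = 2 * (n0 / 2) := by omega
        have hτ'' : τ' = 2 * (τ' / 2) := by omega
        generalize n0 / 2 = n1 at hn'
        generalize τ' / 2 = τ1 at hτ''
        have h3 : ∃ k, 1 + Q = 8 * k := by
          obtain ⟨A2, hA2⟩ : ∃ A2, A1 ^ 2 + A1 = 2 * A2 := (even_iff_exists_two_mul.mp (by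
            have h4 := Int.even_mul_succ_self A1
            have h5 : A1 ^ 2 + A1 = A1 * (A1 + 1) := by ring
            rw [h5]
            exact h4))
          obtain ⟨X3, hX3⟩ : ∃ X3, X1 ^ 2 + X1 = 2 * X3 := (even_iff_exists_two_mul.mp (by
            have h4 := Int.even_mul_succ_self X1
            have h5 : X1 ^ 2 + X1 = X1 * (X1 + 1) := by ring
            rw [h5]
            exact h4))
          refine ⟨n1 * X' * t - A2 - Q * X3 - τ1 * X' * y' + D8 * y' ^ 2, ?_⟩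
          rw [hA1, hτ', hD8, hτ'', hn'] at ht
          rw [hX1] at ht ⊢
          linear_combination ht - 4 * hA2 - 4 * Q * hX3
        obtain ⟨k, hk⟩ := h3
        rw [hτ', hD8, hτ'', hn'] at hs
        have h5 : Q * X2 ^ 2 - 3 = 8 * (n1 * X2 * s - τ1 * X2 * y2 + D8 * y2 ^ 2) := by
          linear_combination hs
        have h6 : Q = 8 * k - 1 := by linear_combination hk
        rw [h6] at h5
        have h7 : X2 ^ 2 + 3 = 8 * (k * X2 ^ 2 - (n1 * X2 * s - τ1 * X2 * y2 + D8 * y2 ^ 2)) := by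
          linear_combination -h5
        generalize k * X2 ^ 2 - (n1 * X2 * s - τ1 * X2 * y2 + D8 * y2 ^ 2) = w at h7
        have h8 : X2 % 4 = 0 ∨ X2 % 4 = 1 ∨ X2 % 4 = 2 ∨ X2 % 4 = 3 := by omega
        have h9 : X2 = 4 * (X2 / 4) + X2 % 4 := by omega
        generalize X2 / 4 = q at h9
        rcases h8 with h8 | h8 | h8 | h8 <;> rw [h8] at h9 <;> rw [h9] at h7 <;> ring_nf at h7 <;>
          omega
      apply uflip
      intro X hX
      have ha0 : a' = 0 := by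
        by_contra ha'
        obtain ⟨a'', rfl⟩ : ∃ a'', a' = a'' + 1 := ⟨a' - 1, by omega⟩
        obtain ⟨d, hd⟩ := hpa4
        have h3 : (4 : ℤ) * n0 = 4 * (2 * (2 ^ a'' * d)) := by
          push_cast at hd
          linear_combination hd
        have h4 : n0 = 2 * (2 ^ a'' * d) := by linarith
        omega
      subst ha0
      obtain ⟨X3, hX3⟩ : ∃ X3, X = 2 * X3 + 1 := by
        refine ⟨X / 2, ?_⟩
        push_cast at hX
        omega
      refine ⟨0, c + Q * (X3 ^ 2 + X3), ?_⟩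
      rw [hX3]
      push_cast
      linear_combination hc
    · apply uflip
      intro X hX
      obtain ⟨X3, hX3⟩ : ∃ X3, X = 2 * X3 + 1 := by
        refine ⟨X / 2, ?_⟩
        push_cast at hX
        omega
      obtain ⟨y, d, hy⟩ := hensel hp (C := c + Q * (X3 ^ 2 + X3)) (B := τ' * X) (E := 2 * D8)
        (by exact_mod_cast dvd_mul_right _ _) (by
          intro h
          rcases hpp.dvd_or_dvd h with h3 | h3
          · push_cast at h3
            omega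
          · exact hX h3) a'
      refine ⟨y, d, ?_⟩
      have h3 : 1 + Q * X ^ 2 = 4 * (c + Q * (X3 ^ 2 + X3)) := by
        rw [hX3]
        linear_combination hc
      rw [hτ', hD8]
      push_cast at hy ⊢
      linear_combination h3 + 4 * hy
  · have hp4 : p % 4 = 1 ∨ p % 4 = 3 := by
      have := hp.odd_of_ne_two hp2
      rw [Nat.odd_iff] at this
      omega
    rcases hp4 with hp4 | hp4
    · have hpn0 : (p : ℤ) ∣ n0 := by
        by_contra hpn0
        apply uflip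
        intro X hX
        have ha0 : a = 0 := by
          by_contra ha
          have h3 : (p : ℤ) ∣ 4 * n0 := (dvd_pow_self _ ha).trans hpa4
          rcases hpp.dvd_or_dvd h3 with h4 | h4
          · have h5 : (p : ℤ) ∣ 2 ^ 2 := by norm_num; exact h4
            have h6 := hpp.dvd_of_dvd_pow h5
            have h7 : p ∣ 2 := by exact_mod_cast h6
            exact hp2 ((Nat.prime_dvd_prime_iff_eq hp Nat.prime_two).mp h7)
          · exact hpn0 h4
        rw [ha0, pow_zero]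
        exact ⟨0, one_dvd _⟩
      have hpτ : (p : ℤ) ∣ τ := by
        by_contra hpτ
        apply uflip
        intro X hX
        obtain ⟨y, hy⟩ := hensel hp (C := 1 + Q * X ^ 2) (B := 2 * τ * X) (E := D) hpD (by
          intro h
          rcases hpp.dvd_or_dvd h with h3 | h3
          · rcases hpp.dvd_or_dvd h3 with h4 | h4
            · have h7 : p ∣ 2 := by exact_mod_cast h4
              exact hp2 ((Nat.prime_dvd_prime_iff_eq hp Nat.prime_two).mp h7)
            · exact hpτ h4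
          · exact hX h3) a
        exact ⟨y, by convert hy using 1⟩
      have h3 : (p : ℤ) ∣ A ^ 2 + Q * X' ^ 2 + 2 * τ * X' * y' - D * y' ^ 2 :=
        ((hpn0.mul_left 4).mul_right X').trans h1
      have h3' : (p : ℤ) ∣ A ^ 2 + Q * X' ^ 2 := by
        have h4 : A ^ 2 + Q * X' ^ 2 = (A ^ 2 + Q * X' ^ 2 + 2 * τ * X' * y' - D * y' ^ 2)
            - τ * (2 * X' * y') + D * y' ^ 2 := by ring
        rw [h4]
        exact dvd_add (dvd_sub h3 (hpτ.mul_right _)) (hpD.mul_right _)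
      refine ⟨?_, hpn0, hpτ, hpD, h3', hpX', hpA⟩
      refine neg_three hp hp4 hpX' (z := A * X2) ?_ (by rintro rfl; omega)
      have h4 : (p : ℤ) ∣ Q * X2 ^ 2 + 2 * τ * X2 * y2 - D * y2 ^ 2 - 3 :=
        ((hpn0.mul_left 4).mul_right X2).trans h2
      have h5 : (A * X2) ^ 2 + 3 * X' ^ 2 =
          X2 ^ 2 * (A ^ 2 + Q * X' ^ 2 + 2 * τ * X' * y' - D * y' ^ 2)
          - X' ^ 2 * (Q * X2 ^ 2 + 2 * τ * X2 * y2 - D * y2 ^ 2 - 3)
          + τ * (2 * X' ^ 2 * X2 * y2 - 2 * X2 ^ 2 * X' * y')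
          + D * (X2 ^ 2 * y' ^ 2 - X' ^ 2 * y2 ^ 2) := by ring
      rw [h5]
      exact dvd_add (dvd_add (dvd_sub (h3.mul_left _) (h4.mul_left _)) (hpτ.mul_right _))
        (hpD.mul_right _)
    · exfalso
      have h3 : ¬ (p : ℤ) ∣ (-1 : ℤ) := by
        intro h
        have h4 := Int.isUnit_iff.mpr (Or.inl rfl : (1 : ℤ) = 1 ∨ (1 : ℤ) = -1)
        exact hpp.not_isUnit (isUnit_of_dvd_unit (by simpa using h) h4)
      refine flip (-1) h3 ?_ ?_
      · intro r' hr'0 hr'1 hr'2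
        have h4 := hr'1.of_dvd (hD1R1 hp2)
        refine jacobi_flip_odd hp hp2 hv hDp hr'0 hrodd ?_ h4 (h4.of_dvd (dvd_mul_right _ _))
          (g := -1) ?_ ?_
        · have h4 : ¬ p ∣ r := fun h => hpr (by exact_mod_cast h)
          exact ((Nat.Prime.coprime_iff_not_dvd hp).mpr h4).symm
        · rw [jacobiSym.at_neg_one (hp.odd_of_ne_two hp2), ZMod.χ₄_nat_three_mod_four hp4]
        · refine hr'2.of_dvd ?_
          exact_mod_cast dvd_pow_self p he1
      · intro ℓ hℓ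
        have h4 : (p : ℤ) ^ a ∣ (-A) ^ 2 + Q * X' ^ 2 + 2 * τ * X' * y' - D * y' ^ 2 := by
          rw [neg_sq]
          exact (hpa4.trans (dvd_mul_right _ _)).trans h1κ
        refine loc_of_sol h4 ?_ ?_
        · exact (hAM.neg_left).of_isCoprime_of_dvd_right (hpa4.trans (dvd_mul_right _ _))
        · have h5 : -A * (κ * ℓ) - X' = κ * ((A) * (-1 * r - ℓ) + (r * A - X'')) := by
            rw [hκX]
            ring
          rw [h5]
          apply Dvd.dvd.mul_left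
          refine dvd_add (Dvd.dvd.mul_left ?_ _) ((hpa4.trans h4nR).trans hrA)
          have h6 := Int.modEq_iff_dvd.mp hℓ
          exact_mod_cast h6

end Pool.Agent.MP4d0966.R4
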