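import Pool.Agent.MP4d0966.R4Basis
import Pool.Agent.MP4d0966.R4Main

set_option autoImplicit false

namespace Pool.Agent.MP4d0966.R4

open Module

/-- the part of odd valuation -/
theorem exists_odd_part {D : ℤ} (hD : 0 < D) (hsq : ¬ IsSquare D) :
    ∃ (d : ℕ) (f : ℤ), 1 < d ∧ Squarefree d ∧ D = d * f ^ 2 ∧
      ∀ p : ℕ, p.Prime → p ∣ d → ∃ (v : ℕ) (D1 : ℤ), Odd v ∧ D = (p : ℤ) ^ v * D1 ∧
        ¬ (p : ℤ) ∣ D1 := by
  obtain ⟨d, f, hdf, hd⟩ := Nat.sq_mul_squarefree D.toNat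
  have hDdf : D = (d : ℤ) * (f : ℤ) ^ 2 := by
    have h1 : D = ((D.toNat : ℕ) : ℤ) := (Int.toNat_of_nonneg hD.le).symm
    rw [h1, ← hdf]
    push_cast
    ring
  have hf0 : f ≠ 0 := by
    rintro rfl
    rw [hDdf] at hD
    simp at hD
  refine ⟨d, f, ?_, hd, hDdf, ?_⟩
  · have h0 : d ≠ 0 := hd.ne_zero
    have h1 : d ≠ 1 := by
      rintro rfl
      exact hsq ⟨f, by rw [hDdf]; push_cast; ring⟩
    omega
  · rintro p hp ⟨d1, hd1⟩
    obtain ⟨k, f1, hf1, hk⟩ := Nat.exists_eq_pow_mul_and_not_dvd hf0 p hp.ne_one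
    refine ⟨2 * k + 1, (d1 : ℤ) * f1 ^ 2, ⟨k, rfl⟩, ?_, ?_⟩
    · rw [hDdf, hd1, hk]
      push_cast
      ring
    · intro h
      have h1 : p ∣ d1 * f1 ^ 2 := by exact_mod_cast h
      rcases (Nat.Prime.dvd_mul hp).mp h1 with h2 | h2
      · obtain ⟨d2, hd2⟩ := h2
        have h3 : p * p ∣ d := ⟨d2, by rw [hd1, hd2]; ring⟩
        have h4 := hd p h3
        exact hp.one_lt.ne' (Nat.isUnit_iff.mp h4)
      · exact hf1 (hp.dvd_of_dvd_pow h2)

variable {N : Type*} [AddCommGroup N] (L : EvenForm N)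

theorem four_q {z w l s : N} {n0 : ℤ} (hw : L.q w = 0) (hz : L.B z w = n0)
    (hlw : L.B l w = 0) (hsw : L.B s w = 0) (hl : L.q l = 1) (j X i x y : ℤ) :
    4 * L.q (X • z + i • w + x • l + y • s) =
      (L.B (l + j • w) (X • z + i • w + x • l + y • s)) ^ 2
      + (4 * L.q z - (L.B z l + j * n0) ^ 2) * X ^ 2
      + 2 * (2 * L.B z s - L.B l s * (L.B z l + j * n0)) * X * y
      - (L.B l s ^ 2 - 4 * L.q s) * y ^ 2 + 4 * n0 * X * (i - j * x) := by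
  have h1 : L.B w z = n0 := by rw [L.symm, hz]
  have h2 : L.B w l = 0 := by rw [L.symm, hlw]
  have h3 : L.B w s = 0 := by rw [L.symm, hsw]
  have h4 : L.B w w = 0 := by rw [L.hq, hw, mul_zero]
  have h5 : L.B l l = 2 := by rw [L.hq, hl, mul_one]
  have h6 : L.B l z = L.B z l := L.symm _ _
  simp only [EvenForm.q_add, EvenForm.q_smul, map_add, map_smul, LinearMap.add_apply,
    LinearMap.smul_apply, smul_eq_mul, hw, hz, hlw, hl, h1, h2, h3, h4, h5, h6]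
  ring

theorem B_formula {z w l s : N} {n0 : ℤ} (hw : L.q w = 0) (hz : L.B z w = n0)
    (hlw : L.B l w = 0) (hsw : L.B s w = 0) (hl : L.q l = 1) (j X i x y : ℤ) :
    L.B (l + j • w) (X • z + i • w + x • l + y • s) =
      X * (L.B z l + j * n0) + 2 * x + L.B l s * y := by
  have h1 : L.B w z = n0 := by rw [L.symm, hz]
  have h2 : L.B w l = 0 := by rw [L.symm, hlw]
  have h3 : L.B w s = 0 := by rw [L.symm, hsw]
  have h4 : L.B w w = 0 := by rw [L.hq, hw, mul_zero]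
  have h5 : L.B l l = 2 := by rw [L.hq, hl, mul_one]
  have h6 : L.B l z = L.B z l := L.symm _ _
  simp only [map_add, map_smul, LinearMap.add_apply,
    LinearMap.smul_apply, smul_eq_mul, hlw, h1, h2, h3, h4, h5, h6]
  ring

/-- adapted coordinates -/
structure Coords (L : EvenForm N) (b : Basis (Fin 4) ℤ N) (l1 w0 : N) (n0 j g t1 β Q τ D : ℤ) :
    Prop where
  n0_ne : n0 ≠ 0
  g_ne : g ≠ 0
  hw0 : w0 = g • b 1
  t1_eq : t1 = L.B (b 0) (b 2) + j * n0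
  β_eq : β = L.B (b 2) (b 3)
  Q_eq : Q = 4 * L.q (b 0) - t1 ^ 2
  τ_eq : τ = 2 * L.B (b 0) (b 3) - β * t1
  D_eq : D = β ^ 2 - 4 * L.q (b 3)
  four_q : ∀ v, 4 * L.q v = (L.B l1 v) ^ 2 + Q * b.repr v 0 ^ 2 + 2 * τ * b.repr v 0 * b.repr v 3
    - D * b.repr v 3 ^ 2 + 4 * n0 * b.repr v 0 * (b.repr v 1 - j * b.repr v 2)
  hBl : ∀ v, L.B l1 v = b.repr v 0 * t1 + 2 * b.repr v 2 + β * b.repr v 3
  hBw : ∀ v, L.B (b 1) v = b.repr v 0 * n0
  hBu : ∀ v, L.B ((2 : ℤ) • b 3 - β • b 2) v = b.repr v 0 * (τ + β * j * n0) - b.repr v 3 * D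
  D_ne : D ≠ 0
  D_mod : D % 4 = 0 ∨ D % 4 = 1
  τ_even : Even D → Even τ
  Qτ : D % 2 = 1 → (Q + τ) % 2 = 0
  det_eq : ∀ b' : Basis (Fin 4) ℤ N,
    (Matrix.of fun i j => L.B (b' i) (b' j)).det = n0 ^ 2 * D

theorem exists_coords [Module.Free ℤ N] [Module.Finite ℤ N] (hN : Module.finrank ℤ N = 4)
    (hnd : ∀ x, (∀ y, L.B x y = 0) → x = 0) {l1 w0 : N} (hl1 : L.q l1 = 1)
    (hw0 : w0 ≠ 0) (hw : L.q w0 = 0) (hlw : L.B l1 w0 = 0) :
    ∃ (b : Basis (Fin 4) ℤ N) (n0 j g t1 β Q τ D : ℤ), Coords L b l1 w0 n0 j g t1 β Q τ D := by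
  obtain ⟨b, n0, j, hn0, hqw, hzw, hl'w, hsw, hl1', hql', g, hg, hw0g⟩ :=
    exists_basis hN L hnd hl1 hw0 hw hlw
  have hexp : ∀ v : N, v = b.repr v 0 • b 0 + b.repr v 1 • b 1 + b.repr v 2 • b 2
      + b.repr v 3 • b 3 := by
    intro v
    conv_lhs => rw [← b.sum_repr v]
    rw [Fin.sum_univ_four]
  have hwz : L.B (b 1) (b 0) = n0 := by rw [L.symm, hzw]
  have hwl' : L.B (b 1) (b 2) = 0 := by rw [L.symm, hl'w]
  have hws : L.B (b 1) (b 3) = 0 := by rw [L.symm, hsw]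
  have hww : L.B (b 1) (b 1) = 0 := by rw [L.hq, hqw, mul_zero]
  have hl'l' : L.B (b 2) (b 2) = 2 := by rw [L.hq, hql', mul_one]
  have hl'z : L.B (b 2) (b 0) = L.B (b 0) (b 2) := L.symm _ _
  have hsz : L.B (b 3) (b 0) = L.B (b 0) (b 3) := L.symm _ _
  have hsl' : L.B (b 3) (b 2) = L.B (b 2) (b 3) := L.symm _ _
  have hss : L.B (b 3) (b 3) = 2 * L.q (b 3) := L.hq _
  have hzz : L.B (b 0) (b 0) = 2 * L.q (b 0) := L.hq _
  have h4q := fun X i x y => four_q L hqw hzw hl'w hsw hql' j X i x y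
  have hBf := fun X i x y => B_formula L hqw hzw hl'w hsw hql' j X i x y
  rw [← hl1'] at h4q hBf
  obtain ⟨t1, ht1⟩ : ∃ t1, t1 = L.B (b 0) (b 2) + j * n0 := ⟨_, rfl⟩
  obtain ⟨β, hβ⟩ : ∃ β, β = L.B (b 2) (b 3) := ⟨_, rfl⟩
  rw [← ht1, ← hβ] at h4q hBf
  obtain ⟨Q, hQ⟩ : ∃ Q, Q = 4 * L.q (b 0) - t1 ^ 2 := ⟨_, rfl⟩
  obtain ⟨τ, hτ⟩ : ∃ τ, τ = 2 * L.B (b 0) (b 3) - β * t1 := ⟨_, rfl⟩
  obtain ⟨D, hD⟩ : ∃ D, D = β ^ 2 - 4 * L.q (b 3) := ⟨_, rfl⟩
  rw [← hQ, ← hτ, ← hD] at h4q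
  have hBw : ∀ v, L.B (b 1) v = b.repr v 0 * n0 := by
    intro v
    conv_lhs => rw [hexp v]
    simp only [map_add, map_smul, smul_eq_mul, hwz, hwl', hws, hww]
    ring
  have hBu : ∀ v, L.B ((2 : ℤ) • b 3 - β • b 2) v = b.repr v 0 * (τ + β * j * n0)
      - b.repr v 3 * D := by
    intro v
    conv_lhs => rw [hexp v]
    simp only [map_add, map_sub, map_smul, smul_eq_mul, LinearMap.sub_apply, LinearMap.smul_apply,
      hl'z, hsz, hsl', hss, hl'l', hsw, hl'w, ← hβ]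
    rw [hτ, hD, ht1]
    ring
  refine ⟨b, n0, j, g, t1, β, Q, τ, D, hn0, hg, hw0g, ht1, hβ, hQ, hτ, hD, ?_, ?_, hBw, hBu,
    ?_, ?_, ?_, ?_, ?_⟩
  · intro v
    have h1 := h4q (b.repr v 0) (b.repr v 1) (b.repr v 2) (b.repr v 3)
    rw [← hexp] at h1
    exact h1
  · intro v
    have h1 := hBf (b.repr v 0) (b.repr v 1) (b.repr v 2) (b.repr v 3)
    rw [← hexp] at h1
    exact h1
  · intro h
    have h1 : n0 • ((2 : ℤ) • b 3 - β • b 2) - (τ + β * j * n0) • b 1 = 0 := by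
      apply hnd
      intro y
      rw [map_sub, LinearMap.sub_apply, map_smul, map_smul, LinearMap.smul_apply,
        LinearMap.smul_apply, hBu, hBw, h]
      simp only [smul_eq_mul]
      ring
    have h2 : b.repr (n0 • ((2 : ℤ) • b 3 - β • b 2) - (τ + β * j * n0) • b 1) 3 = 0 := by
      rw [h1]
      simp
    simp only [map_sub, map_smul, Basis.repr_self, Finsupp.coe_sub, Finsupp.coe_smul,
      Pi.sub_apply, Pi.smul_apply, smul_eq_mul, Finsupp.single_apply] at h2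
    simp at h2
    exact hn0 h2
  · rcases Int.even_or_odd' β with ⟨k, hk | hk⟩
    · left
      have h3 : D = 4 * (k ^ 2 - L.q (b 3)) := by rw [hD, hk]; ring
      omega
    · right
      have h3 : D = 4 * (k ^ 2 + k - L.q (b 3)) + 1 := by rw [hD, hk]; ring
      omega
  · intro h
    have h3 : Even β := by
      rw [hD, Int.even_sub] at h
      have h4 : Even (β ^ 2) := h.mpr ⟨2 * L.q (b 3), by ring⟩
      exact (Int.even_pow.mp h4).1
    rw [hτ, Int.even_sub]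
    exact ⟨fun _ => h3.mul_right _, fun _ => even_two_mul _⟩
  · intro h
    rcases Int.even_or_odd' β with ⟨k, hk | hk⟩
    · have h3 : D = 2 * (2 * (k ^ 2 - L.q (b 3))) := by rw [hD, hk]; ring
      omega
    · obtain ⟨c, hc⟩ := even_iff_exists_two_mul.mp (Int.even_mul_succ_self t1)
      have h3 : Q + τ = 2 * (2 * L.q (b 0) + L.B (b 0) (b 3) - c - k * t1) := by
        rw [hQ, hτ, hk]
        linear_combination -hc
      omega
  · intro b'
    rw [det_gram_eq L.B b' b]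
    have hM : (Matrix.of fun i j => L.B (b i) (b j)) =
        !![2 * L.q (b 0), n0, L.B (b 0) (b 2), L.B (b 0) (b 3);
           n0, 0, 0, 0;
           L.B (b 0) (b 2), 0, 2, β;
           L.B (b 0) (b 3), 0, β, 2 * L.q (b 3)] := by
      ext i j
      fin_cases i <;> fin_cases j <;>
        simp [hzw, hwz, hwl', hws, hww, hl'l', hl'z, hsz, hsl', hss, hzz, hl'w, hsw, ← hβ]
    rw [hM, Matrix.det_succ_row_zero, hD]
    simp [Fin.sum_univ_succ, Matrix.det_fin_three, Fin.succAbove]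
    ring

theorem isotropic_of_sol {b : Basis (Fin 4) ℤ N} {l1 w0 : N} {n0 j g t1 β Q τ D : ℤ}
    (C : Coords L b l1 w0 n0 j g t1 β Q τ D) {X y : ℤ}
    (h : 4 * n0 * X ∣ 1 + Q * X ^ 2 + 2 * τ * X * y - D * y ^ 2) :
    ∃ w, L.q w = 0 ∧ L.B w l1 = 1 := by
  obtain ⟨k, hk⟩ := h
  have h3 : (t1 * X + β * y) % 2 = 1 := by
    by_contra h4
    obtain ⟨m, hm⟩ : ∃ m, t1 * X + β * y = 2 * m := ⟨(t1 * X + β * y) / 2, by omega⟩
    have h5 : (1 : ℤ) = 4 * (m ^ 2 + n0 * X * k - L.q (b 0) * X ^ 2 - L.B (b 0) (b 3) * X * y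
        - L.q (b 3) * y ^ 2) := by
      rw [C.Q_eq, C.τ_eq, C.D_eq] at hk
      linear_combination hk + (t1 * X + β * y + 2 * m) * hm
    omega
  obtain ⟨x, hx⟩ : ∃ x, 1 - (t1 * X + β * y) = 2 * x := ⟨(1 - (t1 * X + β * y)) / 2, by omega⟩
  have hr : ∀ i : Fin 4, b.repr (X • b 0 + (j * x - k) • b 1 + x • b 2 + y • b 3) i =
      ![X, j * x - k, x, y] i := by
    intro i
    fin_cases i <;> simp
  have h0 := hr 0
  have h1 := hr 1
  have h2 := hr 2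
  have h3' := hr 3
  simp only [Matrix.cons_val] at h0 h1 h2 h3'
  have h6 : L.B l1 (X • b 0 + (j * x - k) • b 1 + x • b 2 + y • b 3) = 1 := by
    rw [C.hBl, h0, h2, h3']
    linear_combination -hx
  refine ⟨X • b 0 + (j * x - k) • b 1 + x • b 2 + y • b 3, ?_, ?_⟩
  · have h4 := C.four_q (X • b 0 + (j * x - k) • b 1 + x • b 2 + y • b 3)
    rw [h6, h0, h1, h2, h3'] at h4
    have h7 : 4 * L.q (X • b 0 + (j * x - k) • b 1 + x • b 2 + y • b 3) = 0 := by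
      linear_combination h4 + hk
    omega
  · rw [L.symm]
    exact h6

end Pool.Agent.MP4d0966.R4
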