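import Pool.Agent.MP4d0966.R4Core
import Pool.Agent.MP4d0966.Arith

set_option autoImplicit false

open scoped NumberTheorySymbols

namespace Pool.Agent.MP4d0966.R4

/-- Hensel's lemma for `C + B y - E y²` with `p ∣ E`, `p ∤ B` -/
theorem hensel {p : ℕ} (hp : p.Prime) {C B E : ℤ} (hE : (p : ℤ) ∣ E) (hB : ¬ (p : ℤ) ∣ B)
    (a : ℕ) : ∃ y : ℤ, (p : ℤ) ^ a ∣ C + B * y - E * y ^ 2 := by
  induction a with
  | zero => exact ⟨0, by simp⟩
  | succ a ih =>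
    obtain ⟨y, c, hc⟩ := ih
    obtain ⟨E', rfl⟩ := hE
    have hpp : Prime (p : ℤ) := Nat.prime_iff_prime_int.mp hp
    have h1 : ¬ (p : ℤ) ∣ B - 2 * (p * E') * y := by
      intro h
      apply hB
      have h2 : B = (B - 2 * (p * E') * y) + p * (2 * E' * y) := by ring
      rw [h2]
      exact dvd_add h (dvd_mul_right _ _)
    obtain ⟨u, v, huv⟩ : IsCoprime (p : ℤ) (B - 2 * (p * E') * y) :=
      (hpp.coprime_iff_not_dvd).mpr h1
    refine ⟨y + p ^ a * (-(v * c)), ?_⟩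
    refine ⟨c * u - E' * p ^ a * (v * c) ^ 2, ?_⟩
    have h3 : C + B * (y + p ^ a * (-(v * c))) - p * E' * (y + p ^ a * (-(v * c))) ^ 2 =
        (C + B * y - p * E' * y ^ 2) - p ^ a * (v * c) * (B - 2 * (p * E') * y)
          - p * E' * (p ^ a) ^ 2 * (v * c) ^ 2 := by ring
    rw [h3, hc]
    linear_combination (-((p : ℤ) ^ a * c)) * huv

/-- gluing solutions `y` for coprime moduli -/
theorem crt_y {Q τ D X M1 M2 : ℤ} (h : IsCoprime M1 M2)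
    (h1 : ∃ y, M1 ∣ 1 + Q * X ^ 2 + 2 * τ * X * y - D * y ^ 2)
    (h2 : ∃ y, M2 ∣ 1 + Q * X ^ 2 + 2 * τ * X * y - D * y ^ 2) :
    ∃ y, M1 * M2 ∣ 1 + Q * X ^ 2 + 2 * τ * X * y - D * y ^ 2 := by
  obtain ⟨y1, h1⟩ := h1
  obtain ⟨y2, h2⟩ := h2
  obtain ⟨a, b, hab⟩ := h
  have key : ∀ M y z : ℤ, M ∣ z - y → M ∣ 1 + Q * X ^ 2 + 2 * τ * X * y - D * y ^ 2 →
      M ∣ 1 + Q * X ^ 2 + 2 * τ * X * z - D * z ^ 2 := by
    intro M y z hM hy
    have h3 : 1 + Q * X ^ 2 + 2 * τ * X * z - D * z ^ 2 =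
        (1 + Q * X ^ 2 + 2 * τ * X * y - D * y ^ 2) + (z - y) * (2 * τ * X - D * (z + y)) := by
      ring
    rw [h3]
    exact dvd_add hy (hM.mul_right _)
  refine ⟨y1 + M1 * (a * (y2 - y1)), IsCoprime.mul_dvd ⟨a, b, hab⟩ (key M1 y1 _ ?_ h1)
    (key M2 y2 _ ?_ h2)⟩
  · exact ⟨a * (y2 - y1), by ring⟩
  · exact ⟨-b * (y2 - y1), by linear_combination (y2 - y1) * hab⟩

/-- the local solution coming from an isotropic vector -/
theorem loc_of_sol {Q τ D A X' y' X M : ℤ} (hM : M ∣ A ^ 2 + Q * X' ^ 2 + 2 * τ * X' * y' - D * y' ^ 2)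
    (hA : IsCoprime A M) (hX : M ∣ A * X - X') :
    ∃ y, M ∣ 1 + Q * X ^ 2 + 2 * τ * X * y - D * y ^ 2 := by
  obtain ⟨u, v, huv⟩ := hA
  refine ⟨u * y', ?_⟩
  have h1 : M ∣ A ^ 2 * (1 + Q * X ^ 2 + 2 * τ * X * (u * y') - D * (u * y') ^ 2) := by
    obtain ⟨c, hc⟩ := hM
    obtain ⟨d, hd⟩ := hX
    have h2 : X' = A * X - M * d := by linear_combination -hd
    rw [h2] at hc
    refine ⟨c + Q * d * (2 * A * X - M * d) + 2 * τ * y' * (d - A * X * v) + D * y' ^ 2 * v * (1 + u * A), ?_⟩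
    have h3 : u * A = 1 - v * M := by linear_combination huv
    have h4 : A ^ 2 * (1 + Q * X ^ 2 + 2 * τ * X * (u * y') - D * (u * y') ^ 2) =
        A ^ 2 + Q * (A * X) ^ 2 + 2 * τ * (A * X) * ((u * A) * y') - D * ((u * A) * y') ^ 2 := by ring
    rw [h4, h3]
    linear_combination hc
  have h5 : IsCoprime M (A ^ 2) := (IsCoprime.pow_left (m := 2) ⟨u, v, huv⟩).symm
  exact h5.dvd_of_dvd_mul_left h1

theorem exists_r {A X : ℤ} {R : ℕ} (hR : R ≠ 0) (hA : IsCoprime A R) (hX : IsCoprime X R) :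
    ∃ r : ℕ, r.Coprime R ∧ (R : ℤ) ∣ r * A - X := by
  obtain ⟨u, v, huv⟩ := hA
  have hR0 : (R : ℤ) ≠ 0 := by exact_mod_cast hR
  have h1 : 0 ≤ (u * X) % R := Int.emod_nonneg _ hR0
  have h2 : (R : ℤ) ∣ ((((u * X) % R).toNat : ℕ) : ℤ) * A - X := by
    rw [Int.toNat_of_nonneg h1]
    have h3 := Int.emod_add_mul_ediv (u * X) R
    refine ⟨-(u * X / R) * A - v * X, ?_⟩
    linear_combination A * h3 + X * huv
  refine ⟨((u * X) % R).toNat, ?_, h2⟩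
  rw [← Nat.isCoprime_iff_coprime]
  obtain ⟨c, hc⟩ := h2
  obtain ⟨s, t, hst⟩ := hX
  exact ⟨s * A, t - s * c, by linear_combination hst + s * hc⟩

theorem exists_nonresidue {p : ℕ} (hp : p.Prime) (hp2 : p ≠ 2) :
    ∃ g : ℤ, ¬ (p : ℤ) ∣ g ∧ J(g | p) = -1 := by
  have : Fact p.Prime := ⟨hp⟩
  obtain ⟨g, hg⟩ := FiniteField.exists_nonsquare (F := ZMod p) (by rwa [ZMod.ringChar_zmod_n])
  obtain ⟨g', rfl⟩ := ZMod.intCast_surjective g
  refine ⟨g', ?_, ZMod.nonsquare_iff_jacobiSym_eq_neg_one.mpr hg⟩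
  intro h
  apply hg
  rw [(ZMod.intCast_zmod_eq_zero_iff_dvd g' p).mpr h]
  exact IsSquare.zero

/-- `-3` is a square modulo a prime `p = 1 mod 4` only if `p = 1 mod 3` -/
theorem neg_three {p : ℕ} (hp : p.Prime) (hp4 : p % 4 = 1) {x z : ℤ} (hx : ¬ (p : ℤ) ∣ x)
    (h : (p : ℤ) ∣ z ^ 2 + 3 * x ^ 2) (hp3 : p ≠ 3) : p % 12 = 1 := by
  have : Fact p.Prime := ⟨hp⟩
  have hpp : Prime (p : ℤ) := Nat.prime_iff_prime_int.mp hp
  have hpodd : Odd p := by rw [Nat.odd_iff]; omega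
  have hp3' : ¬ 3 ∣ p := by
    intro h1
    exact hp3 ((Nat.prime_dvd_prime_iff_eq Nat.prime_three hp).mp h1).symm
  have hne : J(-3 | p) ≠ -1 := by
    rw [Ne, ZMod.nonsquare_iff_jacobiSym_eq_neg_one, not_not]
    have h1 : ((z ^ 2 + 3 * x ^ 2 : ℤ) : ZMod p) = 0 := (ZMod.intCast_zmod_eq_zero_iff_dvd _ p).mpr h
    have h2 : ((x : ℤ) : ZMod p) ≠ 0 := by
      intro h3
      exact hx ((ZMod.intCast_zmod_eq_zero_iff_dvd _ p).mp h3)
    push_cast at h1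
    refine ⟨(z : ZMod p) / x, ?_⟩
    push_cast
    field_simp
    linear_combination -h1
  have hJ : J(-3 | p) = J((p : ℤ) | 3) := by
    have h1 : J(-3 | p) = J(-1 | p) * J(((3 : ℕ) : ℤ) | p) := by
      rw [← jacobiSym.mul_left]
      norm_num
    rw [h1, jacobiSym.at_neg_one hpodd, ZMod.χ₄_nat_one_mod_four hp4, one_mul,
      jacobiSym.quadratic_reciprocity_one_mod_four' (by decide) hp4]
  rw [hJ, jacobiSym.mod_left] at hne
  have h3 : p % 3 = 1 ∨ p % 3 = 2 := by omega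
  rcases h3 with h3 | h3
  · omega
  · exfalso
    apply hne
    have h4 : ((p : ℤ) % ((3 : ℕ) : ℤ)) = 2 := by
      have : (p : ℤ) % 3 = 2 := by omega
      exact_mod_cast this
    rw [h4]
    norm_num

end Pool.Agent.MP4d0966.R4
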